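import Mathlib

/-!
# Boolean circuits, logspace-uniform families of circuits, and the class NC
-/

set_option autoImplicit false

namespace Pool.Agent.NC

open Turing StateTransition

/-! ### Circuits -/

/-- Gates: input bits, constants, negation, binary conjunction and disjunction. The numbers `a`, `b`
are the numbers of the gates whose values are used. -/
inductive Gate
  | inp (i : ℕ)
  | cst (b : Bool)
  | not (a : ℕ)
  | and (a b : ℕ)
  | or (a b : ℕ)

/-- A circuit is a list of gates, numbered by their position; the last gate is the output. -/
abbrev Circuit : Type := List Gate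

/-- The value of a gate, given the input and the list of the values of the earlier gates. -/
def Gate.val (x v : List Bool) : Gate → Bool
  | .inp i => x.getD i false
  | .cst b => b
  | .not a => !(v.getD a false)
  | .and a b => v.getD a false && v.getD b false
  | .or a b => v.getD a false || v.getD b false

/-- The depth of a gate, given the list of the depths of the earlier gates. -/
def Gate.dep (d : List ℕ) : Gate → ℕ
  | .inp _ => 0
  | .cst _ => 0
  | .not a => d.getD a 0 + 1
  | .and a b => max (d.getD a 0) (d.getD b 0) + 1
  | .or a b => max (d.getD a 0) (d.getD b 0) + 1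

/-- A gate with number `j` of a circuit with `n` inputs: it only refers to inputs below `n` and to
gates below `j`. -/
def Gate.WF (n j : ℕ) : Gate → Prop
  | .inp i => i < n
  | .cst _ => True
  | .not a => a < j
  | .and a b => a < j ∧ b < j
  | .or a b => a < j ∧ b < j

namespace Circuit

/-- The circuit is well formed for inputs of length `n`. -/
def WF (C : Circuit) (n : ℕ) : Prop := ∀ (j : ℕ) (g : Gate), C[j]? = some g → g.WF n j

/-- The list of the values of the gates. -/
def vals (C : Circuit) (x : List Bool) : List Bool := C.foldl (fun v g => v ++ [g.val x v]) []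

/-- The list of the depths of the gates. -/
def deps (C : Circuit) : List ℕ := C.foldl (fun d g => d ++ [g.dep d]) []

/-- The output of the circuit, the value of its last gate. -/
def eval (C : Circuit) (x : List Bool) : Bool := (C.vals x).getLastD false

/-- The depth of the circuit is at most `d`. -/
def DepthLE (C : Circuit) (d : ℕ) : Prop := ∀ e ∈ C.deps, e ≤ d

end Circuit

/-! ### Descriptions of circuits -/

/-- The letters used for describing circuits. -/
inductive Sym
  | inp | tt | ff | not | and | or | one | stop
  deriving DecidableEq

/-- A number in unary, followed by a stop. -/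
def unary (a : ℕ) : List Sym := List.replicate a Sym.one ++ [Sym.stop]

/-- The description of a gate: its type and the numbers it refers to. -/
def Gate.code : Gate → List Sym
  | .inp i => Sym.inp :: unary i
  | .cst true => [Sym.tt]
  | .cst false => [Sym.ff]
  | .not a => Sym.not :: unary a
  | .and a b => Sym.and :: (unary a ++ unary b)
  | .or a b => Sym.or :: (unary a ++ unary b)

/-- The description of a circuit: the descriptions of its gates in their order. -/
def Circuit.code (C : Circuit) : List Sym := C.flatMap Gate.code

/-! ### Logspace transducers -/

/-- The statement does not push on stack `k`. -/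
def NoPush {K : Type} [DecidableEq K] {Γ : K → Type} {Λ σ : Type} (k : K) :
    TM2.Stmt Γ Λ σ → Prop
  | .push k' _ q => k' ≠ k ∧ NoPush k q
  | .peek _ _ q => NoPush k q
  | .pop _ _ q => NoPush k q
  | .load _ q => NoPush k q
  | .branch _ q₁ q₂ => NoPush k q₁ ∧ NoPush k q₂
  | .goto _ => True
  | .halt => True

/-- The statement does not look at stack `k` (neither peeks nor pops). -/
def NoRead {K : Type} [DecidableEq K] {Γ : K → Type} {Λ σ : Type} (k : K) :
    TM2.Stmt Γ Λ σ → Prop
  | .push _ _ q => NoRead k q
  | .peek k' _ q => k' ≠ k ∧ NoRead k q
  | .pop k' _ q => k' ≠ k ∧ NoRead k q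
  | .load _ q => NoRead k q
  | .branch _ q₁ q₂ => NoRead k q₁ ∧ NoRead k q₂
  | .goto _ => True
  | .halt => True

/-- The work space used by a configuration of the machine: the total height of all stacks other than
the input stack and the output stack. -/
def space (tm : FinTM2) (c : tm.Cfg) : ℕ :=
  letI := tm.kDecidableEq
  letI := tm.kFin
  ∑ k ∈ (Finset.univ.erase tm.k₀).erase tm.k₁, (TM2.Cfg.stk c k).length

/-- `N ↦ w N` is printed in logarithmic space: there is a machine (Mathlib's `FinTM2`, with finite
alphabets) with different input and output stacks, which never pushes on its input stack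
(read-only input) and never looks at its output stack (write-only output), such that on the input
`1^N` it uses work space `O(log N)` and halts with the word `w N` on its output stack. -/
def LogspacePrinted (w : ℕ → List Sym) : Prop :=
  ∃ (tm : FinTM2) (a : tm.Γ tm.k₀) (out : tm.Γ tm.k₁ → Sym) (c : ℕ),
    tm.k₀ ≠ tm.k₁ ∧ (∀ k, Finite (tm.Γ k)) ∧
    (letI := tm.kDecidableEq; ∀ l, NoPush tm.k₀ (tm.m l)) ∧
    (letI := tm.kDecidableEq; ∀ l, NoRead tm.k₁ (tm.m l)) ∧
    ∀ N : ℕ,
      (∀ cfg : tm.Cfg, Reaches tm.step (initList tm (List.replicate N a)) cfg →
        space tm cfg ≤ c * (Nat.log 2 N + 1)) ∧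
      ∃ cfg : tm.Cfg, Reaches tm.step (initList tm (List.replicate N a)) cfg ∧
        TM2.Cfg.l cfg = none ∧ (TM2.Cfg.stk cfg tm.k₁).map out = w N

/-- The family `C 0, C 1, …` of circuits is logspace-uniform: the description of `C N` is printed in
logarithmic space on input `1^N`. -/
def LogspaceUniform (C : ℕ → Circuit) : Prop := LogspacePrinted (fun N => (C N).code)

/-- **The class NC**: languages decided by logspace-uniform families of circuits of polynomial size
and polylogarithmic depth. -/
def InNC (L : Set (List Bool)) : Prop :=
  ∃ (C : ℕ → Circuit) (k : ℕ), LogspaceUniform C ∧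
    ∀ N : ℕ, (C N).WF N ∧ (C N).length ≤ N ^ k + k ∧ (C N).DepthLE ((Nat.log 2 N + 1) ^ k + k) ∧
      ∀ x : List Bool, x.length = N → (x ∈ L ↔ (C N).eval x = true)

end Pool.Agent.NC
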