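import Mathlib
import Pool.Agent.PT.UF
import Pool.Agent.NC.Defs

/-!
# Counter programs, node programs, systems of formulas
-/

set_option autoImplicit false

namespace Pool.Agent.NC

open Function (update)
open Pool.Agent.PT

/-! ### Numeric functions and predicates of the input length `N` and an environment -/

/-- Functions of the input length and an environment given by terms. -/
def NF (f : ℕ → (ℕ → ℕ) → ℕ) : Prop := UF (Γ := Unit) fun x e => f x.length e

/-- Predicates of the input length and an environment given by terms. -/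
def NP (P : ℕ → (ℕ → ℕ) → Prop) : Prop := UP (Γ := Unit) fun x e => P x.length e

/-- Value of a term on inputs of length `N`. -/
noncomputable def tev (N : ℕ) (t : Tm Unit) (e : ℕ → ℕ) : ℕ := t.eval (List.replicate N ()) e

/-! ### Structured counter programs -/

/-- Structured counter programs with output letters in `O`. `pop r p₀ p₁`: if counter `r` is zero,
run `p₀`, otherwise decrement it and run `p₁`. `loop r p`: while counter `r` is not zero, decrement
it and run `p`. -/
inductive CP (O : Type) : Type
  | skip : CP O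
  | inc (r : ℕ) : CP O
  | out (a : O) : CP O
  | pop (r : ℕ) (p₀ p₁ : CP O) : CP O
  | seq (p q : CP O) : CP O
  | loop (r : ℕ) (p : CP O) : CP O

/-- `CExec B p s o s' o'`: started with counters `s` and output `o` (last letter first), the program
`p` terminates with counters `s'` and output `o'`, and no counter is incremented beyond `B`. -/
inductive CExec {O : Type} (B : ℕ) :
    CP O → (ℕ → ℕ) → List O → (ℕ → ℕ) → List O → Prop
  | skip (s : ℕ → ℕ) (o : List O) : CExec B CP.skip s o s o
  | inc (r : ℕ) (s : ℕ → ℕ) (o : List O) (h : s r < B) :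
      CExec B (CP.inc r) s o (update s r (s r + 1)) o
  | out (a : O) (s : ℕ → ℕ) (o : List O) : CExec B (CP.out a) s o s (a :: o)
  | popZero {r : ℕ} {p₀ p₁ : CP O} {s s' : ℕ → ℕ} {o o' : List O} (h : s r = 0)
      (he : CExec B p₀ s o s' o') : CExec B (CP.pop r p₀ p₁) s o s' o'
  | popSucc {r n : ℕ} {p₀ p₁ : CP O} {s s' : ℕ → ℕ} {o o' : List O} (h : s r = n + 1)
      (he : CExec B p₁ (update s r n) o s' o') : CExec B (CP.pop r p₀ p₁) s o s' o'
  | seq {p q : CP O} {s s' s'' : ℕ → ℕ} {o o' o'' : List O} (h : CExec B p s o s' o')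
      (h' : CExec B q s' o' s'' o'') : CExec B (CP.seq p q) s o s'' o''
  | loopZero {r : ℕ} {p : CP O} {s : ℕ → ℕ} {o : List O} (h : s r = 0) :
      CExec B (CP.loop r p) s o s o
  | loopSucc {r n : ℕ} {p : CP O} {s s' s'' : ℕ → ℕ} {o o' o'' : List O} (h : s r = n + 1)
      (h1 : CExec B p (update s r n) o s' o') (h2 : CExec B (CP.loop r p) s' o' s'' o'') :
      CExec B (CP.loop r p) s o s'' o''

/-! ### Circuits given by numeric functions -/

/-- The gate with operation code `o` and arguments `a`, `b`. -/
def mkGate (o a b : ℕ) : Gate :=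
  match o with
  | 0 => .cst false
  | 1 => .cst true
  | 2 => .inp a
  | 3 => .not a
  | 4 => .and a b
  | _ => .or a b

/-- The circuit with `S` gates given by functions. -/
def mkCircuit (S : ℕ) (op a b : ℕ → ℕ) : Circuit :=
  (List.range S).map fun i => mkGate (op i) (a i) (b i)

/-! ### Node programs -/

/-- Nodes. A child is given by its number and terms for the new registers. -/
inductive Node : Type
  | cst (P : Tm Unit)
  | inp (t : Tm Unit)
  | not (q : ℕ) (ts : ℕ → Tm Unit)
  | and (q : ℕ) (ts : ℕ → Tm Unit) (q' : ℕ) (ts' : ℕ → Tm Unit)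
  | or (q : ℕ) (ts : ℕ → Tm Unit) (q' : ℕ) (ts' : ℕ → Tm Unit)
  | ite (P : Tm Unit) (q : ℕ) (ts : ℕ → Tm Unit) (q' : ℕ) (ts' : ℕ → Tm Unit)

/-- Truncation of an environment: only the entries below `w` are kept, and they are cut at `B`. -/
def clamp (w B : ℕ) (e : ℕ → ℕ) : ℕ → ℕ := fun j => if j < w then min (e j) B else 0

/-- New registers. -/
noncomputable def regs (N w B : ℕ) (ts : ℕ → Tm Unit) (e : ℕ → ℕ) : ℕ → ℕ :=
  clamp w B fun j => tev N (ts j) e

/-- Values of nodes: `nval prog w B x t q e` is the value of node `q` with registers `e` and fuel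
`t`. -/
noncomputable def nval (prog : List Node) (w B : ℕ) (x : List Bool) : ℕ → ℕ → (ℕ → ℕ) → Bool
  | 0, _, _ => false
  | t + 1, q, e =>
    match prog.getD q (.cst (.const 0)) with
    | .cst P => decide (tev x.length P e ≠ 0)
    | .inp a => x.getD (tev x.length a e) false
    | .not q ts => !(nval prog w B x t q (regs x.length w B ts e))
    | .and q ts q' ts' => nval prog w B x t q (regs x.length w B ts e) &&
        nval prog w B x t q' (regs x.length w B ts' e)
    | .or q ts q' ts' => nval prog w B x t q (regs x.length w B ts e) ||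
        nval prog w B x t q' (regs x.length w B ts' e)
    | .ite P q ts q' ts' => if tev x.length P e ≠ 0 then nval prog w B x t q (regs x.length w B ts e)
        else nval prog w B x t q' (regs x.length w B ts' e)

/-! ### Systems of formulas -/

/-- First-order formulas with a parity quantifier. -/
inductive Fm : Type
  | tst (P : Tm Unit)
  | inp (t : Tm Unit)
  | rel (i : ℕ) (ts : ℕ → Tm Unit)
  | not (φ : Fm)
  | and (φ ψ : Fm)
  | ex (b : Tm Unit) (φ : Fm)
  | par (b : Tm Unit) (φ : Fm)

/-- Interpretations of the relation symbols. -/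
abbrev Itp : Type := ℕ → (ℕ → ℕ) → Prop

open Classical in
/-- Truth of formulas. -/
def Fm.Sat (x : List Bool) (F : Itp) : Fm → (ℕ → ℕ) → Prop
  | .tst P, e => tev x.length P e ≠ 0
  | .inp t, e => x.getD (tev x.length t e) false = true
  | .rel i ts, e => F i fun j => tev x.length (ts j) e
  | .not φ, e => ¬ φ.Sat x F e
  | .and φ ψ, e => φ.Sat x F e ∧ ψ.Sat x F e
  | .ex b φ, e => ∃ v, v < tev x.length b e ∧ φ.Sat x F (cons v e)
  | .par b φ, e => Odd ((Finset.range (tev x.length b e)).filter fun v => φ.Sat x F (cons v e)).card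

/-- Functionals definable by formulas. -/
def FOD (Φ : List Bool → Itp → (ℕ → ℕ) → Prop) : Prop :=
  ∃ φ : Fm, ∀ x F e, φ.Sat x F e ↔ Φ x F e

/-- The stages of the simultaneous recursion given by functionals. -/
def stage (Φ : ℕ → List Bool → Itp → (ℕ → ℕ) → Prop) (w B : ℕ) (x : List Bool) : ℕ → Itp
  | 0 => fun _ _ => False
  | t + 1 => fun i e => Φ i x (fun j e' => stage Φ w B x t j (clamp w B e')) e

/-- At most polylogarithmic. -/
def PolyLog (T : ℕ → ℕ) : Prop := ∃ k, ∀ N, T N ≤ (Nat.log 2 N + 1) ^ k + k

end Pool.Agent.NC
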