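import Mathlib
import Pool.Agent.NC.Lang

/-!
# Logarithms; closure properties of the class of functionals definable by formulas
-/

set_option autoImplicit false

namespace Pool.Agent.NC

open Pool.Agent.PT

/-! ### Terms -/

theorem replicate_length_unit (x : List Unit) : List.replicate x.length () = x :=
  (List.eq_replicate_of_mem (fun _ _ => rfl)).symm

theorem tev_length (t : Tm Unit) (x : List Unit) (e : ℕ → ℕ) : tev x.length t e = t.eval x e := by
  rw [tev, replicate_length_unit]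

theorem NF.of_tm (t : Tm Unit) : NF fun N e => tev N t e :=
  ⟨t, fun x e => (tev_length t x e).symm⟩

theorem NF.exists_tm {f : ℕ → (ℕ → ℕ) → ℕ} (hf : NF f) :
    ∃ t : Tm Unit, ∀ N e, tev N t e = f N e := by
  obtain ⟨t, ht⟩ := hf
  refine ⟨t, fun N e => ?_⟩
  rw [tev, ht]
  simp only [List.length_replicate]

theorem NP.exists_tm {P : ℕ → (ℕ → ℕ) → Prop} (hP : NP P) :
    ∃ t : Tm Unit, ∀ N e, tev N t e ≠ 0 ↔ P N e := by
  obtain ⟨t, ht⟩ := hP
  refine ⟨t, fun N e => ?_⟩
  rw [tev, ht]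
  simp only [List.length_replicate]
  by_cases h : P N e <;> simp [h]

/-- Substitution. -/
theorem NF.subst {f : ℕ → (ℕ → ℕ) → ℕ} (hf : NF f) (G : ℕ → ℕ → (ℕ → ℕ) → ℕ)
    (hG : ∀ i, NF (G i)) : NF fun N e => f N fun i => G i N e :=
  UF.subst hf (fun i x e => G i x.length e) hG

/-! ### Logarithms -/

theorem pow_two_iff {p : ℕ} (hp : 2 ≤ p) :
    (∀ d, d < p + 1 → p % d = 0 → d = 1 ∨ d % 2 = 0) ↔ ∃ k, p = 2 ^ (k + 1) := by
  constructor
  · intro h
    rcases Nat.eq_two_pow_or_exists_odd_prime_and_dvd p with ⟨k, hk⟩ | ⟨q, hq, hqp, hodd⟩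
    · cases k with
      | zero => omega
      | succ k => exact ⟨k, hk⟩
    · have h1 := Nat.le_of_dvd (by omega) hqp
      rcases h q (by omega) (Nat.mod_eq_zero_of_dvd hqp) with h2 | h2
      · exact absurd h2 hq.one_lt.ne'
      · exact absurd (Nat.even_iff.2 h2) (Nat.not_even_iff_odd.2 hodd)
  · rintro ⟨k, rfl⟩ d _ hd
    obtain ⟨j, _, rfl⟩ := (Nat.dvd_prime_pow Nat.prime_two).1 (Nat.dvd_of_mod_eq_zero hd)
    cases j with
    | zero => left; rfl
    | succ j =>
      right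
      rw [pow_succ]
      exact Nat.mul_mod_left _ _

theorem log_eq_card (m : ℕ) : Nat.log 2 m = ((Finset.range (m + 1)).filter fun p =>
    2 ≤ p ∧ ∀ d, d < p + 1 → p % d = 0 → d = 1 ∨ d % 2 = 0).card := by
  have : (Finset.range (m + 1)).filter (fun p =>
      2 ≤ p ∧ ∀ d, d < p + 1 → p % d = 0 → d = 1 ∨ d % 2 = 0) =
      (Finset.range (Nat.log 2 m)).image fun k => 2 ^ (k + 1) := by
    ext p
    simp only [Finset.mem_filter, Finset.mem_range, Finset.mem_image]
    constructor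
    · rintro ⟨h1, h2, h3⟩
      obtain ⟨k, rfl⟩ := (pow_two_iff h2).1 h3
      refine ⟨k, ?_, rfl⟩
      have hm : m ≠ 0 := by
        rintro rfl
        omega
      exact Nat.lt_of_succ_le ((Nat.le_log_iff_pow_le (by norm_num) hm).2 (by omega))
    · rintro ⟨k, hk, rfl⟩
      have h2 : 2 ≤ 2 ^ (k + 1) := by
        have := Nat.one_le_two_pow (n := k)
        rw [pow_succ]
        omega
      have hm : m ≠ 0 := by
        rintro rfl
        simp at hk
      have := (Nat.le_log_iff_pow_le (by norm_num) hm).1 (Nat.succ_le_of_lt hk)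
      exact ⟨by rw [Nat.succ_eq_add_one] at this; omega, h2, (pow_two_iff h2).2 ⟨k, rfl⟩⟩
  rw [this, Finset.card_image_of_injective _ (fun a b hab => by
    have := Nat.pow_right_injective (le_refl 2) hab
    simpa using this), Finset.card_range]

theorem NF.log {f : ℕ → (ℕ → ℕ) → ℕ} (hf : NF f) : NF fun N e => Nat.log 2 (f N e) := by
  classical
  have h1 : UP (Γ := Unit) fun x e => 2 ≤ e 0 ∧
      ∀ d, d < e 0 + 1 → e 0 % d = 0 → d = 1 ∨ d % 2 = 0 :=
    (UP.le (UF.const 2) (UF.var 0)).and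
      (UP.ball (P := fun x e d => e 0 % d = 0 → d = 1 ∨ d % 2 = 0)
        ((UF.var 0).add (UF.const 1))
        ((UP.eq ((UF.var 1).mod (UF.var 0)) (UF.const 0)).imp
          ((UP.eq (UF.var 0) (UF.const 1)).or
            (UP.eq ((UF.var 0).mod (UF.const 2)) (UF.const 0)))))
  refine (UF.sum (b := fun x e => f x.length e + 1) (f := fun x e p =>
    if 2 ≤ p ∧ ∀ d, d < p + 1 → p % d = 0 → d = 1 ∨ d % 2 = 0 then 1 else 0)
    (UF.add hf (UF.const 1)) (UF.congr h1 fun x e => by congr)).congr fun x e => ?_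
  simp only [Finset.sum_boole, log_eq_card, Nat.cast_id]

/-! ### Functionals definable by formulas -/

theorem FOD.congr {Φ Ψ : List Bool → Itp → (ℕ → ℕ) → Prop} (h : FOD Φ)
    (e : ∀ x F e, Φ x F e ↔ Ψ x F e) : FOD Ψ := by
  obtain ⟨φ, hφ⟩ := h
  exact ⟨φ, fun x F e' => (hφ x F e').trans (e x F e')⟩

theorem FOD.tst {P : ℕ → (ℕ → ℕ) → Prop} (h : NP P) : FOD fun x _ e => P x.length e := by
  obtain ⟨t, ht⟩ := h.exists_tm
  exact ⟨.tst t, fun x F e => ht x.length e⟩

theorem FOD.inp {t : ℕ → (ℕ → ℕ) → ℕ} (h : NF t) :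
    FOD fun x _ e => x.getD (t x.length e) false = true := by
  obtain ⟨t', ht⟩ := h.exists_tm
  exact ⟨.inp t', fun x F e => by rw [Fm.Sat, ht]⟩

theorem FOD.const (p : Prop) : FOD fun _ _ _ => p := FOD.tst (P := fun _ _ => p) (UP.const p)

theorem FOD.rel (i : ℕ) {ts : ℕ → ℕ → (ℕ → ℕ) → ℕ} (h : ∀ j, NF (ts j)) :
    FOD fun x F e => F i fun j => ts j x.length e := by
  choose t ht using fun j => (h j).exists_tm
  exact ⟨.rel i t, fun x F e => by simp only [Fm.Sat, ht]⟩

theorem FOD.not {Φ : List Bool → Itp → (ℕ → ℕ) → Prop} (h : FOD Φ) :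
    FOD fun x F e => ¬ Φ x F e := by
  obtain ⟨φ, hφ⟩ := h
  exact ⟨.not φ, fun x F e => not_congr (hφ x F e)⟩

theorem FOD.and {Φ Ψ : List Bool → Itp → (ℕ → ℕ) → Prop} (h : FOD Φ) (h' : FOD Ψ) :
    FOD fun x F e => Φ x F e ∧ Ψ x F e := by
  obtain ⟨φ, hφ⟩ := h
  obtain ⟨ψ, hψ⟩ := h'
  exact ⟨.and φ ψ, fun x F e => and_congr (hφ x F e) (hψ x F e)⟩

theorem FOD.or {Φ Ψ : List Bool → Itp → (ℕ → ℕ) → Prop} (h : FOD Φ) (h' : FOD Ψ) :
    FOD fun x F e => Φ x F e ∨ Ψ x F e :=
  (h.not.and h'.not).not.congr fun x F e => by tauto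

theorem FOD.imp {Φ Ψ : List Bool → Itp → (ℕ → ℕ) → Prop} (h : FOD Φ) (h' : FOD Ψ) :
    FOD fun x F e => Φ x F e → Ψ x F e :=
  (h.not.or h').congr fun x F e => by tauto

theorem FOD.iff {Φ Ψ : List Bool → Itp → (ℕ → ℕ) → Prop} (h : FOD Φ) (h' : FOD Ψ) :
    FOD fun x F e => (Φ x F e ↔ Ψ x F e) :=
  ((h.imp h').and (h'.imp h)).congr fun x F e => by tauto

theorem FOD.ex {b : ℕ → (ℕ → ℕ) → ℕ} {Φ : List Bool → Itp → (ℕ → ℕ) → ℕ → Prop} (hb : NF b)
    (h : FOD fun x F e => Φ x F (fun i => e (i + 1)) (e 0)) :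
    FOD fun x F e => ∃ v, v < b x.length e ∧ Φ x F e v := by
  obtain ⟨t, ht⟩ := hb.exists_tm
  obtain ⟨φ, hφ⟩ := h
  refine ⟨.ex t φ, fun x F e => ?_⟩
  rw [Fm.Sat, ht]
  exact exists_congr fun v => and_congr Iff.rfl (hφ x F (cons v e))

theorem FOD.all {b : ℕ → (ℕ → ℕ) → ℕ} {Φ : List Bool → Itp → (ℕ → ℕ) → ℕ → Prop} (hb : NF b)
    (h : FOD fun x F e => Φ x F (fun i => e (i + 1)) (e 0)) :
    FOD fun x F e => ∀ v, v < b x.length e → Φ x F e v := by
  refine (FOD.ex (Φ := fun x F e v => ¬ Φ x F e v) hb h.not).not.congr fun x F e => ?_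
  push Not
  rfl

open Classical in
theorem FOD.par {b : ℕ → (ℕ → ℕ) → ℕ} {Φ : List Bool → Itp → (ℕ → ℕ) → ℕ → Prop} (hb : NF b)
    (h : FOD fun x F e => Φ x F (fun i => e (i + 1)) (e 0)) :
    FOD fun x F e => Odd ((Finset.range (b x.length e)).filter fun v => Φ x F e v).card := by
  obtain ⟨t, ht⟩ := hb.exists_tm
  obtain ⟨φ, hφ⟩ := h
  refine ⟨.par t φ, fun x F e => ?_⟩
  rw [Fm.Sat, ht]
  have : (Finset.range (b x.length e)).filter (fun v => φ.Sat x F (cons v e)) =
      (Finset.range (b x.length e)).filter fun v => Φ x F e v :=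
    Finset.filter_congr fun v _ => hφ x F (cons v e)
  rw [this]

/-- Substitution of numeric functions for the variables of a formula. -/
theorem FOD.subst_fm : ∀ (φ : Fm) (G : ℕ → ℕ → (ℕ → ℕ) → ℕ), (∀ i, NF (G i)) →
    FOD fun x F e => φ.Sat x F fun i => G i x.length e
  | .tst P, G, hG => (FOD.tst (P := fun N e => tev N P (fun i => G i N e) ≠ 0)
      (UP.ne (NF.subst (NF.of_tm P) G hG) (UF.const 0))).congr fun x F e => Iff.rfl
  | .inp t, G, hG => (FOD.inp (NF.subst (NF.of_tm t) G hG)).congr fun x F e => Iff.rfl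
  | .rel i ts, G, hG =>
      (FOD.rel i fun j => NF.subst (NF.of_tm (ts j)) G hG).congr fun x F e => Iff.rfl
  | .not φ, G, hG => (FOD.subst_fm φ G hG).not.congr fun x F e => Iff.rfl
  | .and φ ψ, G, hG =>
      ((FOD.subst_fm φ G hG).and (FOD.subst_fm ψ G hG)).congr fun x F e => Iff.rfl
  | .ex b φ, G, hG => by
    have h := FOD.subst_fm φ (fun i N e => Nat.casesOn i (e 0) fun j => G j N fun k => e (k + 1))
      (fun i => by
        cases i with
        | zero => exact UF.var 0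
        | succ j => exact UF.ren (fun k => k + 1) (hG j))
    refine (FOD.ex (Φ := fun x F e v => φ.Sat x F (cons v fun i => G i x.length e))
      (NF.subst (NF.of_tm b) G hG) (h.congr fun x F e => ?_)).congr fun x F e => Iff.rfl
    have : (fun i => Nat.casesOn i (e 0) fun j => G j x.length fun k => e (k + 1) : ℕ → ℕ) =
        cons (e 0) fun i => G i x.length fun k => e (k + 1) := by
      funext i
      cases i <;> rfl
    rw [this]
  | .par b φ, G, hG => by
    have h := FOD.subst_fm φ (fun i N e => Nat.casesOn i (e 0) fun j => G j N fun k => e (k + 1))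
      (fun i => by
        cases i with
        | zero => exact UF.var 0
        | succ j => exact UF.ren (fun k => k + 1) (hG j))
    refine (FOD.par (Φ := fun x F e v => φ.Sat x F (cons v fun i => G i x.length e))
      (NF.subst (NF.of_tm b) G hG) (h.congr fun x F e => ?_)).congr fun x F e => Iff.rfl
    have : (fun i => Nat.casesOn i (e 0) fun j => G j x.length fun k => e (k + 1) : ℕ → ℕ) =
        cons (e 0) fun i => G i x.length fun k => e (k + 1) := by
      funext i
      cases i <;> rfl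
    rw [this]

/-- Substitution of numeric functions for the variables. -/
theorem FOD.subst {Φ : List Bool → Itp → (ℕ → ℕ) → Prop} (h : FOD Φ)
    (G : ℕ → ℕ → (ℕ → ℕ) → ℕ) (hG : ∀ i, NF (G i)) :
    FOD fun x F e => Φ x F fun i => G i x.length e := by
  obtain ⟨φ, hφ⟩ := h
  exact (FOD.subst_fm φ G hG).congr fun x F e => hφ x F _

end Pool.Agent.NC
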