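import Mathlib
import Pool.Agent.NC.Closure

/-!
# Formulas as functionals: lemmas in a form suited for unification
-/

set_option autoImplicit false

namespace Pool.Agent.NC

open Pool.Agent.PT

/-! ### Numeric functions -/

theorem NF.var (i : ℕ) : NF fun _ e => e i := UF.var i

theorem NF.const (c : ℕ) : NF fun _ _ => c := UF.const c

theorem NF.len : NF fun N _ => N := UF.len

theorem NF.add {f g : ℕ → (ℕ → ℕ) → ℕ} (hf : NF f) (hg : NF g) : NF fun N e => f N e + g N e :=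
  UF.add hf hg

theorem NF.sub {f g : ℕ → (ℕ → ℕ) → ℕ} (hf : NF f) (hg : NF g) : NF fun N e => f N e - g N e :=
  UF.sub hf hg

theorem NF.mul {f g : ℕ → (ℕ → ℕ) → ℕ} (hf : NF f) (hg : NF g) : NF fun N e => f N e * g N e :=
  UF.mul hf hg

theorem NF.div {f g : ℕ → (ℕ → ℕ) → ℕ} (hf : NF f) (hg : NF g) : NF fun N e => f N e / g N e :=
  UF.div hf hg

theorem NF.mod {f g : ℕ → (ℕ → ℕ) → ℕ} (hf : NF f) (hg : NF g) : NF fun N e => f N e % g N e :=
  UF.mod hf hg

theorem NF.ren (σ : ℕ → ℕ) {f : ℕ → (ℕ → ℕ) → ℕ} (hf : NF f) : NF fun N e => f N fun i => e (σ i) :=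
  UF.ren σ hf

theorem NF.congr {f g : ℕ → (ℕ → ℕ) → ℕ} (hf : NF f) (h : ∀ N e, f N e = g N e) : NF g :=
  UF.congr hf fun x e => h x.length e

theorem sqrt_eq_sum (m : ℕ) :
    Nat.sqrt m = ∑ i ∈ Finset.range m, if (i + 1) * (i + 1) ≤ m then 1 else 0 := by
  rw [Finset.sum_boole]
  have : (Finset.range m).filter (fun i => (i + 1) * (i + 1) ≤ m) = Finset.range (Nat.sqrt m) := by
    ext i
    simp only [Finset.mem_filter, Finset.mem_range, ← Nat.le_sqrt]
    constructor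
    · rintro ⟨_, h⟩; omega
    · intro h
      have := Nat.sqrt_le_self m
      omega
  rw [this, Finset.card_range, Nat.cast_id]

theorem NF.sqrt {f : ℕ → (ℕ → ℕ) → ℕ} (hf : NF f) : NF fun N e => Nat.sqrt (f N e) := by
  classical
  refine (UF.sum (b := fun x e => f x.length e) (f := fun x e i =>
    if (i + 1) * (i + 1) ≤ f x.length e then 1 else 0) hf ?_).congr fun x e => ?_
  · have h : UP (Γ := Unit) fun x e => (e 0 + 1) * (e 0 + 1) ≤ f x.length fun i => e (i + 1) :=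
      UP.le (((UF.var 0).add (UF.const 1)).mul ((UF.var 0).add (UF.const 1)))
        (UF.ren (fun i => i + 1) hf)
    exact UF.congr h fun x e => by congr
  · exact (sqrt_eq_sum _).symm

/-! ### Predicates -/

theorem NP.le {f g : ℕ → (ℕ → ℕ) → ℕ} (hf : NF f) (hg : NF g) : NP fun N e => f N e ≤ g N e :=
  UP.le hf hg

theorem NP.lt {f g : ℕ → (ℕ → ℕ) → ℕ} (hf : NF f) (hg : NF g) : NP fun N e => f N e < g N e :=
  UP.lt hf hg

theorem NP.eq {f g : ℕ → (ℕ → ℕ) → ℕ} (hf : NF f) (hg : NF g) : NP fun N e => f N e = g N e :=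
  UP.eq hf hg

/-! ### Lists of numeric functions -/

/-- Environment with given first entries. -/
def vec (l : List ℕ) : ℕ → ℕ := fun j => l.getD j 0

/-- Lists of numeric functions. -/
def NL (l : ℕ → (ℕ → ℕ) → List ℕ) : Prop := ∀ j, NF fun N e => (l N e).getD j 0

theorem NL.nil : NL fun _ _ => [] := fun _ => NF.const 0

theorem NL.cons {f : ℕ → (ℕ → ℕ) → ℕ} {l : ℕ → (ℕ → ℕ) → List ℕ} (hf : NF f) (hl : NL l) :
    NL fun N e => f N e :: l N e := by
  intro j
  cases j with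
  | zero => exact hf
  | succ j => exact hl j

/-! ### Functionals -/

/-- Functionals definable by formulas. -/
def FO (Φ : ℕ → List Bool → Itp → (ℕ → ℕ) → Prop) : Prop := FOD fun x F e => Φ x.length x F e

theorem FO.tst {P : ℕ → (ℕ → ℕ) → Prop} (h : NP P) : FO fun N _ _ e => P N e := FOD.tst h

theorem FO.le {f g : ℕ → (ℕ → ℕ) → ℕ} (hf : NF f) (hg : NF g) : FO fun N _ _ e => f N e ≤ g N e :=
  FO.tst (NP.le hf hg)

theorem FO.lt {f g : ℕ → (ℕ → ℕ) → ℕ} (hf : NF f) (hg : NF g) : FO fun N _ _ e => f N e < g N e :=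
  FO.tst (NP.lt hf hg)

theorem FO.eq {f g : ℕ → (ℕ → ℕ) → ℕ} (hf : NF f) (hg : NF g) : FO fun N _ _ e => f N e = g N e :=
  FO.tst (NP.eq hf hg)

theorem FO.inp {t : ℕ → (ℕ → ℕ) → ℕ} (h : NF t) :
    FO fun N x _ e => x.getD (t N e) false = true := FOD.inp h

theorem FO.const (p : Prop) : FO fun _ _ _ _ => p := FOD.const p

theorem FO.rel (i : ℕ) {l : ℕ → (ℕ → ℕ) → List ℕ} (h : NL l) :
    FO fun N _ F e => F i (vec (l N e)) := FOD.rel i h

variable {Φ Ψ : ℕ → List Bool → Itp → (ℕ → ℕ) → Prop}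

theorem FO.not (h : FO Φ) : FO fun N x F e => ¬ Φ N x F e := FOD.not h

theorem FO.and (h : FO Φ) (h' : FO Ψ) : FO fun N x F e => Φ N x F e ∧ Ψ N x F e := FOD.and h h'

theorem FO.or (h : FO Φ) (h' : FO Ψ) : FO fun N x F e => Φ N x F e ∨ Ψ N x F e := FOD.or h h'

theorem FO.imp (h : FO Φ) (h' : FO Ψ) : FO fun N x F e => Φ N x F e → Ψ N x F e := FOD.imp h h'

theorem FO.iff (h : FO Φ) (h' : FO Ψ) : FO fun N x F e => (Φ N x F e ↔ Ψ N x F e) := FOD.iff h h'

theorem FO.ex {b : ℕ → (ℕ → ℕ) → ℕ} {Φ : ℕ → List Bool → Itp → (ℕ → ℕ) → ℕ → Prop} (hb : NF b)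
    (h : FO fun N x F e => Φ N x F (fun i => e (i + 1)) (e 0)) :
    FO fun N x F e => ∃ v, v < b N e ∧ Φ N x F e v :=
  FOD.ex (Φ := fun x F e v => Φ x.length x F e v) hb h

theorem FO.all {b : ℕ → (ℕ → ℕ) → ℕ} {Φ : ℕ → List Bool → Itp → (ℕ → ℕ) → ℕ → Prop} (hb : NF b)
    (h : FO fun N x F e => Φ N x F (fun i => e (i + 1)) (e 0)) :
    FO fun N x F e => ∀ v, v < b N e → Φ N x F e v :=
  FOD.all (Φ := fun x F e v => Φ x.length x F e v) hb h

open Classical in
/-- Parity quantifier. -/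
def Par (b : ℕ) (P : ℕ → Prop) : Prop := Odd ((Finset.range b).filter fun v => P v).card

theorem FO.par {b : ℕ → (ℕ → ℕ) → ℕ} {Φ : ℕ → List Bool → Itp → (ℕ → ℕ) → ℕ → Prop} (hb : NF b)
    (h : FO fun N x F e => Φ N x F (fun i => e (i + 1)) (e 0)) :
    FO fun N x F e => Par (b N e) fun v => Φ N x F e v :=
  FOD.par (Φ := fun x F e v => Φ x.length x F e v) hb h

theorem FO.subst (h : FO Φ) (G : ℕ → ℕ → (ℕ → ℕ) → ℕ) (hG : ∀ i, NF (G i)) :
    FO fun N x F e => Φ N x F fun i => G i N e := FOD.subst h G hG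

/-- Substitution of a list of numeric functions. -/
theorem FO.app (h : FO Φ) {l : ℕ → (ℕ → ℕ) → List ℕ} (hl : NL l) :
    FO fun N x F e => Φ N x F (vec (l N e)) := FO.subst h (fun j N e => (l N e).getD j 0) hl

/-! ### Stages -/

theorem clamp_vec {w B : ℕ} {l : List ℕ} (hl : l.length ≤ w) (hB : ∀ a ∈ l, a ≤ B) :
    clamp w B (vec l) = vec l := by
  funext j
  unfold clamp vec
  by_cases hj : j < l.length
  · rw [if_pos (by omega), List.getD_eq_getElem _ _ hj, min_eq_left (hB _ (List.getElem_mem hj))]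
  · rw [List.getD_eq_default _ _ (by omega)]
    simp

end Pool.Agent.NC
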