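import Mathlib
import Pool.Agent.NC.Lang

/-!
# Compilation of counter programs to logspace machines

Counters are held in binary (least significant bit on top of the stack); there is one scratch stack.
-/

set_option autoImplicit false
set_option backward.isDefEq.respectTransparency false

namespace Pool.Agent.NC

open Turing StateTransition
open Function (update)

namespace Mach

/-! ### Paths with an invariant -/

/-- A run of the function `f` from `a` to `b`, all of whose configurations satisfy `I`. -/
inductive Path {σ : Type*} (f : σ → Option σ) (I : σ → Prop) : σ → σ → Prop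
  | refl (a : σ) (h : I a) : Path f I a a
  | head (a b c : σ) (h : I a) (hf : f a = some b) (hp : Path f I b c) : Path f I a c

theorem Path.trans {σ : Type*} {f : σ → Option σ} {I : σ → Prop} {a b c : σ}
    (h1 : Path f I a b) (h2 : Path f I b c) : Path f I a c := by
  induction h1 with
  | refl a h => exact h2
  | head a b c h hf hp ih => exact Path.head _ _ _ h hf (ih h2)

theorem Path.inv {σ : Type*} {f : σ → Option σ} {I : σ → Prop} {a b : σ}
    (h : Path f I a b) (hb : f b = none) : ∀ c, Reaches f a c → I c := by
  induction h with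
  | refl a h =>
    intro c hc
    rcases Relation.ReflTransGen.cases_head hc with rfl | ⟨d, hd, _⟩
    · exact h
    · rw [hb] at hd
      cases hd
  | head a b' b h hf hp ih =>
    intro c hc
    rcases Relation.ReflTransGen.cases_head hc with rfl | ⟨d, hd, hdc⟩
    · exact h
    · rw [hf] at hd
      cases hd
      exact ih hb c hdc

theorem Path.reaches {σ : Type*} {f : σ → Option σ} {I : σ → Prop} {a b : σ}
    (h : Path f I a b) : Reaches f a b := by
  induction h with
  | refl a h => exact Relation.ReflTransGen.refl
  | head a b c h hf hp ih => exact Relation.ReflTransGen.head hf ih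

/-! ### Binary counters -/

/-- Adding one. -/
def incL : List Bool → List Bool
  | [] => [true]
  | false :: l => true :: l
  | true :: l => false :: incL l

/-- Subtracting one. -/
def decL : List Bool → List Bool
  | [] => []
  | true :: l => if l.isEmpty then [] else false :: l
  | false :: l => true :: decL l

theorem incL_bits (n : ℕ) : incL n.bits = (n + 1).bits := by
  induction n using Nat.strong_induction_on with
  | _ n ih =>
    rcases Nat.even_or_odd' n with ⟨m, rfl | rfl⟩
    · by_cases hm : m = 0
      · subst hm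
        rfl
      · rw [Nat.bit0_bits m hm, Nat.bit1_bits]
        rfl
    · rw [Nat.bit1_bits, incL, ih m (by omega)]
      have : 2 * m + 1 + 1 = 2 * (m + 1) := by ring
      rw [this, Nat.bit0_bits (m + 1) (by omega)]

theorem bits_eq_nil {n : ℕ} : n.bits = [] ↔ n = 0 := by
  constructor
  · intro h
    have h1 := Nat.size_eq_bits_len n
    rw [h, List.length_nil] at h1
    exact Nat.size_eq_zero.1 h1.symm
  · rintro rfl
    rfl

theorem decL_bits (n : ℕ) : decL (n + 1).bits = n.bits := by
  induction n using Nat.strong_induction_on with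
  | _ n ih =>
    rcases Nat.even_or_odd' n with ⟨m, rfl | rfl⟩
    · rw [Nat.bit1_bits, decL]
      by_cases hm : m = 0
      · subst hm
        rfl
      · have h1 : m.bits ≠ [] := fun h => hm (bits_eq_nil.1 h)
        rw [Nat.bit0_bits m hm, if_neg (by simpa using h1)]
    · have : 2 * m + 1 + 1 = 2 * (m + 1) := by ring
      rw [this, Nat.bit0_bits (m + 1) (by omega), decL, ih m (by omega), Nat.bit1_bits]

theorem length_le_incL (l : List Bool) : l.length ≤ (incL l).length := by
  induction l with
  | nil => simp
  | cons b l ih =>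
    cases b
    · simp [incL]
    · simp only [incL, List.length_cons]
      omega

theorem decL_length_le (l : List Bool) : (decL l).length ≤ l.length := by
  induction l with
  | nil => simp [decL]
  | cons b l ih =>
    cases b
    · simp only [decL, List.length_cons]
      omega
    · rw [decL]
      split_ifs
      · simp
      · simp

/-! ### The machine -/

variable {O : Type}

/-- All counters of a program are below `n`. -/
def CBdd : CP O → ℕ → Prop
  | .skip, _ => True
  | .inc r, n => r < n
  | .out _, _ => True
  | .pop r p₀ p₁, n => r < n ∧ CBdd p₀ n ∧ CBdd p₁ n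
  | .seq p q, n => CBdd p n ∧ CBdd q n
  | .loop r p, n => r < n ∧ CBdd p n

theorem CBdd.mono : ∀ {p : CP O} {m n : ℕ}, m ≤ n → CBdd p m → CBdd p n
  | .skip, _, _, _, _ => trivial
  | .inc _, _, _, h, hb => lt_of_lt_of_le hb h
  | .out _, _, _, _, _ => trivial
  | .pop _ _ _, _, _, h, hb => ⟨lt_of_lt_of_le hb.1 h, CBdd.mono h hb.2.1, CBdd.mono h hb.2.2⟩
  | .seq _ _, _, _, h, hb => ⟨CBdd.mono h hb.1, CBdd.mono h hb.2⟩
  | .loop _ _, _, _, h, hb => ⟨lt_of_lt_of_le hb.1 h, CBdd.mono h hb.2⟩

theorem CBdd.exists : ∀ p : CP O, ∃ n, CBdd p n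
  | .skip => ⟨0, trivial⟩
  | .inc r => ⟨r + 1, Nat.lt_succ_self r⟩
  | .out _ => ⟨0, trivial⟩
  | .pop r p₀ p₁ => by
    obtain ⟨n₀, h₀⟩ := CBdd.exists p₀
    obtain ⟨n₁, h₁⟩ := CBdd.exists p₁
    exact ⟨r + 1 + n₀ + n₁, by omega, CBdd.mono (by omega) h₀, CBdd.mono (by omega) h₁⟩
  | .seq p q => by
    obtain ⟨n₀, h₀⟩ := CBdd.exists p
    obtain ⟨n₁, h₁⟩ := CBdd.exists q
    exact ⟨n₀ + n₁, CBdd.mono (by omega) h₀, CBdd.mono (by omega) h₁⟩
  | .loop r p => by
    obtain ⟨n₀, h₀⟩ := CBdd.exists p
    exact ⟨r + 1 + n₀, by omega, CBdd.mono (by omega) h₀⟩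

/-- Control points of a program. -/
def CLab : CP O → Type
  | .skip => Unit
  | .inc _ => Bool
  | .out _ => Unit
  | .pop _ p₀ p₁ => Option (Option Unit) ⊕ (CLab p₀ ⊕ CLab p₁)
  | .seq p q => CLab p ⊕ CLab q
  | .loop _ p => Option (Option Unit) ⊕ CLab p

/-- There are finitely many control points. -/
@[instance_reducible] noncomputable def CLab.fintype : (p : CP O) → Fintype (CLab p)
  | .skip => inferInstanceAs (Fintype Unit)
  | .inc _ => inferInstanceAs (Fintype Bool)
  | .out _ => inferInstanceAs (Fintype Unit)
  | .pop _ p₀ p₁ =>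
    letI := CLab.fintype p₀
    letI := CLab.fintype p₁
    inferInstanceAs (Fintype (Option (Option Unit) ⊕ (CLab p₀ ⊕ CLab p₁)))
  | .seq p q =>
    letI := CLab.fintype p
    letI := CLab.fintype q
    inferInstanceAs (Fintype (CLab p ⊕ CLab q))
  | .loop _ p =>
    letI := CLab.fintype p
    inferInstanceAs (Fintype (Option (Option Unit) ⊕ CLab p))

/-- The entry point. -/
def centry : (p : CP O) → CLab p
  | .skip => ()
  | .inc _ => false
  | .out _ => ()
  | .pop _ _ _ => Sum.inl none
  | .seq p _ => Sum.inl (centry p)
  | .loop _ _ => Sum.inl none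

section machine

variable (O) (n : ℕ)

/-- Stack names: input, output, scratch, counters. -/
abbrev CK : Type := Option (Option (Option (Fin (n + 1))))

/-- Stack alphabets. -/
def CΓ : CK n → Type
  | none => Unit
  | some none => O
  | some (some _) => Bool

variable {O n}

/-- The name of a counter. -/
def creg (r : ℕ) : Fin (n + 1) := Fin.ofNat (n + 1) r

theorem creg_val {r : ℕ} (h : r < n + 1) : (creg r : Fin (n + 1)).val = r := by
  simp [creg, Nat.mod_eq_of_lt h]

/-- Statements. -/
abbrev CSt (O : Type) (n : ℕ) (Λ : Type) : Type := TM2.Stmt (CΓ O n) Λ (Option Bool)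

/-- Configurations. -/
abbrev CCfg (O : Type) (n : ℕ) (Λ : Type) : Type := TM2.Cfg (CΓ O n) Λ (Option Bool)

/-- Incrementing counter `r`: the code at the two labels `l₀`, `l₁`. -/
def cinc {Λ : Type} (r : ℕ) (l₀ l₁ ex : Λ) : Bool → CSt O n Λ
  | false => .pop (some (some (some (creg r)))) (fun _ (o : Option Bool) => o)
      (.branch (fun v => v == some true)
        (.push (some (some none)) (fun _ => false) (.goto fun _ => l₀))
        (.push (some (some (some (creg r)))) (fun _ => true) (.goto fun _ => l₁)))
  | true => .pop (some (some none)) (fun _ (o : Option Bool) => o)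
      (.branch (fun v => v.isSome)
        (.push (some (some (some (creg r)))) (fun v => v.getD false) (.goto fun _ => l₁))
        (.goto fun _ => ex))

/-- Testing and decrementing counter `r`: the code at the three labels `l₀`, `l₁`, `l₂`. -/
def cdec {Λ : Type} (r : ℕ) (l₁ l₂ ez es : Λ) : Option (Option Unit) → CSt O n Λ
  | none => .peek (some (some (some (creg r)))) (fun _ (o : Option Bool) => o)
      (.branch (fun v => v.isSome) (.goto fun _ => l₁) (.goto fun _ => ez))
  | some none => .pop (some (some (some (creg r)))) (fun _ (o : Option Bool) => o)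
      (.branch (fun v => v == some false)
        (.push (some (some none)) (fun _ => true) (.goto fun _ => l₁))
        (.branch (fun v => v == some true)
          (.peek (some (some (some (creg r)))) (fun _ (o : Option Bool) => o)
            (.branch (fun v => v.isSome)
              (.push (some (some (some (creg r)))) (fun _ => false) (.goto fun _ => l₂))
              (.goto fun _ => l₂)))
          (.goto fun _ => l₂)))
  | some (some _) => .pop (some (some none)) (fun _ (o : Option Bool) => o)
      (.branch (fun v => v.isSome)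
        (.push (some (some (some (creg r)))) (fun v => v.getD false) (.goto fun _ => l₂))
        (.goto fun _ => es))

/-- Code of a program with control points embedded by `ι` and exit label `ex`. -/
def ccode {Λ : Type} : (p : CP O) → (ι : CLab p → Λ) → (ex : Λ) → CLab p → CSt O n Λ
  | .skip, _, ex, _ => .goto fun _ => ex
  | .inc r, ι, ex, l => cinc r (ι false) (ι true) ex l
  | .out a, _, ex, _ => .push (some none) (fun _ => a) (.goto fun _ => ex)
  | .pop r p₀ p₁, ι, ex, l =>
    match l with
    | Sum.inl l => cdec r (ι (Sum.inl (some none))) (ι (Sum.inl (some (some ()))))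
        (ι (Sum.inr (Sum.inl (centry p₀)))) (ι (Sum.inr (Sum.inr (centry p₁)))) l
    | Sum.inr (Sum.inl l) => ccode p₀ (fun l => ι (Sum.inr (Sum.inl l))) ex l
    | Sum.inr (Sum.inr l) => ccode p₁ (fun l => ι (Sum.inr (Sum.inr l))) ex l
  | .seq p q, ι, ex, l =>
    match l with
    | Sum.inl l => ccode p (fun l => ι (Sum.inl l)) (ι (Sum.inr (centry q))) l
    | Sum.inr l => ccode q (fun l => ι (Sum.inr l)) ex l
  | .loop r p, ι, ex, l =>
    match l with
    | Sum.inl l => cdec r (ι (Sum.inl (some none))) (ι (Sum.inl (some (some ()))))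
        ex (ι (Sum.inr (centry p))) l
    | Sum.inr l => ccode p (fun l => ι (Sum.inr l)) (ι (Sum.inl none)) l

/-- The stacks of the machine. -/
def cstk (S : ℕ → List Bool) (z : List Bool) (x : List Unit) (y : List O) :
    ∀ k : CK n, List (CΓ O n k)
  | none => x
  | some none => y
  | some (some none) => z
  | some (some (some i)) => S i.val

theorem update_cstk (S : ℕ → List Bool) (z : List Bool) (x : List Unit) (y : List O) {r : ℕ}
    (hr : r < n + 1) (l : List Bool) :
    update (cstk S z x y : ∀ k : CK n, List (CΓ O n k)) (some (some (some (creg r)))) l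
      = cstk (update S r l) z x y := by
  funext k
  rcases k with _ | _ | _ | i
  · simp [cstk]
  · simp [cstk]
  · simp [cstk]
  · by_cases h : i = creg r
    · subst h
      simp [cstk, creg_val hr]
    · have h1 : (some (some (some i)) : CK n) ≠ some (some (some (creg r))) := by simpa using h
      have h2 : i.val ≠ r := by
        intro h2
        apply h
        apply Fin.ext
        rw [creg_val hr, h2]
      rw [Function.update_of_ne h1]
      simp [cstk, h2]

theorem update_cstk_in (S : ℕ → List Bool) (z : List Bool) (x x' : List Unit) (y : List O) :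
    update (cstk S z x y : ∀ k : CK n, List (CΓ O n k)) none x' = cstk S z x' y := by
  funext k
  rcases k with _ | _ | _ | i <;> simp [cstk]

theorem update_cstk_out (S : ℕ → List Bool) (z : List Bool) (x : List Unit) (y y' : List O) :
    update (cstk S z x y : ∀ k : CK n, List (CΓ O n k)) (some none) y' = cstk S z x y' := by
  funext k
  rcases k with _ | _ | _ | i <;> simp [cstk]

theorem update_cstk_scr (S : ℕ → List Bool) (z z' : List Bool) (x : List Unit) (y : List O) :
    update (cstk S z x y : ∀ k : CK n, List (CΓ O n k)) (some (some none)) z' =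
      cstk S z' x y := by
  funext k
  rcases k with _ | _ | _ | i <;> simp [cstk]

theorem cstk_reg (S : ℕ → List Bool) (z : List Bool) (x : List Unit) (y : List O) {r : ℕ}
    (hr : r < n + 1) :
    (cstk S z x y : ∀ k : CK n, List (CΓ O n k)) (some (some (some (creg r)))) = S r := by
  simp [cstk, creg_val hr]

theorem cstk_scr (S : ℕ → List Bool) (z : List Bool) (x : List Unit) (y : List O) :
    (cstk S z x y : ∀ k : CK n, List (CΓ O n k)) (some (some none)) = z := rfl

theorem cstk_in (S : ℕ → List Bool) (z : List Bool) (x : List Unit) (y : List O) :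
    (cstk S z x y : ∀ k : CK n, List (CΓ O n k)) none = x := rfl

theorem cstk_out (S : ℕ → List Bool) (z : List Bool) (x : List Unit) (y : List O) :
    (cstk S z x y : ∀ k : CK n, List (CΓ O n k)) (some none) = y := rfl

/-- The invariant: all stacks other than the input and the output have height at most `L`. -/
def Inv {Λ : Type} (L : ℕ) (c : CCfg O n Λ) : Prop :=
  ∀ i : Option (Fin (n + 1)), (c.stk (some (some i))).length ≤ L

theorem inv_cstk {Λ : Type} {L : ℕ} {l : Option Λ} {v : Option Bool} {S : ℕ → List Bool}
    {z : List Bool} {x : List Unit} {y : List O} (hS : ∀ r, (S r).length ≤ L) (hz : z.length ≤ L) :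
    Inv L (⟨l, v, cstk S z x y⟩ : CCfg O n Λ) := by
  intro i
  cases i with
  | none => exact hz
  | some i => exact hS i.val

/-- Moving the scratch stack back. -/
theorem path_back {Λ : Type} (M : Λ → CSt O n Λ) (L : ℕ) (r : ℕ) (hr : r < n + 1) (l ex : Λ)
    (hM : M l = .pop (some (some none)) (fun _ (o : Option Bool) => o)
      (.branch (fun v => v.isSome)
        (.push (some (some (some (creg r)))) (fun v => v.getD false) (.goto fun _ => l))
        (.goto fun _ => ex))) (x : List Unit) (y : List O) :
    ∀ (z : List Bool) (S : ℕ → List Bool) (v : Option Bool), (∀ r, (S r).length ≤ L) →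
      (S r).length + z.length ≤ L →
      ∃ v', Path (TM2.step M) (Inv L) ⟨some l, v, cstk S z x y⟩
        ⟨some ex, v', cstk (update S r (z.reverse ++ S r)) [] x y⟩ := by
  intro z
  induction z with
  | nil =>
    intro S v hS _
    refine ⟨none, Path.head _ _ _ (inv_cstk hS (by simp)) ?_ (Path.refl _ ?_)⟩
    · simp only [TM2.step, hM, TM2.stepAux]
      rw [update_cstk_scr]
      simp [cstk]
    · rw [List.reverse_nil, List.nil_append, Function.update_eq_self]
      exact inv_cstk hS (by simp)
  | cons b z ih =>
    intro S v hS hz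
    rw [List.length_cons] at hz
    obtain ⟨v', hv'⟩ := ih (update S r (b :: S r)) (some b) (by
      intro r'
      by_cases h : r' = r
      · subst h
        rw [Function.update_self, List.length_cons]
        omega
      · rw [Function.update_of_ne h]
        exact hS r') (by rw [Function.update_self, List.length_cons]; omega)
    have e : update (update S r (b :: S r)) r (z.reverse ++ update S r (b :: S r) r) =
        update S r ((b :: z).reverse ++ S r) := by
      simp
    rw [e] at hv'
    refine ⟨v', Path.head _ _ _ (inv_cstk hS (by rw [List.length_cons]; omega)) ?_ hv'⟩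
    simp only [TM2.step, hM, TM2.stepAux]
    rw [update_cstk_scr, cstk_scr]
    simp only [List.head?_cons, Option.isSome_some, cond_true, List.tail_cons,
      Option.getD_some]
    rw [cstk_reg _ _ _ _ hr, update_cstk _ _ _ _ hr]

/-- Incrementing a counter. -/
theorem path_inc {Λ : Type} (M : Λ → CSt O n Λ) (L : ℕ) (r : ℕ) (hr : r < n + 1) (l₀ l₁ ex : Λ)
    (h0 : M l₀ = cinc r l₀ l₁ ex false) (h1 : M l₁ = cinc r l₀ l₁ ex true)
    (x : List Unit) (y : List O) :
    ∀ (l : List Bool) (z : List Bool) (S : ℕ → List Bool) (v : Option Bool), S r = l →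
      (∀ r, (S r).length ≤ L) → (incL l).length + z.length ≤ L →
      ∃ v', Path (TM2.step M) (Inv L) ⟨some l₀, v, cstk S z x y⟩
        ⟨some ex, v', cstk (update S r (z.reverse ++ incL l)) [] x y⟩ := by
  have hupd : ∀ (S : ℕ → List Bool) (l : List Bool), (∀ r, (S r).length ≤ L) → l.length ≤ L →
      ∀ r', (update S r l r').length ≤ L := by
    intro S l hS hl r'
    by_cases h : r' = r
    · subst h
      rw [Function.update_self]
      exact hl
    · rw [Function.update_of_ne h]
      exact hS r'
  intro l
  induction l with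
  | nil =>
    intro z S v hSr hS hz
    simp only [incL, List.length_cons, List.length_nil] at hz
    obtain ⟨v', hv'⟩ := path_back M L r hr l₁ ex h1 x y z (update S r [true]) none
      (hupd S _ hS (by rw [List.length_cons, List.length_nil]; omega)) (by rw [Function.update_self, List.length_cons, List.length_nil]; omega)
    rw [Function.update_self, Function.update_idem] at hv'
    refine ⟨v', Path.head _ _ _ (inv_cstk hS (by omega)) ?_ hv'⟩
    simp only [TM2.step, h0, cinc, TM2.stepAux]
    rw [cstk_reg _ _ _ _ hr, update_cstk _ _ _ _ hr, hSr]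
    simp only [List.head?_nil, List.tail_nil]
    rw [cstk_reg _ _ _ _ hr, update_cstk _ _ _ _ hr, Function.update_self, Function.update_idem]
    rfl
  | cons b l ih =>
    cases b with
    | false =>
      intro z S v hSr hS hz
      simp only [incL, List.length_cons] at hz
      obtain ⟨v', hv'⟩ := path_back M L r hr l₁ ex h1 x y z (update S r (true :: l)) (some false)
        (hupd S _ hS (by rw [List.length_cons]; omega)) (by rw [Function.update_self, List.length_cons]; omega)
      rw [Function.update_self, Function.update_idem] at hv'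
      refine ⟨v', Path.head _ _ _ (inv_cstk hS (by omega)) ?_ hv'⟩
      simp only [TM2.step, h0, cinc, TM2.stepAux]
      rw [cstk_reg _ _ _ _ hr, update_cstk _ _ _ _ hr, hSr]
      simp only [List.head?_cons, List.tail_cons]
      rw [cstk_reg _ _ _ _ hr, update_cstk _ _ _ _ hr, Function.update_self, Function.update_idem]
      rfl
    | true =>
      intro z S v hSr hS hz
      simp only [incL, List.length_cons] at hz
      have hl := length_le_incL l
      obtain ⟨v', hv'⟩ := ih (false :: z) (update S r l) (some true) (Function.update_self _ _ _)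
        (hupd S _ hS (by omega)) (by rw [List.length_cons]; omega)
      rw [Function.update_idem] at hv'
      have e : (false :: z).reverse ++ incL l = z.reverse ++ incL (true :: l) := by
        simp [incL]
      rw [e] at hv'
      refine ⟨v', Path.head _ _ _ (inv_cstk hS (by omega)) ?_ hv'⟩
      simp only [TM2.step, h0, cinc, TM2.stepAux]
      rw [cstk_reg _ _ _ _ hr, update_cstk _ _ _ _ hr, hSr]
      simp only [List.head?_cons, List.tail_cons]
      rw [update_cstk_scr, cstk_scr]
      rfl

theorem length_update_le {L : ℕ} {r : ℕ} (S : ℕ → List Bool) (l : List Bool)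
    (hS : ∀ r, (S r).length ≤ L) (hl : l.length ≤ L) (r' : ℕ) : (update S r l r').length ≤ L := by
  by_cases h : r' = r
  · subst h
    rw [Function.update_self]
    exact hl
  · rw [Function.update_of_ne h]
    exact hS r'

/-- Decrementing a counter. -/
theorem path_dec {Λ : Type} (M : Λ → CSt O n Λ) (L : ℕ) (r : ℕ) (hr : r < n + 1)
    (l₁ l₂ ez es : Λ) (h1 : M l₁ = cdec r l₁ l₂ ez es (some none))
    (h2 : M l₂ = cdec r l₁ l₂ ez es (some (some ()))) (x : List Unit) (y : List O) :
    ∀ (l : List Bool) (z : List Bool) (S : ℕ → List Bool) (v : Option Bool), S r = l →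
      (∀ r, (S r).length ≤ L) → l.length + z.length ≤ L →
      ∃ v', Path (TM2.step M) (Inv L) ⟨some l₁, v, cstk S z x y⟩
        ⟨some es, v', cstk (update S r (z.reverse ++ decL l)) [] x y⟩ := by
  intro l
  induction l with
  | nil =>
    intro z S v hSr hS hz
    simp only [List.length_nil] at hz
    obtain ⟨v', hv'⟩ := path_back M L r hr l₂ es h2 x y z (update S r []) none
      (length_update_le S _ hS (by simp)) (by rw [Function.update_self]; simpa using hz)
    rw [Function.update_self, Function.update_idem] at hv'
    refine ⟨v', Path.head _ _ _ (inv_cstk hS (by omega)) ?_ hv'⟩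
    simp only [TM2.step, h1, cdec, TM2.stepAux]
    rw [cstk_reg _ _ _ _ hr, update_cstk _ _ _ _ hr, hSr]
    rfl
  | cons b l ih =>
    cases b with
    | false =>
      intro z S v hSr hS hz
      simp only [List.length_cons] at hz
      obtain ⟨v', hv'⟩ := ih (true :: z) (update S r l) (some false) (Function.update_self _ _ _)
        (length_update_le S _ hS (by omega)) (by rw [List.length_cons]; omega)
      rw [Function.update_idem] at hv'
      have e : (true :: z).reverse ++ decL l = z.reverse ++ decL (false :: l) := by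
        simp [decL]
      rw [e] at hv'
      refine ⟨v', Path.head _ _ _ (inv_cstk hS (by omega)) ?_ hv'⟩
      simp only [TM2.step, h1, cdec, TM2.stepAux]
      rw [cstk_reg _ _ _ _ hr, update_cstk _ _ _ _ hr, hSr]
      simp only [List.head?_cons, List.tail_cons]
      rw [update_cstk_scr, cstk_scr]
      rfl
    | true =>
      intro z S v hSr hS hz
      simp only [List.length_cons] at hz
      by_cases hl : l = []
      · subst hl
        obtain ⟨v', hv'⟩ := path_back M L r hr l₂ es h2 x y z (update S r []) none
          (length_update_le S _ hS (by simp))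
          (by rw [Function.update_self, List.length_nil]; omega)
        rw [Function.update_self, Function.update_idem] at hv'
        have e : z.reverse ++ ([] : List Bool) = z.reverse ++ decL (true :: []) := by
          simp [decL]
        rw [e] at hv'
        refine ⟨v', Path.head _ _ _ (inv_cstk hS (by omega)) ?_ hv'⟩
        simp only [TM2.step, h1, cdec, TM2.stepAux]
        rw [cstk_reg _ _ _ _ hr, update_cstk _ _ _ _ hr, hSr]
        simp only [List.head?_cons, List.tail_cons]
        rw [cstk_reg _ _ _ _ hr, Function.update_self]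
        rfl
      · obtain ⟨v', hv'⟩ := path_back M L r hr l₂ es h2 x y z (update S r (false :: l)) (some (l.head hl))
          (length_update_le S _ hS (by rw [List.length_cons]; omega))
          (by rw [Function.update_self, List.length_cons]; omega)
        rw [Function.update_self, Function.update_idem] at hv'
        have e : z.reverse ++ (false :: l) = z.reverse ++ decL (true :: l) := by
          simp [decL, hl]
        rw [e] at hv'
        refine ⟨v', Path.head _ _ _ (inv_cstk hS (by omega)) ?_ hv'⟩
        simp only [TM2.step, h1, cdec, TM2.stepAux]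
        rw [cstk_reg _ _ _ _ hr, update_cstk _ _ _ _ hr, hSr]
        simp only [List.head?_cons, List.tail_cons]
        rw [cstk_reg _ _ _ _ hr, Function.update_self, update_cstk _ _ _ _ hr,
          Function.update_idem, List.head?_eq_some_head hl]
        rfl

/-- The stacks holding the counters. -/
def cst (s : ℕ → ℕ) : ℕ → List Bool := fun r => (s r).bits

theorem update_cst (s : ℕ → ℕ) (r m : ℕ) : update (cst s) r m.bits = cst (update s r m) := by
  funext r'
  by_cases h : r' = r
  · subst h
    simp [cst]
  · simp [cst, h]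

theorem length_cst {s : ℕ → ℕ} {B : ℕ} (hs : ∀ r, s r ≤ B) (r : ℕ) :
    (cst s r).length ≤ B.size := by
  rw [cst, Nat.size_eq_bits_len]
  exact Nat.size_le_size (hs r)

/-- The step of the test for a counter that is zero. -/
theorem path_zero {Λ : Type} (M : Λ → CSt O n Λ) (r : ℕ) (hr : r < n + 1)
    (l₀ l₁ l₂ ez es : Λ) (h0 : M l₀ = cdec r l₁ l₂ ez es none) (x : List Unit) (y : List O)
    (S : ℕ → List Bool) (v : Option Bool) (hSr : S r = []) :
    TM2.step M ⟨some l₀, v, cstk S [] x y⟩ =
      some (⟨some ez, none, cstk S [] x y⟩ : CCfg O n Λ) := by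
  simp only [TM2.step, h0, cdec, TM2.stepAux]
  rw [cstk_reg _ _ _ _ hr, hSr]
  rfl

/-- The step of the test for a counter that is not zero. -/
theorem path_nonzero {Λ : Type} (M : Λ → CSt O n Λ) (r : ℕ) (hr : r < n + 1)
    (l₀ l₁ l₂ ez es : Λ) (h0 : M l₀ = cdec r l₁ l₂ ez es none) (x : List Unit) (y : List O)
    (S : ℕ → List Bool) (v : Option Bool) (hSr : S r ≠ []) :
    TM2.step M ⟨some l₀, v, cstk S [] x y⟩ =
      some (⟨some l₁, some ((S r).head hSr), cstk S [] x y⟩ : CCfg O n Λ) := by
  simp only [TM2.step, h0, cdec, TM2.stepAux]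
  rw [cstk_reg _ _ _ _ hr, List.head?_eq_some_head hSr]
  rfl

/-- The machine simulates counter programs. -/
theorem csim {B : ℕ} {p : CP O} {s s' : ℕ → ℕ} {o o' : List O} (h : CExec B p s o s' o') :
    CBdd p (n + 1) → (∀ r, s r ≤ B) → (∀ r, s' r ≤ B) ∧
      ∀ {Λ : Type} (M : Λ → CSt O n Λ) (ι : CLab p → Λ)
      (ex : Λ), (∀ l, M (ι l) = ccode p ι ex l) → ∀ (v : Option Bool) (x : List Unit),
      ∃ v', Path (TM2.step M) (Inv B.size) ⟨some (ι (centry p)), v, cstk (cst s) [] x o⟩
        ⟨some ex, v', cstk (cst s') [] x o'⟩ := by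
  induction h with
  | skip s o =>
    intro _ hs
    refine ⟨hs, fun M ι ex hM v x => ⟨v, Path.head _ _ _ (inv_cstk (length_cst hs) (by simp)) ?_
      (Path.refl _ (inv_cstk (length_cst hs) (by simp)))⟩⟩
    have := hM ()
    simp only [TM2.step, centry, this, ccode, TM2.stepAux]
  | inc r s o h =>
    intro hb hs
    have hs' : ∀ r', update s r (s r + 1) r' ≤ B := by
      intro r'
      by_cases h' : r' = r
      · subst h'
        rw [Function.update_self]
        omega
      · rw [Function.update_of_ne h']
        exact hs r'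
    refine ⟨hs', fun M ι ex hM v x => ?_⟩
    obtain ⟨v', hv'⟩ := path_inc M B.size r hb (ι false) (ι true) ex (hM false) (hM true) x o
      (s r).bits [] (cst s) v rfl (length_cst hs) (by
        rw [incL_bits, Nat.size_eq_bits_len, List.length_nil, add_zero]
        exact Nat.size_le_size h)
    rw [incL_bits, List.reverse_nil, List.nil_append, update_cst] at hv'
    exact ⟨v', hv'⟩
  | out a s o =>
    intro _ hs
    refine ⟨hs, fun M ι ex hM v x => ⟨v, Path.head _ _ _ (inv_cstk (length_cst hs) (by simp)) ?_
      (Path.refl _ (inv_cstk (length_cst hs) (by simp)))⟩⟩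
    have := hM ()
    simp only [TM2.step, centry, this, ccode, TM2.stepAux]
    rw [update_cstk_out, cstk_out]
  | @popZero r p₀ p₁ s s' o o' h _ ih =>
    intro hb hs
    obtain ⟨hs', ih⟩ := ih hb.2.1 hs
    refine ⟨hs', fun M ι ex hM v x => ?_⟩
    obtain ⟨v', hv'⟩ := ih M (fun l => ι (Sum.inr (Sum.inl l))) ex
      (fun l => hM (Sum.inr (Sum.inl l))) none x
    refine ⟨v', Path.head _ _ _ (inv_cstk (length_cst hs) (by simp)) ?_ hv'⟩
    have h0 : M (ι (Sum.inl none)) = cdec r (ι (Sum.inl (some none)))
      (ι (Sum.inl (some (some ())))) (ι (Sum.inr (Sum.inl (centry p₀))))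
      (ι (Sum.inr (Sum.inr (centry p₁)))) none := hM (Sum.inl none)
    exact path_zero M r hb.1 _ _ _ _ _ h0 x o (cst s) v (by rw [cst, h]; rfl)
  | @popSucc r m p₀ p₁ s s' o o' h _ ih =>
    intro hb hs
    have hs1 : ∀ r', update s r m r' ≤ B := by
      intro r'
      by_cases h' : r' = r
      · subst h'
        rw [Function.update_self]
        have := hs r'
        omega
      · rw [Function.update_of_ne h']
        exact hs r'
    obtain ⟨hs', ih⟩ := ih hb.2.2 hs1
    refine ⟨hs', fun M ι ex hM v x => ?_⟩
    have hne : cst s r ≠ [] := by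
      rw [cst, h]
      intro h'
      exact absurd (bits_eq_nil.1 h') (by omega)
    have h0 : ∀ l, M (ι (Sum.inl l)) = cdec r (ι (Sum.inl (some none)))
      (ι (Sum.inl (some (some ())))) (ι (Sum.inr (Sum.inl (centry p₀))))
      (ι (Sum.inr (Sum.inr (centry p₁)))) l := fun l => hM (Sum.inl l)
    have hstep := path_nonzero M r hb.1 _ _ _ _ _ (h0 none) x o (cst s) v hne
    obtain ⟨v1, hv1⟩ := path_dec M B.size r hb.1 _ _ _ _ (h0 (some none))
      (h0 (some (some ()))) x o (cst s r) [] (cst s) (some ((cst s r).head hne)) rfl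
      (length_cst hs) (by rw [List.length_nil, add_zero]; exact length_cst hs r)
    have e : decL (cst s r) = m.bits := by rw [cst, h, decL_bits]
    rw [e, List.reverse_nil, List.nil_append, update_cst] at hv1
    obtain ⟨v', hv'⟩ := ih M (fun l => ι (Sum.inr (Sum.inr l))) ex
      (fun l => hM (Sum.inr (Sum.inr l))) v1 x
    exact ⟨v', Path.head _ _ _ (inv_cstk (length_cst hs) (by simp)) hstep (hv1.trans hv')⟩
  | @seq p q s s' s'' o o' o'' _ _ ih1 ih2 =>
    intro hb hs
    obtain ⟨hs', ih1⟩ := ih1 hb.1 hs
    obtain ⟨hs'', ih2⟩ := ih2 hb.2 hs'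
    refine ⟨hs'', fun M ι ex hM v x => ?_⟩
    obtain ⟨v', hv'⟩ := ih1 M (fun l => ι (Sum.inl l)) (ι (Sum.inr (centry q)))
      (fun l => hM (Sum.inl l)) v x
    obtain ⟨v'', hv''⟩ := ih2 M (fun l => ι (Sum.inr l)) ex
      (fun l => hM (Sum.inr l)) v' x
    exact ⟨v'', hv'.trans hv''⟩
  | @loopZero r p s o h =>
    intro hb hs
    refine ⟨hs, fun M ι ex hM v x => ⟨none, Path.head _ _ _
      (inv_cstk (length_cst hs) (by simp)) ?_
      (Path.refl _ (inv_cstk (length_cst hs) (by simp)))⟩⟩
    have h0 : M (ι (Sum.inl none)) = cdec r (ι (Sum.inl (some none)))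
      (ι (Sum.inl (some (some ())))) ex (ι (Sum.inr (centry p))) none := hM (Sum.inl none)
    exact path_zero M r hb.1 _ _ _ _ _ h0 x o (cst s) v (by rw [cst, h]; rfl)
  | @loopSucc r m p s s' s'' o o' o'' h _ _ ih1 ih2 =>
    intro hb hs
    have hs1 : ∀ r', update s r m r' ≤ B := by
      intro r'
      by_cases h' : r' = r
      · subst h'
        rw [Function.update_self]
        have := hs r'
        omega
      · rw [Function.update_of_ne h']
        exact hs r'
    obtain ⟨hs', ih1⟩ := ih1 hb.2 hs1
    obtain ⟨hs'', ih2⟩ := ih2 hb hs'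
    refine ⟨hs'', fun M ι ex hM v x => ?_⟩
    have hne : cst s r ≠ [] := by
      rw [cst, h]
      intro h'
      exact absurd (bits_eq_nil.1 h') (by omega)
    have h0 : ∀ l, M (ι (Sum.inl l)) = cdec r (ι (Sum.inl (some none)))
      (ι (Sum.inl (some (some ())))) ex (ι (Sum.inr (centry p))) l := fun l => hM (Sum.inl l)
    have hstep := path_nonzero M r hb.1 _ _ _ _ _ (h0 none) x o (cst s) v hne
    obtain ⟨v1, hv1⟩ := path_dec M B.size r hb.1 _ _ _ _ (h0 (some none))
      (h0 (some (some ()))) x o (cst s r) [] (cst s) (some ((cst s r).head hne)) rfl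
      (length_cst hs) (by rw [List.length_nil, add_zero]; exact length_cst hs r)
    have e : decL (cst s r) = m.bits := by rw [cst, h, decL_bits]
    rw [e, List.reverse_nil, List.nil_append, update_cst] at hv1
    obtain ⟨v2, hv2⟩ := ih1 M (fun l => ι (Sum.inr l)) (ι (Sum.inl none))
      (fun l => hM (Sum.inr l)) v1 x
    obtain ⟨v', hv'⟩ := ih2 M ι ex hM v2 x
    exact ⟨v', Path.head _ _ _ (inv_cstk (length_cst hs) (by simp)) hstep
      (hv1.trans (hv2.trans hv'))⟩

theorem noPush_cinc {Λ : Type} (r : ℕ) (l₀ l₁ ex : Λ) (b : Bool) :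
    NoPush none (cinc r l₀ l₁ ex b : CSt O n Λ) := by
  cases b <;> simp [cinc, NoPush]

theorem noPush_cdec {Λ : Type} (r : ℕ) (l₁ l₂ ez es : Λ) (b : Option (Option Unit)) :
    NoPush none (cdec r l₁ l₂ ez es b : CSt O n Λ) := by
  rcases b with _ | _ | _ <;> simp [cdec, NoPush]

theorem noPush_ccode {Λ : Type} : ∀ (p : CP O) (ι : CLab p → Λ) (ex : Λ) (l : CLab p),
    NoPush none (ccode p ι ex l : CSt O n Λ)
  | .skip, _, _, _ => trivial
  | .inc r, ι, ex, l => noPush_cinc r _ _ ex l
  | .out _, _, _, _ => ⟨by simp, trivial⟩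
  | .pop r p₀ p₁, ι, ex, l =>
    match l with
    | Sum.inl l => noPush_cdec r _ _ _ _ l
    | Sum.inr (Sum.inl l) => noPush_ccode p₀ _ ex l
    | Sum.inr (Sum.inr l) => noPush_ccode p₁ _ ex l
  | .seq p q, ι, ex, l =>
    match l with
    | Sum.inl l => noPush_ccode p _ _ l
    | Sum.inr l => noPush_ccode q _ ex l
  | .loop r p, ι, ex, l =>
    match l with
    | Sum.inl l => noPush_cdec r _ _ _ _ l
    | Sum.inr l => noPush_ccode p _ _ l

theorem noRead_cinc {Λ : Type} (r : ℕ) (l₀ l₁ ex : Λ) (b : Bool) :
    NoRead (some none) (cinc r l₀ l₁ ex b : CSt O n Λ) := by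
  cases b <;> simp [cinc, NoRead]

theorem noRead_cdec {Λ : Type} (r : ℕ) (l₁ l₂ ez es : Λ) (b : Option (Option Unit)) :
    NoRead (some none) (cdec r l₁ l₂ ez es b : CSt O n Λ) := by
  rcases b with _ | _ | _ <;> simp [cdec, NoRead]

theorem noRead_ccode {Λ : Type} : ∀ (p : CP O) (ι : CLab p → Λ) (ex : Λ) (l : CLab p),
    NoRead (some none) (ccode p ι ex l : CSt O n Λ)
  | .skip, _, _, _ => trivial
  | .inc r, ι, ex, l => noRead_cinc r _ _ ex l
  | .out _, _, _, _ => trivial
  | .pop r p₀ p₁, ι, ex, l =>
    match l with
    | Sum.inl l => noRead_cdec r _ _ _ _ l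
    | Sum.inr (Sum.inl l) => noRead_ccode p₀ _ ex l
    | Sum.inr (Sum.inr l) => noRead_ccode p₁ _ ex l
  | .seq p q, ι, ex, l =>
    match l with
    | Sum.inl l => noRead_ccode p _ _ l
    | Sum.inr l => noRead_ccode q _ ex l
  | .loop r p, ι, ex, l =>
    match l with
    | Sum.inl l => noRead_cdec r _ _ _ _ l
    | Sum.inr l => noRead_ccode p _ _ l

/-- Labels of the whole machine. -/
abbrev CΛ (p : CP O) : Type := Option (Option (Bool ⊕ CLab p))

/-- The statements of the whole machine: count the input in counter `0`, run the program, halt. -/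
def cmain (p : CP O) : CΛ p → CSt O n (CΛ p)
  | none => .pop none (fun _ (o : Option Unit) => o.map fun _ => true)
      (.branch (fun v => v.isSome) (.goto fun _ => some (some (Sum.inl false)))
        (.goto fun _ => some (some (Sum.inr (centry p)))))
  | some none => .halt
  | some (some (Sum.inl b)) => cinc 0 (some (some (Sum.inl false))) (some (some (Sum.inl true)))
      none b
  | some (some (Sum.inr l)) => ccode p (fun l => some (some (Sum.inr l))) (some none) l

theorem noPush_cmain (p : CP O) : ∀ l, NoPush none (cmain (n := n) p l)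
  | none => ⟨trivial, trivial⟩
  | some none => trivial
  | some (some (Sum.inl _)) => noPush_cinc _ _ _ _ _
  | some (some (Sum.inr _)) => noPush_ccode _ _ _ _

theorem noRead_cmain (p : CP O) : ∀ l, NoRead (some none) (cmain (n := n) p l)
  | none => ⟨by simp, trivial, trivial⟩
  | some none => trivial
  | some (some (Sum.inl _)) => noRead_cinc _ _ _ _ _
  | some (some (Sum.inr _)) => noRead_ccode _ _ _ _

/-- The first phase. -/
theorem cphase1 (p : CP O) (B : ℕ) (y : List O) : ∀ (x : List Unit) (v : Option Bool) (s : ℕ → ℕ),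
    (∀ r, s r ≤ B) → s 0 + x.length ≤ B → ∃ v',
      Path (TM2.step (cmain (n := n) p)) (Inv B.size) ⟨some none, v, cstk (cst s) [] x y⟩
        ⟨some (some (some (Sum.inr (centry p)))), v',
          cstk (cst (update s 0 (s 0 + x.length))) [] [] y⟩ := by
  intro x
  induction x with
  | nil =>
    intro v s hs _
    refine ⟨none, Path.head _ _ _ (inv_cstk (length_cst hs) (by simp)) ?_ (Path.refl _ ?_)⟩
    · simp only [TM2.step, cmain, TM2.stepAux]
      rw [update_cstk_in, cstk_in]
      simp
    · rw [List.length_nil, add_zero, Function.update_eq_self]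
      exact inv_cstk (length_cst hs) (by simp)
  | cons c x ih =>
    intro v s hs hx
    rw [List.length_cons] at hx
    have hs' : ∀ r', update s 0 (s 0 + 1) r' ≤ B := by
      intro r'
      by_cases h' : r' = 0
      · subst h'
        rw [Function.update_self]
        omega
      · rw [Function.update_of_ne h']
        exact hs r'
    obtain ⟨v1, hv1⟩ := path_inc (cmain (n := n) p) B.size 0 (Nat.succ_pos n)
      (some (some (Sum.inl false))) (some (some (Sum.inl true))) none rfl rfl x y
      (s 0).bits [] (cst s) (some true) rfl (length_cst hs) (by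
        rw [incL_bits, Nat.size_eq_bits_len, List.length_nil, add_zero]
        exact Nat.size_le_size (by omega))
    rw [incL_bits, List.reverse_nil, List.nil_append, update_cst] at hv1
    obtain ⟨v2, hv2⟩ := ih v1 (update s 0 (s 0 + 1)) hs' (by rw [Function.update_self]; omega)
    rw [Function.update_self, Function.update_idem] at hv2
    have e : s 0 + 1 + x.length = s 0 + (c :: x).length := by rw [List.length_cons]; omega
    rw [e] at hv2
    refine ⟨v2, Path.head _ _ _ (inv_cstk (length_cst hs) (by simp)) ?_ (hv1.trans hv2)⟩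
    simp only [TM2.step, cmain, TM2.stepAux]
    rw [update_cstk_in, cstk_in]
    rfl

/-- The whole machine. -/
noncomputable def cmach (n : ℕ) (p : CP Sym) : FinTM2 :=
  letI := CLab.fintype p
  { K := CK n
    k₀ := none
    k₁ := some none
    Γ := CΓ Sym n
    Λ := CΛ p
    main := none
    σ := Option Bool
    initialState := none
    Γk₀Fin := inferInstanceAs (Fintype Unit)
    m := cmain p }

theorem initList_cmach (p : CP Sym) (x : List Unit) : initList (cmach n p) x =
    (⟨some none, none, cstk (cst fun _ => 0) [] x []⟩ : CCfg Sym n (CΛ p)) := by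
  unfold initList
  congr 1
  funext k'
  rcases k' with _ | _ | _ | k' <;> simp [cmach, cstk, cst]

theorem finite_sym : Finite Sym := by
  let l : List Sym := [.inp, .tt, .ff, .not, .and, .or, .one, .stop]
  refine Set.finite_univ_iff.mp ((List.finite_toSet l).subset fun x _ => ?_)
  cases x <;> simp [l]

theorem finite_CΓ : ∀ k : CK n, Finite (CΓ Sym n k)
  | none => inferInstanceAs (Finite Unit)
  | some none => finite_sym
  | some (some _) => inferInstanceAs (Finite Bool)

theorem space_le (p : CP Sym) (L : ℕ) (c : CCfg Sym n (CΛ p)) (hc : Inv L c) :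
    space (cmach n p) c ≤ (n + 4) * L := by
  unfold space
  have h1 : ∀ k ∈ ((Finset.univ : Finset (CK n)).erase none).erase (some none),
      (c.stk k).length ≤ L := by
    intro k hk
    rcases k with _ | _ | k
    · simp at hk
    · simp at hk
    · exact hc k
  have h2 := Finset.sum_le_card_nsmul _ (fun k => (c.stk k).length) L h1
  refine le_trans h2 ?_
  rw [smul_eq_mul]
  refine Nat.mul_le_mul_right _ ?_
  refine le_trans (Finset.card_le_univ _) ?_
  simp

theorem size_le_log (N c : ℕ) : ((N + 2) ^ c).size ≤ 3 * c * (Nat.log 2 N + 1) + 1 := by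
  have h1 : N + 2 ≤ 2 ^ (Nat.log 2 N + 2) := by
    have h2 := Nat.lt_pow_succ_log_self (b := 2) (by norm_num) N
    rw [pow_succ] at h2 ⊢
    rw [pow_succ]
    have h3 : 1 ≤ 2 ^ Nat.log 2 N := Nat.one_le_two_pow
    omega
  have h4 : (N + 2) ^ c ≤ 2 ^ ((Nat.log 2 N + 2) * c) := by
    rw [pow_mul]
    exact Nat.pow_le_pow_left h1 c
  have h5 := Nat.size_le_size h4
  rw [Nat.size_pow] at h5
  nlinarith

end machine

end Mach

open Mach in
/-- Functions printed by counter programs with polynomially bounded counters are printed in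
logarithmic space. -/
theorem printed_of_cp (p : CP Sym) (B : ℕ → ℕ) (c : ℕ) (hB : ∀ N, B N ≤ (N + 2) ^ c)
    (hN : ∀ N, N ≤ B N) (w : ℕ → List Sym)
    (h : ∀ N, ∃ s', CExec (B N) p (update (fun _ => 0) 0 N) [] s' (w N)) : LogspacePrinted w := by
  obtain ⟨n, hn⟩ := CBdd.exists p
  have hb : CBdd p (n + 1) := CBdd.mono (Nat.le_succ n) hn
  have key : ∀ N, ∃ v' : Option Bool × (ℕ → ℕ), Mach.Path (TM2.step (cmain (n := n) p))
      (Inv (B N).size) ⟨some none, none, cstk (cst fun _ => 0) [] (List.replicate N ()) []⟩
      ⟨none, v'.1, cstk (cst v'.2) [] [] (w N)⟩ := by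
    intro N
    obtain ⟨v1, hv1⟩ := cphase1 (n := n) p (B N) [] (List.replicate N ()) none (fun _ => 0)
      (fun _ => Nat.zero_le _) (by simpa using hN N)
    obtain ⟨s', hs'⟩ := h N
    obtain ⟨hsB, hsim⟩ := csim (n := n) hs' hb (by
      intro r
      by_cases hr : r = 0
      · subst hr
        rw [Function.update_self]
        exact hN N
      · rw [Function.update_of_ne hr]
        exact Nat.zero_le _)
    obtain ⟨v2, hv2⟩ := hsim (cmain (n := n) p) (fun l => some (some (Sum.inr l))) (some none)
      (fun _ => rfl) v1 []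
    rw [List.length_replicate, Nat.zero_add] at hv1
    refine ⟨(v2, s'), hv1.trans (hv2.trans (Mach.Path.head _ _ _
      (inv_cstk (length_cst hsB) (by simp)) ?_
      (Mach.Path.refl _ (inv_cstk (length_cst hsB) (by simp)))))⟩
    simp only [TM2.step, cmain, TM2.stepAux]
  refine ⟨cmach n p, (), id, (n + 4) * (3 * c + 1), by simp [cmach], finite_CΓ, noPush_cmain p,
    noRead_cmain p, fun N => ⟨?_, ?_⟩⟩
  · intro cfg hcfg
    obtain ⟨v', hv'⟩ := key N
    erw [initList_cmach] at hcfg
    have hI : Inv (B N).size (cfg : CCfg Sym n (CΛ p)) := hv'.inv rfl cfg hcfg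
    refine le_trans (space_le p _ cfg hI) ?_
    have h1 := Nat.size_le_size (hB N)
    have h2 := size_le_log N c
    have h3 : (B N).size ≤ (3 * c + 1) * (Nat.log 2 N + 1) := by nlinarith
    rw [mul_assoc]
    exact Nat.mul_le_mul_left _ h3
  · obtain ⟨v', hv'⟩ := key N
    refine ⟨(⟨none, v'.1, cstk (cst v'.2) [] [] (w N)⟩ : CCfg Sym n (CΛ p)), ?_, rfl, ?_⟩
    · erw [initList_cmach]
      exact hv'.reaches
    · exact List.map_id _

end Pool.Agent.NC
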