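import Pool.Agent.NC.Print

/-!
# Circuits given by numeric functions are logspace-uniform
-/

set_option autoImplicit false
set_option linter.unreachableTactic false
set_option linter.unusedTactic false

open Function (update)
open Pool.Agent.PT

namespace Pool.Agent.NC

namespace Unif

/-- concatenation of letterwise given words -/
theorem flatMap_range {β : Type*} (φ : ℕ → β) (ln : ℕ → ℕ) (lt : ℕ → ℕ → ℕ) (S : ℕ) :
    (List.range S).flatMap (fun g => (List.range (ln g)).map fun r => φ (lt g r)) =
      (List.range (∑ g ∈ Finset.range S, ln g)).map fun i => φ (∑ g ∈ Finset.range S,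
        if (∑ g' ∈ Finset.range g, ln g') ≤ i ∧ i < ∑ g' ∈ Finset.range (g + 1), ln g' then
          lt g (i - ∑ g' ∈ Finset.range g, ln g') else 0) := by
  induction S with
  | zero => simp
  | succ S ih =>
    rw [List.range_succ, List.flatMap_append, ih, Finset.sum_range_succ, List.range_add,
      List.map_append, List.map_map]
    congr 1
    · apply List.map_congr_left
      intro i hi
      rw [List.mem_range] at hi
      congr 1
      rw [Finset.sum_range_succ, if_neg (fun h => absurd h.1 (not_le.2 hi)), add_zero]
    · simp only [List.flatMap_cons, List.flatMap_nil, List.append_nil]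
      apply List.map_congr_left
      intro r hr
      rw [List.mem_range] at hr
      simp only [Function.comp_apply]
      congr 1
      rw [Finset.sum_range_succ, Finset.sum_eq_zero, zero_add, if_pos, Nat.add_sub_cancel_left]
      · refine ⟨Nat.le_add_right _ _, ?_⟩
        rw [Finset.sum_range_succ]
        omega
      · intro g hg
        rw [Finset.mem_range] at hg
        rw [if_neg]
        rintro ⟨-, h2⟩
        have : ∑ g' ∈ Finset.range (g + 1), ln g' ≤ ∑ g' ∈ Finset.range S, ln g' :=
          Finset.sum_le_sum_of_subset (by
            intro z hz
            rw [Finset.mem_range] at *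
            omega)
        omega

/-- numbering of the letters -/
def phi : ℕ → Sym
  | 0 => Sym.inp
  | 1 => Sym.tt
  | 2 => Sym.ff
  | 3 => Sym.not
  | 4 => Sym.and
  | 5 => Sym.or
  | 6 => Sym.one
  | _ => Sym.stop

/-- length of the code of a gate -/
def gln (o a b : ℕ) : ℕ :=
  if o < 2 then 1 else if o < 4 then a + 2 else a + b + 3

/-- letters of the code of a gate -/
def glt (o a b r : ℕ) : ℕ :=
  if o = 0 then 2 else if o = 1 then 1 else
    if r = 0 then (if o = 2 then 0 else if o = 3 then 3 else if o = 4 then 4 else 5)
    else if r ≤ a then 6 else if r = a + 1 then 7 else if r ≤ a + b + 1 then 6 else 7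

theorem glt_le (o a b r : ℕ) : glt o a b r ≤ 7 := by
  unfold glt
  split_ifs <;> omega

theorem unary_eq (a : ℕ) (f : ℕ → Sym) (h1 : ∀ r, r < a → f r = Sym.one) (h2 : f a = Sym.stop) :
    unary a = (List.range (a + 1)).map f := by
  rw [List.range_succ, List.map_append, unary]
  congr 1
  · symm
    rw [List.eq_replicate_iff]
    refine ⟨by simp, ?_⟩
    intro b hb
    rw [List.mem_map] at hb
    obtain ⟨r, hr, rfl⟩ := hb
    exact h1 r (List.mem_range.1 hr)
  · simp [h2]

theorem code_two (c : Sym) (a : ℕ) (f : ℕ → Sym) (h0 : f 0 = c)
    (h1 : ∀ r, r < a → f (r + 1) = Sym.one) (h2 : f (a + 1) = Sym.stop) :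
    c :: unary a = (List.range (a + 2)).map f := by
  rw [List.range_succ_eq_map, List.map_cons, List.map_map, h0]
  congr 1
  exact unary_eq a _ h1 h2

theorem code_three (c : Sym) (a b : ℕ) (f : ℕ → Sym) (h0 : f 0 = c)
    (h1 : ∀ r, r < a → f (r + 1) = Sym.one) (h2 : f (a + 1) = Sym.stop)
    (h3 : ∀ r, r < b → f (a + 2 + r) = Sym.one) (h4 : f (a + b + 2) = Sym.stop) :
    c :: (unary a ++ unary b) = (List.range (a + b + 3)).map f := by
  rw [List.range_succ_eq_map, List.map_cons, List.map_map, h0]
  congr 1
  have e : a + b + 2 = (a + 1) + (b + 1) := by omega
  rw [e, List.range_add, List.map_append, List.map_map]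
  congr 1
  · exact unary_eq a _ h1 h2
  · apply unary_eq
    · intro r hr
      have := h3 r hr
      simp only [Function.comp_apply]
      rw [← this]
      congr 1
      omega
    · simp only [Function.comp_apply]
      rw [← h4]
      congr 1
      omega

theorem code_mkGate (o a b : ℕ) :
    (mkGate o a b).code = (List.range (gln o a b)).map fun r => phi (glt o a b r) := by
  rcases o with _ | _ | _ | _ | _ | o
  · simp [mkGate, Gate.code, gln, glt, phi]
  · simp [mkGate, Gate.code, gln, glt, phi]
  · simp only [mkGate, Gate.code]
    refine (code_two Sym.inp a (fun r => phi (glt 2 a b r)) ?_ ?_ ?_).trans ?_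
    · simp [glt, phi]
    · intro r hr
      simp only [glt]
      rw [if_neg (by first | omega | trivial), if_neg (by first | omega | trivial), if_neg (by first | omega | trivial), if_pos (by first | omega | trivial)]
      rfl
    · simp only [glt]
      rw [if_neg (by first | omega | trivial), if_neg (by first | omega | trivial), if_neg (by first | omega | trivial), if_neg (by first | omega | trivial),
        if_pos (by first | omega | trivial)]
      rfl
    · rfl
  · simp only [mkGate, Gate.code]
    refine (code_two Sym.not a (fun r => phi (glt 3 a b r)) ?_ ?_ ?_).trans ?_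
    · simp [glt, phi]
    · intro r hr
      simp only [glt]
      rw [if_neg (by first | omega | trivial), if_neg (by first | omega | trivial), if_neg (by first | omega | trivial), if_pos (by first | omega | trivial)]
      rfl
    · simp only [glt]
      rw [if_neg (by first | omega | trivial), if_neg (by first | omega | trivial), if_neg (by first | omega | trivial), if_neg (by first | omega | trivial),
        if_pos (by first | omega | trivial)]
      rfl
    · rfl
  · simp only [mkGate, Gate.code]
    refine (code_three Sym.and a b (fun r => phi (glt 4 a b r)) ?_ ?_ ?_ ?_ ?_).trans ?_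
    · simp [glt, phi]
    · intro r hr
      simp only [glt]
      rw [if_neg (by first | omega | trivial), if_neg (by first | omega | trivial), if_neg (by first | omega | trivial), if_pos (by first | omega | trivial)]
      rfl
    · simp only [glt]
      rw [if_neg (by first | omega | trivial), if_neg (by first | omega | trivial), if_neg (by first | omega | trivial), if_neg (by first | omega | trivial),
        if_pos (by first | omega | trivial)]
      rfl
    · intro r hr
      simp only [glt]
      rw [if_neg (by first | omega | trivial), if_neg (by first | omega | trivial), if_neg (by first | omega | trivial), if_neg (by first | omega | trivial),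
        if_neg (by first | omega | trivial), if_pos (by first | omega | trivial)]
      rfl
    · simp only [glt]
      rw [if_neg (by first | omega | trivial), if_neg (by first | omega | trivial), if_neg (by first | omega | trivial), if_neg (by first | omega | trivial),
        if_neg (by first | omega | trivial), if_neg (by first | omega | trivial)]
      rfl
    · rfl
  · have : mkGate (o + 5) a b = .or a b := rfl
    rw [this]
    simp only [Gate.code]
    refine (code_three Sym.or a b (fun r => phi (glt (o + 5) a b r)) ?_ ?_ ?_ ?_ ?_).trans ?_
    · simp only [glt]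
      rw [if_neg (by first | omega | trivial), if_neg (by first | omega | trivial), if_pos (by first | omega | trivial), if_neg (by first | omega | trivial),
        if_neg (by first | omega | trivial), if_neg (by first | omega | trivial)]
      rfl
    · intro r hr
      simp only [glt]
      rw [if_neg (by first | omega | trivial), if_neg (by first | omega | trivial), if_neg (by first | omega | trivial), if_pos (by first | omega | trivial)]
      rfl
    · simp only [glt]
      rw [if_neg (by first | omega | trivial), if_neg (by first | omega | trivial), if_neg (by first | omega | trivial), if_neg (by first | omega | trivial),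
        if_pos (by first | omega | trivial)]
      rfl
    · intro r hr
      simp only [glt]
      rw [if_neg (by first | omega | trivial), if_neg (by first | omega | trivial), if_neg (by first | omega | trivial), if_neg (by first | omega | trivial),
        if_neg (by first | omega | trivial), if_pos (by first | omega | trivial)]
      rfl
    · simp only [glt]
      rw [if_neg (by first | omega | trivial), if_neg (by first | omega | trivial), if_neg (by first | omega | trivial), if_neg (by first | omega | trivial),
        if_neg (by first | omega | trivial), if_neg (by first | omega | trivial)]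
      rfl
    · have : gln (o + 5) a b = a + b + 3 := by
        unfold gln
        rw [if_neg (by first | omega | trivial), if_neg (by first | omega | trivial)]
      rw [this]

/-! ### The terms -/

section Terms

variable {op a b : ℕ → ℕ → ℕ}

theorem uf_gln (hop : NF fun N e => op N (e 0)) (ha : NF fun N e => a N (e 0))
    (hb : NF fun N e => b N (e 0)) :
    UF (Γ := Unit) fun x e => gln (op x.length (e 0)) (a x.length (e 0)) (b x.length (e 0)) := by
  unfold NF at hop ha hb
  exact UF.ite (UP.lt hop (UF.const 2)) (UF.const 1)
    (UF.ite (UP.lt hop (UF.const 4)) (ha.add (UF.const 2)) ((ha.add hb).add (UF.const 3)))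

/-- with the number of the gate as variable 0, the number of the letter as variable 1 -/
theorem uf_glt (hop : NF fun N e => op N (e 0)) (ha : NF fun N e => a N (e 0))
    (hb : NF fun N e => b N (e 0)) :
    UF (Γ := Unit) fun x e =>
      glt (op x.length (e 0)) (a x.length (e 0)) (b x.length (e 0)) (e 1) := by
  unfold NF at hop ha hb
  have hr : UF (Γ := Unit) fun _ e => e 1 := UF.var 1
  exact UF.ite (UP.eq hop (UF.const 0)) (UF.const 2)
    (UF.ite (UP.eq hop (UF.const 1)) (UF.const 1)
      (UF.ite (UP.eq hr (UF.const 0))
        (UF.ite (UP.eq hop (UF.const 2)) (UF.const 0)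
          (UF.ite (UP.eq hop (UF.const 3)) (UF.const 3)
            (UF.ite (UP.eq hop (UF.const 4)) (UF.const 4) (UF.const 5))))
        (UF.ite (UP.le hr ha) (UF.const 6)
          (UF.ite (UP.eq hr (ha.add (UF.const 1))) (UF.const 7)
            (UF.ite (UP.le hr ((ha.add hb).add (UF.const 1))) (UF.const 6) (UF.const 7))))))

/-- the first letter of gate number `g` -/
def st (op a b : ℕ → ℕ → ℕ) (N g : ℕ) : ℕ :=
  ∑ g' ∈ Finset.range g, gln (op N g') (a N g') (b N g')

theorem uf_st (hop : NF fun N e => op N (e 0)) (ha : NF fun N e => a N (e 0))
    (hb : NF fun N e => b N (e 0)) {f : List Unit → (ℕ → ℕ) → ℕ} (hf : UF f) :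
    UF (Γ := Unit) fun x e => st op a b x.length (f x e) :=
  UF.sum (f := fun x _ g' => gln (op x.length g') (a x.length g') (b x.length g')) hf
    (uf_gln hop ha hb)

end Terms

end Unif

/-- NC3 (file Pool/Agent/NC/Uniform.lean); uses NC2 -/
theorem uniform_mkCircuit (S : ℕ → ℕ) (op a b : ℕ → ℕ → ℕ) (hS : NF fun N _ => S N)
    (hop : NF fun N e => op N (e 0)) (ha : NF fun N e => a N (e 0)) (hb : NF fun N e => b N (e 0)) :
    LogspaceUniform fun N => mkCircuit (S N) (op N) (a N) (b N) := by
  have hm : NF fun N _ => Unif.st op a b N (S N) := Unif.uf_st hop ha hb hS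
  have ht : NF fun N e => ∑ g ∈ Finset.range (S N),
      if Unif.st op a b N g ≤ e 0 ∧ e 0 < Unif.st op a b N (g + 1) then
        Unif.glt (op N g) (a N g) (b N g) (e 0 - Unif.st op a b N g) else 0 := by
    unfold NF
    refine UF.sum (f := fun x e g =>
      if Unif.st op a b x.length g ≤ e 0 ∧ e 0 < Unif.st op a b x.length (g + 1) then
        Unif.glt (op x.length g) (a x.length g) (b x.length g)
          (e 0 - Unif.st op a b x.length g) else 0) hS ?_
    have h0 : UF (Γ := Unit) fun _ e => e 0 := UF.var 0
    have h1 : UF (Γ := Unit) fun _ e => e 1 := UF.var 1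
    refine UF.ite ((UP.le (Unif.uf_st hop ha hb h0) h1).and
      (UP.lt h1 (Unif.uf_st hop ha hb (h0.add (UF.const 1))))) ?_ (UF.const 0)
    exact UF.comp₂ (f := fun x g r => Unif.glt (op x.length g) (a x.length g) (b x.length g) r)
      (Unif.uf_glt hop ha hb) h0 (h1.sub (Unif.uf_st hop ha hb h0))
  have hp := printed_of_terms _ (fun N i => ∑ g ∈ Finset.range (S N),
      if Unif.st op a b N g ≤ i ∧ i < Unif.st op a b N (g + 1) then
        Unif.glt (op N g) (a N g) (b N g) (i - Unif.st op a b N g) else 0) hm ht 7 Unif.phi
  unfold LogspaceUniform
  have he : (fun N => (mkCircuit (S N) (op N) (a N) (b N)).code) = fun N =>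
      (List.range (Unif.st op a b N (S N))).map fun i => Unif.phi (min (∑ g ∈ Finset.range (S N),
      if Unif.st op a b N g ≤ i ∧ i < Unif.st op a b N (g + 1) then
        Unif.glt (op N g) (a N g) (b N g) (i - Unif.st op a b N g) else 0) 7) := by
    funext N
    unfold Circuit.code mkCircuit
    rw [List.flatMap_map]
    simp only [Unif.code_mkGate]
    rw [Unif.flatMap_range Unif.phi (fun g => Unif.gln (op N g) (a N g) (b N g))
      (fun g r => Unif.glt (op N g) (a N g) (b N g) r) (S N)]
    apply List.map_congr_left
    intro i _
    congr 1
    symm
    apply min_eq_left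
    -- only one gate contains the letter number i
    by_cases hex : ∃ g ∈ Finset.range (S N),
        Unif.st op a b N g ≤ i ∧ i < Unif.st op a b N (g + 1)
    · obtain ⟨g, hg, hgi⟩ := hex
      rw [Finset.sum_eq_single_of_mem g hg]
      · rw [if_pos hgi]
        exact Unif.glt_le _ _ _ _
      · intro g' _ hne
        rw [if_neg]
        rintro ⟨h1, h2⟩
        have hmono : ∀ p q, p ≤ q → Unif.st op a b N p ≤ Unif.st op a b N q := by
          intro p q hpq
          unfold Unif.st
          exact Finset.sum_le_sum_of_subset (by
            intro z hz
            rw [Finset.mem_range] at *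
            omega)
        rcases lt_or_gt_of_ne hne with hlt | hlt
        · have := hmono (g' + 1) g hlt
          omega
        · have := hmono (g + 1) g' hlt
          omega
    · rw [Finset.sum_eq_zero]
      · omega
      · intro g hg
        rw [if_neg]
        intro h'
        exact hex ⟨g, hg, h'⟩
  rw [he]
  exact hp

end Pool.Agent.NC
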