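import Mathlib
import Pool.Agent.PT.UF
import Pool.Agent.NC.Defs
import Pool.Agent.NC.Lang
import Pool.Agent.NC.Uniform

/-!
# Languages given by node programs with polylogarithmic recursion depth are in NC
-/

set_option autoImplicit false

open Function (update)
open Pool.Agent.PT

namespace Pool.Agent.NC

namespace Nodes

/-! ### Closure properties -/

theorem nf_congr {f g : ℕ → (ℕ → ℕ) → ℕ} (hf : NF f) (h : ∀ N e, f N e = g N e) : NF g :=
  UF.congr hf fun x e => h x.length e

theorem nf_const (c : ℕ) : NF fun _ _ => c := UF.const c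

theorem nf_len : NF fun N _ => N := UF.len

theorem nf_var (i : ℕ) : NF fun _ e => e i := UF.var i

theorem nf_add {f g : ℕ → (ℕ → ℕ) → ℕ} (hf : NF f) (hg : NF g) : NF fun N e => f N e + g N e :=
  UF.add hf hg

theorem nf_sub {f g : ℕ → (ℕ → ℕ) → ℕ} (hf : NF f) (hg : NF g) : NF fun N e => f N e - g N e :=
  UF.sub hf hg

theorem nf_mul {f g : ℕ → (ℕ → ℕ) → ℕ} (hf : NF f) (hg : NF g) : NF fun N e => f N e * g N e :=
  UF.mul hf hg

theorem nf_div {f g : ℕ → (ℕ → ℕ) → ℕ} (hf : NF f) (hg : NF g) : NF fun N e => f N e / g N e :=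
  UF.div hf hg

theorem nf_mod {f g : ℕ → (ℕ → ℕ) → ℕ} (hf : NF f) (hg : NF g) : NF fun N e => f N e % g N e :=
  UF.mod hf hg

theorem nf_min {f g : ℕ → (ℕ → ℕ) → ℕ} (hf : NF f) (hg : NF g) :
    NF fun N e => min (f N e) (g N e) :=
  UF.min hf hg

theorem nf_pow {f : ℕ → (ℕ → ℕ) → ℕ} (hf : NF f) (k : ℕ) : NF fun N e => f N e ^ k :=
  UF.pow hf k

theorem nf_fsum {ι : Type*} (s : Finset ι) {F : ι → ℕ → (ℕ → ℕ) → ℕ} (hF : ∀ a ∈ s, NF (F a)) :
    NF fun N e => ∑ a ∈ s, F a N e :=
  UF.fsum s (F := fun a x e => F a x.length e) hF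

theorem nf_subst {f : ℕ → (ℕ → ℕ) → ℕ} (hf : NF f) (G : ℕ → ℕ → (ℕ → ℕ) → ℕ)
    (hG : ∀ i, NF (G i)) : NF fun N e => f N (fun i => G i N e) :=
  UF.subst (f := fun x e => f x.length e) hf (fun i x e => G i x.length e) hG

theorem nf_ite_lt {f g h k : ℕ → (ℕ → ℕ) → ℕ} (hf : NF f) (hg : NF g) (hh : NF h) (hk : NF k) :
    NF fun N e => if f N e < g N e then h N e else k N e :=
  UF.ite (Γ := Unit) (P := fun x e => f x.length e < g x.length e) (UP.lt hf hg) hh hk

theorem nf_ite_eq {f g h k : ℕ → (ℕ → ℕ) → ℕ} (hf : NF f) (hg : NF g) (hh : NF h) (hk : NF k) :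
    NF fun N e => if f N e = g N e then h N e else k N e :=
  UF.ite (Γ := Unit) (P := fun x e => f x.length e = g x.length e) (UP.eq hf hg) hh hk

theorem nf_ite_ne {f g h k : ℕ → (ℕ → ℕ) → ℕ} (hf : NF f) (hg : NF g) (hh : NF h) (hk : NF k) :
    NF fun N e => if f N e ≠ g N e then h N e else k N e :=
  UF.ite (Γ := Unit) (P := fun x e => f x.length e ≠ g x.length e) (UP.ne hf hg) hh hk

theorem nf_tev (t : Tm Unit) : NF fun N e => tev N t e := by
  refine ⟨t, fun x e => ?_⟩
  have h : x = List.replicate x.length () := by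
    rw [List.eq_replicate_iff]
    exact ⟨rfl, fun _ _ => rfl⟩
  change t.eval x e = t.eval (List.replicate x.length ()) e
  rw [← h]

/-- Selection among finitely many functions. -/
theorem nf_sel (n : ℕ) {q : ℕ → (ℕ → ℕ) → ℕ} (hq : NF q) (F : ℕ → ℕ → (ℕ → ℕ) → ℕ)
    (hF : ∀ k, k < n → NF (F k)) (hqn : ∀ N e, q N e < n) : NF fun N e => F (q N e) N e := by
  refine nf_congr (nf_fsum (Finset.range n) (F := fun k N e => if q N e = k then F k N e else 0)
    fun k hk => nf_ite_eq hq (nf_const k) (hF k (Finset.mem_range.1 hk)) (nf_const 0)) fun N e => ?_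
  rw [Finset.sum_ite_eq]
  simp [hqn N e]

/-- Numeric functions of the length are polynomially bounded. -/
theorem nf_poly {f : ℕ → ℕ} (hf : NF fun N _ => f N) : ∃ c, ∀ N, f N ≤ (N + 2) ^ c := by
  obtain ⟨t, ht⟩ := hf
  obtain ⟨T, hT⟩ := exists_spec (A := Unit) (fun _ : Unit => ()) (fun _ _ _ => rfl) () t
  obtain ⟨_, c, hc⟩ := hT.pb
  refine ⟨c, fun N => ?_⟩
  have h1 := hT.val N (List.replicate N ()) (fun _ => 0) (by simp) (fun _ => Nat.zero_le _)
  rw [ht] at h1
  change f (List.replicate N ()).length ≤ T N at h1
  rw [List.length_replicate] at h1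
  exact h1.trans (hc N)

/-! ### Values, depths and well-formedness of circuits given by functions -/

theorem mkCircuit_succ (S : ℕ) (op a b : ℕ → ℕ) :
    mkCircuit (S + 1) op a b = mkCircuit S op a b ++ [mkGate (op S) (a S) (b S)] := by
  simp [mkCircuit, List.range_succ]

theorem vals_mk (S : ℕ) (op a b : ℕ → ℕ) (x : List Bool) (V : ℕ → Bool)
    (hV : ∀ i, i < S → (mkGate (op i) (a i) (b i)).val x ((List.range i).map V) = V i) :
    (mkCircuit S op a b).vals x = (List.range S).map V := by
  induction S with
  | zero => rfl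
  | succ S ih =>
    have h := ih fun i hi => hV i (by omega)
    rw [mkCircuit_succ, Circuit.vals, List.foldl_append]
    change (mkCircuit S op a b).vals x ++ [_] = _
    change _ ++ [(mkGate (op S) (a S) (b S)).val x ((mkCircuit S op a b).vals x)] = _
    rw [h, hV S (by omega), List.range_succ, List.map_append]
    rfl

theorem getD_map_range {V : ℕ → Bool} {i j : ℕ} (h : j < i) (d : Bool) :
    ((List.range i).map V).getD j d = V j := by
  simp [List.getD, h]

theorem deps_append (C : Circuit) (g : Gate) :
    Circuit.deps (C ++ [g]) = C.deps ++ [g.dep C.deps] := by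
  rw [Circuit.deps, List.foldl_append]
  rfl

theorem deps_length (C : Circuit) : C.deps.length = C.length := by
  induction C using List.reverseRecOn with
  | nil => rfl
  | append_singleton C g ih =>
    rw [deps_append, List.length_append, ih]
    simp

/-- A function bounding the depth of the gates. -/
theorem deps_le (D : ℕ → ℕ) (C : Circuit)
    (hD : ∀ (j : ℕ) (g : Gate), C[j]? = some g → (match g with
      | .inp _ => True
      | .cst _ => True
      | .not a => a < j ∧ D a + 1 ≤ D j
      | .and a b => a < j ∧ b < j ∧ D a + 1 ≤ D j ∧ D b + 1 ≤ D j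
      | .or a b => a < j ∧ b < j ∧ D a + 1 ≤ D j ∧ D b + 1 ≤ D j)) :
    ∀ j, j < C.length → C.deps.getD j 0 ≤ D j := by
  induction C using List.reverseRecOn with
  | nil => simp
  | append_singleton C g ih =>
    have hd : Circuit.deps (C ++ [g]) = Circuit.deps C ++ [g.dep (Circuit.deps C)] :=
      deps_append C g
    have hl := deps_length C
    have ih' := ih fun j g' hg' => hD j g' (by
      have hj : j < C.length := by
        by_contra h
        rw [List.getElem?_eq_none (not_lt.1 h)] at hg'
        cases hg'
      rw [List.getElem?_append_left hj]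
      exact hg')
    intro j hj
    rw [hd]
    rw [List.length_append, List.length_singleton] at hj
    rcases Nat.lt_or_ge j C.length with h | h
    · have e : ((Circuit.deps C) ++ [g.dep (Circuit.deps C)]).getD j 0 = (Circuit.deps C).getD j 0 := by
        rw [List.getD_eq_getElem?_getD, List.getD_eq_getElem?_getD,
          List.getElem?_append_left (by omega)]
      rw [e]
      exact ih' j h
    · have hjj : j = C.length := by omega
      have e : ((Circuit.deps C) ++ [g.dep (Circuit.deps C)]).getD j 0 = g.dep (Circuit.deps C) := by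
        rw [List.getD_eq_getElem?_getD, List.getElem?_append_right (by omega)]
        simp [hjj, hl]
      rw [e]
      have hg := hD j g (by
        rw [List.getElem?_append_right (by omega)]
        simp [hjj])
      cases g with
      | inp i => exact Nat.zero_le _
      | cst b => exact Nat.zero_le _
      | not a =>
        have h1 := ih' a (by omega)
        change (Circuit.deps C).getD a 0 + 1 ≤ D j
        have := hg.2
        omega
      | and a b =>
        obtain ⟨ha, hb, h1, h2⟩ := hg
        have h3 := ih' a (by omega)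
        have h4 := ih' b (by omega)
        change max ((Circuit.deps C).getD a 0) ((Circuit.deps C).getD b 0) + 1 ≤ D j
        omega
      | or a b =>
        obtain ⟨ha, hb, h1, h2⟩ := hg
        have h3 := ih' a (by omega)
        have h4 := ih' b (by omega)
        change max ((Circuit.deps C).getD a 0) ((Circuit.deps C).getD b 0) + 1 ≤ D j
        omega

theorem mkCircuit_getElem? {S : ℕ} {op a b : ℕ → ℕ} {j : ℕ} {g : Gate}
    (h : (mkCircuit S op a b)[j]? = some g) : j < S ∧ g = mkGate (op j) (a j) (b j) := by
  unfold mkCircuit at h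
  rw [List.getElem?_map] at h
  rcases Nat.lt_or_ge j S with hj | hj
  · rw [List.getElem?_range hj] at h
    simp only [Option.map_some, Option.some.injEq] at h
    exact ⟨hj, h.symm⟩
  · rw [List.getElem?_eq_none (by simpa using hj)] at h
    cases h

/-! ### Mixed radix encoding of registers -/

/-- The code of the registers below `w`. -/
def enc (b : ℕ) (w : ℕ) (e : ℕ → ℕ) : ℕ := ∑ j ∈ Finset.range w, e j * b ^ j

theorem enc_succ (b w : ℕ) (e : ℕ → ℕ) :
    enc b (w + 1) e = e 0 + b * enc b w (fun j => e (j + 1)) := by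
  unfold enc
  rw [Finset.sum_range_succ']
  rw [Finset.mul_sum, add_comm]
  congr 1
  · simp
  · refine Finset.sum_congr rfl fun j _ => ?_
    ring

theorem enc_lt (b : ℕ) : ∀ (w : ℕ) (e : ℕ → ℕ), (∀ j, j < w → e j < b) → enc b w e < b ^ w
  | 0, _, _ => by simp [enc]
  | w + 1, e, h => by
    rw [enc_succ]
    have h1 := enc_lt b w (fun j => e (j + 1)) fun j hj => h (j + 1) (by omega)
    have h2 := h 0 (by omega)
    calc e 0 + b * enc b w (fun j => e (j + 1))
        < b + b * enc b w (fun j => e (j + 1)) := by omega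
      _ = b * (enc b w (fun j => e (j + 1)) + 1) := by ring
      _ ≤ b * b ^ w := Nat.mul_le_mul_left _ h1
      _ = b ^ (w + 1) := by ring

theorem enc_dec (b : ℕ) : ∀ (w : ℕ) (e : ℕ → ℕ), (∀ j, j < w → e j < b) → ∀ j, j < w →
    enc b w e / b ^ j % b = e j
  | 0, _, _ => fun j hj => absurd hj (Nat.not_lt_zero j)
  | w + 1, e, h => by
    intro j hj
    rw [enc_succ]
    have h0 := h 0 (by omega)
    cases j with
    | zero =>
      rw [pow_zero, Nat.div_one, Nat.add_mul_mod_self_left, Nat.mod_eq_of_lt h0]
    | succ j =>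
      rw [pow_succ', ← Nat.div_div_eq_div_mul, Nat.add_mul_div_left _ _ (by omega : 0 < b),
        Nat.div_eq_of_lt h0, zero_add]
      exact enc_dec b w (fun j => e (j + 1)) (fun j hj => h (j + 1) (by omega)) j (by omega)

/-- The registers with a given code. -/
def dec (b : ℕ) (w : ℕ) (m : ℕ) : ℕ → ℕ := fun j => if j < w then m / b ^ j % b else 0

theorem dec_enc (B w : ℕ) (e : ℕ → ℕ) (h : ∀ j, j < w → e j ≤ B) (h' : ∀ j, w ≤ j → e j = 0) :
    dec (B + 1) w (enc (B + 1) w e) = e := by
  funext j
  unfold dec
  split_ifs with hj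
  · exact enc_dec (B + 1) w e (fun j hj => Nat.lt_succ_of_le (h j hj)) j hj
  · exact (h' j (not_lt.1 hj)).symm

/-! ### The circuit -/

section

variable (prog : List Node) (w : ℕ) (B T : ℕ → ℕ)

/-- Number of configurations. -/
def W (N : ℕ) : ℕ := (prog.length + 1) * (B N + 1) ^ w

/-- The number of the gate of a child. -/
noncomputable def ref (N t q : ℕ) (ts : ℕ → Tm Unit) (e : ℕ → ℕ) : ℕ :=
  t * W prog w B N + (min q prog.length + (prog.length + 1) * enc (B N + 1) w (regs N w (B N) ts e))

/-- Operation code of the gate of a node. -/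
noncomputable def opN (nd : Node) (N : ℕ) (e : ℕ → ℕ) : ℕ :=
  match nd with
  | .cst P => if tev N P e ≠ 0 then 1 else 0
  | .inp a => if tev N a e < N then 2 else 0
  | .not _ _ => 3
  | .and _ _ _ _ => 4
  | .or _ _ _ _ => 5
  | .ite _ _ _ _ _ => 5

/-- First argument of the gate of a node. -/
noncomputable def aN (nd : Node) (N t : ℕ) (e : ℕ → ℕ) : ℕ :=
  match nd with
  | .cst _ => 0
  | .inp a => tev N a e
  | .not q ts => ref prog w B N t q ts e
  | .and q ts _ _ => ref prog w B N t q ts e
  | .or q ts _ _ => ref prog w B N t q ts e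
  | .ite P q ts q' ts' => if tev N P e ≠ 0 then ref prog w B N t q ts e
      else ref prog w B N t q' ts' e

/-- Second argument of the gate of a node. -/
noncomputable def bN (nd : Node) (N t : ℕ) (e : ℕ → ℕ) : ℕ :=
  match nd with
  | .cst _ => 0
  | .inp _ => 0
  | .not _ _ => 0
  | .and _ _ q' ts' => ref prog w B N t q' ts' e
  | .or _ _ q' ts' => ref prog w B N t q' ts' e
  | .ite P q ts q' ts' => if tev N P e ≠ 0 then ref prog w B N t q ts e
      else ref prog w B N t q' ts' e

/-- Node number in a gate number. -/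
def qG (N g : ℕ) : ℕ := g % W prog w B N % (prog.length + 1)

/-- Registers in a gate number. -/
def eG (N g : ℕ) : ℕ → ℕ := dec (B N + 1) w (g % W prog w B N / (prog.length + 1))

/-- The node with a given number. -/
def nd (q : ℕ) : Node := prog.getD q (.cst (.const 0))

/-- Operation codes. -/
noncomputable def op (N g : ℕ) : ℕ :=
  if T N < g / W prog w B N then 5
  else if g / W prog w B N = 0 then 0
  else opN (nd prog (qG prog w B N g)) N (eG prog w B N g)

/-- First arguments. -/
noncomputable def fa (N g : ℕ) : ℕ :=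
  if T N < g / W prog w B N then T N * W prog w B N
  else if g / W prog w B N = 0 then 0
  else aN prog w B (nd prog (qG prog w B N g)) N (g / W prog w B N - 1) (eG prog w B N g)

/-- Second arguments. -/
noncomputable def fb (N g : ℕ) : ℕ :=
  if T N < g / W prog w B N then T N * W prog w B N
  else if g / W prog w B N = 0 then 0
  else bN prog w B (nd prog (qG prog w B N g)) N (g / W prog w B N - 1) (eG prog w B N g)

/-- Number of gates. -/
def sz (N : ℕ) : ℕ := (T N + 1) * W prog w B N + 1

/-- Values of gates. -/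
noncomputable def V (x : List Bool) (g : ℕ) : Bool :=
  if T x.length < g / W prog w B x.length then
    nval prog w (B x.length) x (T x.length) 0 (fun _ => 0)
  else nval prog w (B x.length) x (g / W prog w B x.length) (qG prog w B x.length g)
    (eG prog w B x.length g)

end

section

variable {prog : List Node} {w : ℕ} {B T : ℕ → ℕ}

theorem W_pos (N : ℕ) : 0 < W prog w B N := by
  unfold W
  positivity

theorem regs_le (N : ℕ) (ts : ℕ → Tm Unit) (e : ℕ → ℕ) (j : ℕ) (hj : j < w) :
    regs N w (B N) ts e j ≤ B N := by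
  simp only [regs, clamp, if_pos hj]
  exact min_le_right _ _

theorem regs_zero (N : ℕ) (ts : ℕ → Tm Unit) (e : ℕ → ℕ) (j : ℕ) (hj : w ≤ j) :
    regs N w (B N) ts e j = 0 := by
  simp only [regs, clamp, if_neg (not_lt.2 hj)]

theorem conf_lt (N q : ℕ) (ts : ℕ → Tm Unit) (e : ℕ → ℕ) :
    min q prog.length + (prog.length + 1) * enc (B N + 1) w (regs N w (B N) ts e) <
      W prog w B N := by
  have h := enc_lt (B N + 1) w (regs N w (B N) ts e) fun j hj => Nat.lt_succ_of_le (regs_le N ts e j hj)
  have h1 : min q prog.length < prog.length + 1 := Nat.lt_succ_of_le (min_le_right _ _)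
  unfold W
  calc min q prog.length + (prog.length + 1) * enc (B N + 1) w (regs N w (B N) ts e)
      < (prog.length + 1) + (prog.length + 1) * enc (B N + 1) w (regs N w (B N) ts e) := by omega
    _ = (prog.length + 1) * (enc (B N + 1) w (regs N w (B N) ts e) + 1) := by ring
    _ ≤ (prog.length + 1) * (B N + 1) ^ w := Nat.mul_le_mul_left _ h

theorem ref_div (N t q : ℕ) (ts : ℕ → Tm Unit) (e : ℕ → ℕ) :
    ref prog w B N t q ts e / W prog w B N = t := by
  unfold ref
  rw [mul_comm t, Nat.mul_add_div (W_pos N), Nat.div_eq_of_lt (conf_lt N q ts e), add_zero]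

theorem ref_mod (N t q : ℕ) (ts : ℕ → Tm Unit) (e : ℕ → ℕ) :
    ref prog w B N t q ts e % W prog w B N =
      min q prog.length + (prog.length + 1) * enc (B N + 1) w (regs N w (B N) ts e) := by
  unfold ref
  rw [mul_comm t, Nat.mul_add_mod, Nat.mod_eq_of_lt (conf_lt N q ts e)]

theorem ref_q (N t q : ℕ) (ts : ℕ → Tm Unit) (e : ℕ → ℕ) :
    qG prog w B N (ref prog w B N t q ts e) = min q prog.length := by
  unfold qG
  rw [ref_mod, Nat.add_mul_mod_self_left, Nat.mod_eq_of_lt (Nat.lt_succ_of_le (min_le_right _ _))]

theorem ref_e (N t q : ℕ) (ts : ℕ → Tm Unit) (e : ℕ → ℕ) :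
    eG prog w B N (ref prog w B N t q ts e) = regs N w (B N) ts e := by
  unfold eG
  rw [ref_mod, Nat.add_mul_div_left _ _ (Nat.succ_pos _),
    Nat.div_eq_of_lt (Nat.lt_succ_of_le (min_le_right _ _)), zero_add]
  exact dec_enc (B N) w _ (regs_le N ts e) (regs_zero N ts e)

theorem ref_lt (N t q : ℕ) (ts : ℕ → Tm Unit) (e : ℕ → ℕ) :
    ref prog w B N t q ts e < (t + 1) * W prog w B N := by
  have h := conf_lt (prog := prog) (w := w) (B := B) N q ts e
  unfold ref
  calc _ < t * W prog w B N + W prog w B N := Nat.add_lt_add_left h _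
    _ = (t + 1) * W prog w B N := by ring

theorem nval_min (x : List Bool) (b t q : ℕ) (e : ℕ → ℕ) :
    nval prog w b x t (min q prog.length) e = nval prog w b x t q e := by
  rcases Nat.lt_or_ge q prog.length with h | h
  · rw [min_eq_left h.le]
  · rw [min_eq_right h]
    cases t with
    | zero => rfl
    | succ t =>
      have e1 : prog.getD prog.length (.cst (.const 0)) = .cst (.const 0) := by
        rw [List.getD_eq_getElem?_getD, List.getElem?_eq_none le_rfl]
        rfl
      have e2 : prog.getD q (.cst (.const 0)) = .cst (.const 0) := by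
        rw [List.getD_eq_getElem?_getD, List.getElem?_eq_none h]
        rfl
      simp only [nval]
      rw [e1, e2]

theorem V_ref (x : List Bool) (t q : ℕ) (ts : ℕ → Tm Unit) (e : ℕ → ℕ) (ht : t ≤ T x.length) :
    V prog w B T x (ref prog w B x.length t q ts e) =
      nval prog w (B x.length) x t q (regs x.length w (B x.length) ts e) := by
  unfold V
  rw [ref_div, if_neg (not_lt.2 ht), ref_q, ref_e, nval_min]

theorem V_top (x : List Bool) :
    V prog w B T x (T x.length * W prog w B x.length) =
      nval prog w (B x.length) x (T x.length) 0 (fun _ => 0) := by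
  have h1 : T x.length * W prog w B x.length / W prog w B x.length = T x.length :=
    Nat.mul_div_cancel _ (W_pos _)
  have h2 : T x.length * W prog w B x.length % W prog w B x.length = 0 := Nat.mul_mod_left _ _
  unfold V
  rw [h1, if_neg (lt_irrefl _)]
  unfold qG eG
  rw [h2, Nat.zero_mod, Nat.zero_div]
  congr 1
  funext j
  simp [dec]

theorem V_spec (x : List Bool) (g : ℕ) :
    (mkGate (op prog w B T x.length g) (fa prog w B T x.length g) (fb prog w B T x.length g)).val x
      ((List.range g).map (V prog w B T x)) = V prog w B T x g := by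
  set N := x.length with hN
  have hW := W_pos (prog := prog) (w := w) (B := B) N
  have hg : g / W prog w B N * W prog w B N ≤ g := Nat.div_mul_le_self _ _
  by_cases h1 : T N < g / W prog w B N
  · have hlt : T N * W prog w B N < g := by
      have : (T N + 1) * W prog w B N ≤ g / W prog w B N * W prog w B N :=
        Nat.mul_le_mul_right _ h1
      rw [add_mul, one_mul] at this
      omega
    have e0 : V prog w B T x g = nval prog w (B N) x (T N) 0 (fun _ => 0) := by
      unfold V
      rw [← hN, if_pos h1]
    simp only [op, fa, fb, if_pos h1, mkGate, Gate.val]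
    rw [getD_map_range hlt, V_top, Bool.or_self, e0]
  · by_cases h2 : g / W prog w B N = 0
    · have e0 : V prog w B T x g = false := by
        unfold V
        rw [← hN, if_neg h1, h2]
        rfl
      simp only [op, if_neg h1, if_pos h2, mkGate, Gate.val]
      exact e0.symm
    · obtain ⟨t, ht⟩ := Nat.exists_eq_succ_of_ne_zero h2
      have hr : ∀ q ts, ref prog w B N t q ts (eG prog w B N g) < g := fun q ts => by
        have := ref_lt (prog := prog) (w := w) (B := B) N t q ts (eG prog w B N g)
        rw [ht] at hg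
        exact this.trans_le hg
      have hv : ∀ q ts, ((List.range g).map (V prog w B T x)).getD
          (ref prog w B N t q ts (eG prog w B N g)) false =
          nval prog w (B N) x t q (regs N w (B N) ts (eG prog w B N g)) := fun q ts => by
        rw [getD_map_range (hr q ts), V_ref]
        rw [← hN]
        omega
      have e0 : V prog w B T x g = nval prog w (B N) x (t + 1) (qG prog w B N g)
          (eG prog w B N g) := by
        unfold V
        rw [← hN, if_neg h1, ht]
      rw [e0]
      simp only [op, fa, fb, if_neg h1, if_neg h2, nval]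
      rw [ht, Nat.succ_sub_one]
      change _ = (match nd prog (qG prog w B N g) with
        | .cst P => decide (tev x.length P (eG prog w B N g) ≠ 0)
        | .inp a => x.getD (tev x.length a (eG prog w B N g)) false
        | .not q ts => !(nval prog w (B N) x t q (regs x.length w (B N) ts (eG prog w B N g)))
        | .and q ts q' ts' => nval prog w (B N) x t q (regs x.length w (B N) ts (eG prog w B N g)) &&
            nval prog w (B N) x t q' (regs x.length w (B N) ts' (eG prog w B N g))
        | .or q ts q' ts' => nval prog w (B N) x t q (regs x.length w (B N) ts (eG prog w B N g)) ||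
            nval prog w (B N) x t q' (regs x.length w (B N) ts' (eG prog w B N g))
        | .ite P q ts q' ts' => if tev x.length P (eG prog w B N g) ≠ 0 then
              nval prog w (B N) x t q (regs x.length w (B N) ts (eG prog w B N g))
            else nval prog w (B N) x t q' (regs x.length w (B N) ts' (eG prog w B N g)))
      rw [← hN]
      cases nd prog (qG prog w B N g) with
      | cst P =>
        simp only [opN]
        split_ifs with h <;> simp [mkGate, Gate.val, h]
      | inp a =>
        simp only [opN, aN]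
        split_ifs with h
        · simp [mkGate, Gate.val]
        · simp only [mkGate, Gate.val]
          rw [List.getD_eq_getElem?_getD, List.getElem?_eq_none (by omega)]
          rfl
      | not q ts =>
        simp only [opN, aN, mkGate, Gate.val]
        rw [hv]
      | and q ts q' ts' =>
        simp only [opN, aN, bN, mkGate, Gate.val]
        rw [hv, hv]
      | or q ts q' ts' =>
        simp only [opN, aN, bN, mkGate, Gate.val]
        rw [hv, hv]
      | ite P q ts q' ts' =>
        simp only [opN, aN, bN, mkGate, Gate.val]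
        split_ifs with h
        · rw [hv, Bool.or_self]
        · rw [hv, Bool.or_self]

theorem eval_eq (x : List Bool) :
    (mkCircuit (sz prog w B T x.length) (op prog w B T x.length) (fa prog w B T x.length)
      (fb prog w B T x.length)).eval x = nval prog w (B x.length) x (T x.length) 0 (fun _ => 0) := by
  rw [Circuit.eval, vals_mk _ _ _ _ x (V prog w B T x) (fun i _ => V_spec x i), sz,
    List.range_succ, List.map_append]
  have h : ∀ (l : List Bool) (b : Bool), (l ++ [b]).getLastD false = b := fun l b => by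
    rw [List.getLastD_eq_getLast?]
    simp
  rw [List.map_cons, List.map_nil, h]
  unfold V
  rw [Nat.mul_div_cancel _ (W_pos _), if_pos (Nat.lt_succ_self _)]

/-- The properties of the gates. -/
theorem gate_spec (N g : ℕ) :
    (match mkGate (op prog w B T N g) (fa prog w B T N g) (fb prog w B T N g) with
      | .inp i => i < N
      | .cst _ => True
      | .not a => a < g ∧ a / W prog w B N + 1 ≤ g / W prog w B N
      | .and a b => (a < g ∧ a / W prog w B N + 1 ≤ g / W prog w B N) ∧
          (b < g ∧ b / W prog w B N + 1 ≤ g / W prog w B N)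
      | .or a b => (a < g ∧ a / W prog w B N + 1 ≤ g / W prog w B N) ∧
          (b < g ∧ b / W prog w B N + 1 ≤ g / W prog w B N)) := by
  have hW := W_pos (prog := prog) (w := w) (B := B) N
  have hg : g / W prog w B N * W prog w B N ≤ g := Nat.div_mul_le_self _ _
  by_cases h1 : T N < g / W prog w B N
  · have hlt : T N * W prog w B N < g := by
      have : (T N + 1) * W prog w B N ≤ g / W prog w B N * W prog w B N :=
        Nat.mul_le_mul_right _ h1
      rw [add_mul, one_mul] at this
      omega
    have hd : T N * W prog w B N / W prog w B N = T N := Nat.mul_div_cancel _ hW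
    simp only [op, fa, fb, if_pos h1, mkGate]
    rw [hd]
    exact ⟨⟨hlt, h1⟩, ⟨hlt, h1⟩⟩
  · by_cases h2 : g / W prog w B N = 0
    · simp only [op, if_neg h1, if_pos h2, mkGate]
    · obtain ⟨t, ht⟩ := Nat.exists_eq_succ_of_ne_zero h2
      have hr : ∀ q ts, ref prog w B N t q ts (eG prog w B N g) < g ∧
          ref prog w B N t q ts (eG prog w B N g) / W prog w B N + 1 ≤ g / W prog w B N :=
        fun q ts => by
          have := ref_lt (prog := prog) (w := w) (B := B) N t q ts (eG prog w B N g)
          rw [ref_div]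
          rw [ht] at hg ⊢
          exact ⟨this.trans_le hg, le_rfl⟩
      simp only [op, fa, fb, if_neg h1, if_neg h2]
      have ht' : g / W prog w B N - 1 = t := by omega
      rw [ht']
      cases nd prog (qG prog w B N g) with
      | cst P =>
        simp only [opN]
        split_ifs with h <;> simp [mkGate]
      | inp a =>
        simp only [opN, aN]
        split_ifs with h
        · simpa [mkGate] using h
        · simp [mkGate]
      | not q ts =>
        simp only [opN, aN, mkGate]
        exact hr q ts
      | and q ts q' ts' =>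
        simp only [opN, aN, bN, mkGate]
        exact ⟨hr q ts, hr q' ts'⟩
      | or q ts q' ts' =>
        simp only [opN, aN, bN, mkGate]
        exact ⟨hr q ts, hr q' ts'⟩
      | ite P q ts q' ts' =>
        simp only [opN, aN, bN, mkGate]
        split_ifs with h
        · exact ⟨hr q ts, hr q ts⟩
        · exact ⟨hr q' ts', hr q' ts'⟩

theorem circuit_wf (N S : ℕ) :
    (mkCircuit S (op prog w B T N) (fa prog w B T N) (fb prog w B T N)).WF N := by
  intro j g hj
  obtain ⟨_, rfl⟩ := mkCircuit_getElem? hj
  have h := gate_spec (prog := prog) (w := w) (B := B) (T := T) N j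
  revert h
  cases mkGate (op prog w B T N j) (fa prog w B T N j) (fb prog w B T N j) with
  | inp i => exact fun h => h
  | cst b => exact fun h => h
  | not a => exact fun h => h.1
  | and a b => exact fun h => ⟨h.1.1, h.2.1⟩
  | or a b => exact fun h => ⟨h.1.1, h.2.1⟩

theorem circuit_depth (N : ℕ) :
    (mkCircuit (sz prog w B T N) (op prog w B T N) (fa prog w B T N) (fb prog w B T N)).DepthLE
      (T N + 1) := by
  set C := mkCircuit (sz prog w B T N) (op prog w B T N) (fa prog w B T N) (fb prog w B T N) with hC
  have hl : C.length = sz prog w B T N := by simp [hC, mkCircuit]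
  have h := deps_le (fun g => g / W prog w B N) C (by
    intro j g hj
    obtain ⟨_, rfl⟩ := mkCircuit_getElem? hj
    have h := gate_spec (prog := prog) (w := w) (B := B) (T := T) N j
    revert h
    cases mkGate (op prog w B T N j) (fa prog w B T N j) (fb prog w B T N j) with
    | inp i => exact fun _ => trivial
    | cst b => exact fun _ => trivial
    | not a => exact fun h => h
    | and a b => exact fun h => ⟨h.1.1, h.2.1, h.1.2, h.2.2⟩
    | or a b => exact fun h => ⟨h.1.1, h.2.1, h.1.2, h.2.2⟩)
  intro d hd
  obtain ⟨j, hj, rfl⟩ := List.getElem_of_mem hd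
  have hj' : j < sz prog w B T N := by rw [← hl, ← deps_length]; exact hj
  have h1 := h j (by omega)
  rw [List.getD_eq_getElem _ _ hj] at h1
  refine h1.trans ?_
  unfold sz at hj'
  calc j / W prog w B N ≤ ((T N + 1) * W prog w B N) / W prog w B N :=
        Nat.div_le_div_right (by omega)
    _ = T N + 1 := Nat.mul_div_cancel _ (W_pos N)

/-! ### The gate functions are numeric functions -/

theorem nf_W (hB : NF fun N _ => B N) : NF fun N _ => W prog w B N :=
  nf_mul (nf_const _) (nf_pow (nf_add hB (nf_const 1)) w)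

theorem nf_sz (hB : NF fun N _ => B N) (hT : NF fun N _ => T N) : NF fun N _ => sz prog w B T N :=
  nf_add (nf_mul (nf_add hT (nf_const 1)) (nf_W hB)) (nf_const 1)

theorem nf_ref (hB : NF fun N _ => B N) {t : ℕ → (ℕ → ℕ) → ℕ} (ht : NF t) (q : ℕ)
    (ts : ℕ → Tm Unit) : NF fun N e => ref prog w B N (t N e) q ts e := by
  have h1 : NF fun N e => enc (B N + 1) w (regs N w (B N) ts e) := by
    unfold enc
    refine nf_fsum (Finset.range w) (F := fun j N e => regs N w (B N) ts e j * (B N + 1) ^ j)
      fun j hj => nf_mul ?_ (nf_pow (nf_add hB (nf_const 1)) j)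
    simp only [regs, clamp, if_pos (Finset.mem_range.1 hj)]
    exact nf_min (nf_tev _) hB
  exact nf_add (nf_mul ht (nf_W hB)) (nf_add (nf_const _) (nf_mul (nf_const _) h1))

theorem nf_qG (hB : NF fun N _ => B N) : NF fun N e => qG prog w B N (e 0) :=
  nf_mod (nf_mod (nf_var 0) (nf_W hB)) (nf_const _)

theorem nf_eG (hB : NF fun N _ => B N) (i : ℕ) : NF fun N e => eG prog w B N (e 0) i := by
  unfold eG dec
  by_cases h : i < w
  · simp only [if_pos h]
    exact nf_mod (nf_div (nf_div (nf_mod (nf_var 0) (nf_W hB)) (nf_const _))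
      (nf_pow (nf_add hB (nf_const 1)) i)) (nf_add hB (nf_const 1))
  · simp only [if_neg h]
    exact nf_const 0

/-- Level in a gate number. -/
theorem nf_lev (hB : NF fun N _ => B N) : NF fun N e => e 0 / W prog w B N :=
  nf_div (nf_var 0) (nf_W hB)

/-- Substitution of the registers and of the level. -/
theorem nf_at (hB : NF fun N _ => B N) (F : ℕ → ℕ → (ℕ → ℕ) → ℕ)
    (hF : NF fun N e => F N (e 0) (fun i => e (i + 1))) :
    NF fun N e => F N (e 0 / W prog w B N - 1) (eG prog w B N (e 0)) := by
  have := nf_subst hF (fun i => Nat.casesOn i (fun N e => e 0 / W prog w B N - 1)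
    (fun i N e => eG prog w B N (e 0) i)) (fun i => by
      cases i with
      | zero => exact nf_sub (nf_lev hB) (nf_const 1)
      | succ i => exact nf_eG hB i)
  exact this

theorem nf_shift {f : ℕ → (ℕ → ℕ) → ℕ} (hf : NF f) : NF fun N e => f N (fun i => e (i + 1)) :=
  nf_subst hf (fun i _ e => e (i + 1)) fun i => nf_var (i + 1)

theorem nf_ref' (hB : NF fun N _ => B N) (q : ℕ) (ts : ℕ → Tm Unit) :
    NF fun N e => ref prog w B N (e 0) q ts (fun i => e (i + 1)) := by
  have h1 : NF fun N e => enc (B N + 1) w (regs N w (B N) ts e) := by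
    unfold enc
    refine nf_fsum (Finset.range w) (F := fun j N e => regs N w (B N) ts e j * (B N + 1) ^ j)
      fun j hj => nf_mul ?_ (nf_pow (nf_add hB (nf_const 1)) j)
    simp only [regs, clamp, if_pos (Finset.mem_range.1 hj)]
    exact nf_min (nf_tev _) hB
  exact nf_add (nf_mul (nf_var 0) (nf_W hB)) (nf_add (nf_const _)
    (nf_mul (nf_const _) (nf_shift h1)))

theorem nf_opN (n : Node) : NF fun N e => opN n N (fun i => e (i + 1)) := by
  cases n with
  | cst P => exact nf_ite_ne (nf_shift (nf_tev P)) (nf_const 0) (nf_const 1) (nf_const 0)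
  | inp a => exact nf_ite_lt (nf_shift (nf_tev a)) nf_len (nf_const 2) (nf_const 0)
  | not q ts => exact nf_const 3
  | and q ts q' ts' => exact nf_const 4
  | or q ts q' ts' => exact nf_const 5
  | ite P q ts q' ts' => exact nf_const 5

theorem nf_aN (hB : NF fun N _ => B N) (n : Node) :
    NF fun N e => aN prog w B n N (e 0) (fun i => e (i + 1)) := by
  cases n with
  | cst P => exact nf_const 0
  | inp a => exact nf_shift (nf_tev a)
  | not q ts => exact nf_ref' hB q ts
  | and q ts q' ts' => exact nf_ref' hB q ts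
  | or q ts q' ts' => exact nf_ref' hB q ts
  | ite P q ts q' ts' =>
    exact nf_ite_ne (nf_shift (nf_tev P)) (nf_const 0) (nf_ref' hB q ts) (nf_ref' hB q' ts')

theorem nf_bN (hB : NF fun N _ => B N) (n : Node) :
    NF fun N e => bN prog w B n N (e 0) (fun i => e (i + 1)) := by
  cases n with
  | cst P => exact nf_const 0
  | inp a => exact nf_const 0
  | not q ts => exact nf_const 0
  | and q ts q' ts' => exact nf_ref' hB q' ts'
  | or q ts q' ts' => exact nf_ref' hB q' ts'
  | ite P q ts q' ts' =>
    exact nf_ite_ne (nf_shift (nf_tev P)) (nf_const 0) (nf_ref' hB q ts) (nf_ref' hB q' ts')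

theorem qG_lt (N g : ℕ) : qG prog w B N g < prog.length + 1 := Nat.mod_lt _ (Nat.succ_pos _)

theorem nf_op (hB : NF fun N _ => B N) (hT : NF fun N _ => T N) :
    NF fun N e => op prog w B T N (e 0) := by
  refine nf_ite_lt hT (nf_lev hB) (nf_const 5) (nf_ite_eq (nf_lev hB) (nf_const 0) (nf_const 0) ?_)
  exact nf_sel (prog.length + 1) (q := fun N e => qG prog w B N (e 0)) (nf_qG hB)
    (fun k N e => opN (nd prog k) N (eG prog w B N (e 0)))
    (fun k _ => nf_at hB (fun N _ e => opN (nd prog k) N e) (nf_opN _)) (fun N e => qG_lt N (e 0))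

theorem nf_fa (hB : NF fun N _ => B N) (hT : NF fun N _ => T N) :
    NF fun N e => fa prog w B T N (e 0) := by
  refine nf_ite_lt hT (nf_lev hB) (nf_mul hT (nf_W hB))
    (nf_ite_eq (nf_lev hB) (nf_const 0) (nf_const 0) ?_)
  exact nf_sel (prog.length + 1) (q := fun N e => qG prog w B N (e 0)) (nf_qG hB)
    (fun k N e => aN prog w B (nd prog k) N (e 0 / W prog w B N - 1) (eG prog w B N (e 0)))
    (fun k _ => nf_at hB (fun N t e => aN prog w B (nd prog k) N t e) (nf_aN hB _))
    (fun N e => qG_lt N (e 0))

theorem nf_fb (hB : NF fun N _ => B N) (hT : NF fun N _ => T N) :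
    NF fun N e => fb prog w B T N (e 0) := by
  refine nf_ite_lt hT (nf_lev hB) (nf_mul hT (nf_W hB))
    (nf_ite_eq (nf_lev hB) (nf_const 0) (nf_const 0) ?_)
  exact nf_sel (prog.length + 1) (q := fun N e => qG prog w B N (e 0)) (nf_qG hB)
    (fun k N e => bN prog w B (nd prog k) N (e 0 / W prog w B N - 1) (eG prog w B N (e 0)))
    (fun k _ => nf_at hB (fun N t e => bN prog w B (nd prog k) N t e) (nf_bN hB _))
    (fun N e => qG_lt N (e 0))

end

/-! ### Bounds -/

theorem poly_bound (c : ℕ) : ∃ k₀, ∀ k, k₀ ≤ k → ∀ N, (N + 2) ^ c ≤ N ^ k + k := by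
  refine ⟨2 * c + 3 ^ c, fun k hk N => ?_⟩
  rcases Nat.lt_or_ge N 2 with h | h
  · have h1 : (N + 2) ^ c ≤ 3 ^ c := Nat.pow_le_pow_left (by omega) c
    omega
  · have h1 : N + 2 ≤ N ^ 2 := by nlinarith
    calc (N + 2) ^ c ≤ (N ^ 2) ^ c := Nat.pow_le_pow_left h1 c
      _ = N ^ (2 * c) := (pow_mul N 2 c).symm
      _ ≤ N ^ k := Nat.pow_le_pow_right (by omega) ((Nat.le_add_right _ _).trans hk)
      _ ≤ N ^ k + k := Nat.le_add_right _ _

theorem log_bound {T : ℕ → ℕ} (hT : PolyLog T) :
    ∃ k₀, ∀ k, k₀ ≤ k → ∀ N, T N + 1 ≤ (Nat.log 2 N + 1) ^ k + k := by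
  obtain ⟨k₀, h⟩ := hT
  refine ⟨k₀ + 1, fun k hk N => ?_⟩
  have h1 : (Nat.log 2 N + 1) ^ k₀ ≤ (Nat.log 2 N + 1) ^ k :=
    Nat.pow_le_pow_right (by omega) (by omega)
  have := h N
  omega

end Nodes

open Nodes in
/-- NC4 (file Pool/Agent/NC/Nodes.lean); uses NC3 -/
theorem nc_of_nodes (prog : List Node) (w : ℕ) (B T : ℕ → ℕ) (hB : NF fun N _ => B N)
    (hT : NF fun N _ => T N) (hTl : PolyLog T) (L : Set (List Bool))
    (hL : ∀ x, x ∈ L ↔ nval prog w (B x.length) x (T x.length) 0 (fun _ => 0) = true) : InNC L := by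
  have hS := nf_sz (prog := prog) (w := w) hB hT
  obtain ⟨c, hc⟩ := nf_poly hS
  obtain ⟨k₁, hk₁⟩ := poly_bound c
  obtain ⟨k₂, hk₂⟩ := log_bound hTl
  refine ⟨fun N => mkCircuit (sz prog w B T N) (op prog w B T N) (fa prog w B T N)
    (fb prog w B T N), max k₁ k₂, uniform_mkCircuit (sz prog w B T) (op prog w B T)
    (fa prog w B T) (fb prog w B T) hS (nf_op hB hT) (nf_fa hB hT) (nf_fb hB hT), fun N =>
    ⟨circuit_wf N _, ?_, ?_, ?_⟩⟩
  · simp only [mkCircuit, List.length_map, List.length_range]
    exact (hc N).trans (hk₁ _ (le_max_left _ _) N)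
  · intro e he
    exact (circuit_depth N e he).trans (hk₂ _ (le_max_right _ _) N)
  · rintro x rfl
    rw [eval_eq]
    exact hL x

end Pool.Agent.NC
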