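import Mathlib
import Pool.Agent.PT.UF
import Pool.Agent.NC.Lang

/-!
# Words given letter by letter by terms are printed by counter programs

The compiler of `Pool/Agent/PT/Term.lean` produces stack programs; over the one-letter alphabet a
stack program is a counter program.
-/

set_option autoImplicit false

namespace Pool.Agent.NC

open Function (update)
open Pool.Agent.PT

theorem exec_length_le {A : Type} {p : Prog A} {s s' : Store A} {t : ℕ} (h : Exec p s s' t) :
    ∀ r, (s' r).length ≤ (s r).length + t := by
  induction h with
  | skip s => intro r; omega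
  | push r a s =>
    intro r'
    by_cases e : r' = r
    · subst e; simp
    · rw [Function.update_of_ne e]; omega
  | popNil h he ih => intro r; have := ih r; omega
  | @popCons r p₀ p₁ s s' t a l h he ih =>
    intro r'
    have h1 := ih r'
    by_cases e : r' = r
    · subst e
      rw [Function.update_self] at h1
      rw [h, List.length_cons]
      omega
    · rw [Function.update_of_ne e] at h1; omega
  | seq h h' ih ih' => intro r; have := ih r; have := ih' r; omega
  | loopNil h => intro r; omega
  | @loopCons r p s s' s'' t t' a l h h1 h2 ih1 ih2 =>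
    intro r'
    have h3 := ih1 r'
    have h4 := ih2 r'
    by_cases e : r' = r
    · subst e
      rw [Function.update_self] at h3
      rw [h, List.length_cons]
      omega
    · rw [Function.update_of_ne e] at h3; omega

/-- The counter program of a stack program over the one-letter alphabet. -/
def toCP {O : Type} : Prog Unit → CP O
  | .skip => .skip
  | .push r _ => .inc r
  | .pop r p₀ p₁ => .pop r (toCP p₀) (toCP (p₁ ()))
  | .seq p q => .seq (toCP p) (toCP q)
  | .loop r p => .loop r (toCP (p ()))

/-- The counters of a store. -/
def ln (s : Store Unit) : ℕ → ℕ := fun r => (s r).length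

theorem ln_update (s : Store Unit) (r : ℕ) (l : List Unit) :
    ln (update s r l) = update (ln s) r l.length := by
  funext i
  by_cases e : i = r
  · subst e; simp [ln]
  · simp [ln, e]

theorem cexec_toCP {O : Type} {B : ℕ} {p : Prog Unit} {s s' : Store Unit} {t : ℕ}
    (h : Exec p s s' t) : ∀ (o : List O), (∀ r, (s r).length + t ≤ B) →
      CExec B (toCP p) (ln s) o (ln s') o := by
  induction h with
  | skip s => intro o _; exact CExec.skip _ _
  | push r a s =>
    intro o hB
    rw [ln_update, List.length_cons]
    exact CExec.inc r (ln s) o (by have := hB r; simp only [ln]; omega)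
  | popNil h he ih =>
    intro o hB
    exact CExec.popZero (by simp [ln, h]) (ih o fun r => by have := hB r; omega)
  | @popCons r p₀ p₁ s s' t a l h he ih =>
    intro o hB
    have h1 := ih o (fun r' => by
      have := hB r'
      by_cases e : r' = r
      · subst e
        rw [h, List.length_cons] at this
        rw [Function.update_self]; omega
      · rw [Function.update_of_ne e]; omega)
    rw [ln_update] at h1
    exact CExec.popSucc (n := l.length) (by simp [ln, h]) h1
  | seq h h' ih ih' =>
    intro o hB
    refine CExec.seq (ih o fun r => by have := hB r; omega) (ih' o fun r => ?_)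
    have := hB r
    have := exec_length_le h r
    omega
  | loopNil h => intro o _; exact CExec.loopZero (by simp [ln, h])
  | @loopCons r p s s' s'' t t' a l h h1 h2 ih1 ih2 =>
    intro o hB
    have hb : ∀ r', (update s r l r').length + (t + t') ≤ B := by
      intro r'
      have := hB r'
      by_cases e : r' = r
      · subst e
        rw [h, List.length_cons] at this
        rw [Function.update_self]; omega
      · rw [Function.update_of_ne e]; omega
    have g1 := ih1 o (fun r' => by have := hb r'; omega)
    have g2 := ih2 o (fun r' => by
      have := hb r'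
      have := exec_length_le h1 r'
      omega)
    rw [ln_update] at g1
    exact CExec.loopSucc (n := l.length) (by simp [ln, h]) g1 g2

theorem cexec_runs {O : Type} {B T : ℕ} {p : Prog Unit} {s s' : Store Unit}
    (h : Runs p s s' T) (o : List O) (hB : ∀ r, (s r).length + T ≤ B) :
      CExec B (toCP p) (ln s) o (ln s') o := by
  obtain ⟨t, ht, he⟩ := h
  exact cexec_toCP he o fun r => by have := hB r; omega

/-- Emptying a counter. -/
theorem cexec_clear {O : Type} (B r : ℕ) (o : List O) : ∀ (v : ℕ) (s : ℕ → ℕ), s r = v →
    CExec B (CP.loop r CP.skip) s o (update s r 0) o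
  | 0, s, hs => by
    have : update s r 0 = s := by
      funext i
      by_cases e : i = r
      · subst e; simp [hs]
      · simp [e]
    rw [this]
    exact CExec.loopZero hs
  | v + 1, s, hs => by
    have h1 := cexec_clear B r o v (update s r v) (by simp)
    rw [Function.update_idem] at h1
    exact CExec.loopSucc hs (CExec.skip _ _) h1

/-- Printing `φ (min v K)` where `v` is the value of the counter `r`; the counter is cleared. -/
def dispC {O : Type} (r : ℕ) : ℕ → (ℕ → O) → CP O
  | 0, φ => CP.seq (CP.loop r CP.skip) (CP.out (φ 0))
  | K + 1, φ => CP.pop r (CP.out (φ 0)) (dispC r K (fun n => φ (n + 1)))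

theorem cexec_disp {O : Type} (B r : ℕ) (o : List O) : ∀ (K : ℕ) (φ : ℕ → O) (v : ℕ) (s : ℕ → ℕ),
    s r = v → CExec B (dispC r K φ) s o (update s r 0) (φ (min v K) :: o)
  | 0, φ, v, s, hs => by
    have h1 := CExec.seq (cexec_clear B r o v s hs) (CExec.out (B := B) (φ 0) (update s r 0) o)
    rwa [Nat.min_zero]
  | K + 1, φ, 0, s, hs => by
    have : update s r 0 = s := by
      funext i
      by_cases e : i = r
      · subst e; simp [hs]
      · simp [e]
    rw [this, Nat.zero_min]
    exact CExec.popZero hs (CExec.out _ _ _)
  | K + 1, φ, v + 1, s, hs => by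
    have h1 := cexec_disp B r o K (fun n => φ (n + 1)) v (update s r v) (by simp)
    rw [Function.update_idem] at h1
    have e : min (v + 1) (K + 1) = min v K + 1 := by omega
    rw [e]
    exact CExec.popSucc hs h1

/-- The printing loop. -/
theorem cexec_print {O : Type} (t : Tm Unit) (T : ℕ → ℕ) (ht : Spec id () t T) (N B : ℕ)
    (x : List Unit) (hx : x.length ≤ N) (hB : N + T N ≤ B) (K : ℕ) (φ : ℕ → O) :
    ∀ (b : ℕ) (o : List O) (s : Store Unit), b ≤ N → s 0 = x → s 1 = [] → s 2 = [] → s 3 = [] →
      s 4 = un () b → (∀ j, 5 ≤ j → s j = []) →
      CExec B (CP.loop 4 (CP.seq (toCP (t.comp id () (fun i => Nat.casesOn i 4 (fun _ => 3)) 5))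
        (dispC 5 K φ))) (ln s) o (ln (update s 4 []))
          ((List.range b).map (fun i => φ (min (t.eval x (cons i (fun _ => 0))) K)) ++ o)
  | 0, o, s, _, _, _, _, _, h4, _ => by
    have h5 : update s 4 [] = s := by
      funext i
      by_cases e : i = 4
      · subst e; simp [h4]
      · simp [e]
    rw [h5]
    exact CExec.loopZero (by simp [ln, h4])
  | b + 1, o, s, hb, h0, h1, h2, h3, h4, h5 => by
    set s1 := update s 4 (un () b) with hs1
    have hc : ∀ i, cons b (fun _ => 0) i ≤ N := cons_le (by omega) (fun _ => Nat.zero_le _)
    have hgood : Good id () x (cons b (fun _ => 0)) (fun i => Nat.casesOn i 4 (fun _ => 3)) 5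
        s1 := by
      refine ⟨⟨?_, ?_, fun i => ?_, fun i => ?_, fun i => ?_⟩, fun j hj => ?_⟩
      · simp [hs1, h0]
      · simp [hs1, h1]
      · cases i <;> simp
      · cases i <;> simp
      · cases i
        · simp [hs1]
        · simp [hs1, h3]
      · rw [hs1, Function.update_of_ne (by omega)]; exact h5 j hj
    have hlen : ∀ r, (s1 r).length ≤ N := by
      intro r
      by_cases e4 : r = 4
      · subst e4; simp [hs1]; omega
      · rw [hs1, Function.update_of_ne e4]
        by_cases e5 : 5 ≤ r
        · rw [h5 r e5]; simp
        · have : r = 0 ∨ r = 1 ∨ r = 2 ∨ r = 3 := by omega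
          rcases this with rfl | rfl | rfl | rfl
          · rw [h0]; exact hx
          · rw [h1]; simp
          · rw [h2]; simp
          · rw [h3]; simp
    have g1 := cexec_runs (ht.run N x _ _ _ s1 hx hc hgood) o (B := B) (fun r => by
      have := hlen r; omega)
    set v := t.eval x (cons b (fun _ => 0)) with hv
    have g2 := cexec_disp B 5 o K φ v (ln (update s1 5 (un () v))) (by simp [ln])
    have g3 := cexec_print t T ht N B x hx hB K φ b (φ (min v K) :: o) s1 (by omega)
      (by simp [hs1, h0]) (by simp [hs1, h1]) (by simp [hs1, h2]) (by simp [hs1, h3])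
      (by simp [hs1]) (fun j hj => by
        rw [hs1, Function.update_of_ne (by omega)]
        exact h5 j hj)
    have e1 : update (ln (update s1 5 (un () v))) 5 0 = ln s1 := by
      rw [ln_update, Function.update_idem]
      funext i
      by_cases e : i = 5
      · subst e; simp [ln, hs1, h5 5 le_rfl]
      · simp [e]
    have e2 : update s1 4 [] = update s 4 [] := by
      rw [hs1, Function.update_idem]
    have e3 : ln s1 = update (ln s) 4 b := by
      rw [hs1, ln_update, un_length]
    rw [e1] at g2
    rw [e2] at g3
    have g12 := CExec.seq g1 g2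
    have e4 : ln s1 = update (ln s) 4 b := e3
    rw [List.range_succ, List.map_append, List.map_singleton, List.append_assoc,
      List.singleton_append]
    refine CExec.loopSucc (n := b) (by simp [ln, h4]) (s' := ln s1) (o' := φ (min v K) :: o) ?_ g3
    rw [← e4]
    exact g12

/-- The whole counter program. -/
theorem exists_cp_of_terms {O : Type} (m : ℕ → ℕ) (t : ℕ → ℕ → ℕ) (hm : NF fun N _ => m N)
    (ht : NF fun N e => t N (e 0)) (K : ℕ) (φ : ℕ → O) :
    ∃ (p : CP O) (B : ℕ → ℕ) (c : ℕ), (∀ N, B N ≤ (N + 2) ^ c) ∧ (∀ N, N ≤ B N) ∧
      ∀ N, ∃ s', CExec (B N) p (update (fun _ => 0) 0 N) [] s'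
        ((List.range (m N)).map fun i => φ (min (t N i) K)) := by
  obtain ⟨tm, htm⟩ := hm
  obtain ⟨tt, htt⟩ := ht
  obtain ⟨M, hM⟩ := exists_spec (id : Unit → Unit) Function.injective_id () tm
  obtain ⟨T, hT⟩ := exists_spec (id : Unit → Unit) Function.injective_id () tt
  have hT' : PB (fun N => T (N + M N)) := hT.pb.comp (PB.id.add hM.pb)
  have hPB : PB fun N => (N + M N) + T (N + M N) := (PB.id.add hM.pb).add hT'
  obtain ⟨-, c, hc⟩ := hPB
  refine ⟨CP.seq (toCP (tm.comp id () (fun _ => 3) 4))
    (CP.loop 4 (CP.seq (toCP (tt.comp id () (fun i => Nat.casesOn i 4 (fun _ => 3)) 5))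
      (dispC 5 K φ))), fun N => (N + M N) + T (N + M N), c, hc, fun N => ?_, fun N => ?_⟩
  · show N ≤ (N + M N) + T (N + M N)
    omega
  · set x : List Unit := List.replicate N () with hx
    have hxl : x.length = N := by simp [hx]
    have hmval := hM.val N x (fun _ => 0) hxl.le (fun _ => Nat.zero_le _)
    set b := tm.eval x (fun _ => 0) with hb
    have hbm : b = m N := by
      rw [hb, htm]
      show m x.length = m N
      rw [hxl]
    set s0 : Store Unit := single 0 x with hs0
    have g1 := cexec_runs (hM.run N x (fun _ => 0) (fun _ => 3) 4 s0 hxl.le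
      (fun _ => Nat.zero_le _)
      ⟨⟨by simp [hs0, single], by simp [hs0, single], fun _ => by omega, fun _ => by omega,
        fun _ => by simp [hs0, single]⟩, fun j hj => by
          have : j ≠ 0 := by omega
          simp [hs0, single, this]⟩) ([] : List O) (B := (N + M N) + T (N + M N)) (fun r => by
            by_cases e : r = 0
            · subst e
              rw [hs0]
              simp only [single, Function.update_self]
              rw [hxl]
              omega
            · rw [hs0]
              simp only [single, Function.update_of_ne e, List.length_nil]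
              omega)
    set s1 := update s0 4 (un () b) with hs1
    have g2 := cexec_print tt T hT (N + M N) ((N + M N) + T (N + M N)) x (by omega) le_rfl K φ b []
      s1 (by omega)
      (by simp [hs1, hs0, single]) (by simp [hs1, hs0, single]) (by simp [hs1, hs0, single])
      (by simp [hs1, hs0, single]) (by simp [hs1]) (fun j hj => by
        have : j ≠ 0 := by omega
        have : j ≠ 4 := by omega
        simp [single, *])
    have e0 : ln s0 = update (fun _ => 0) 0 N := by
      rw [hs0, single, ln_update, hxl]
      rfl
    rw [e0] at g1
    have g3 := CExec.seq g1 g2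
    have e5 : (List.range b).map (fun i => φ (min (tt.eval x (cons i (fun _ => 0))) K)) ++ [] =
        (List.range (m N)).map fun i => φ (min (t N i) K) := by
      rw [List.append_nil, hbm]
      refine List.map_congr_left fun i _ => ?_
      rw [htt]
      show φ (min (t x.length i) K) = _
      rw [hxl]
    rw [e5] at g3
    exact ⟨_, g3⟩

end Pool.Agent.NC
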