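import Mathlib
import Pool.Agent.NC.Print0
import Pool.Agent.NC.Machine

/-!
# Words given letterwise by terms are printed in logarithmic space
-/

set_option autoImplicit false

namespace Pool.Agent.NC

theorem printed_of_terms (m : ℕ → ℕ) (t : ℕ → ℕ → ℕ) (hm : NF fun N _ => m N)
    (ht : NF fun N e => t N (e 0)) (K : ℕ) (φ : ℕ → Sym) :
    LogspacePrinted fun N => (List.range (m N)).map fun i => φ (min (t N i) K) := by
  obtain ⟨p, B, c, hB, hN, h⟩ := exists_cp_of_terms m t hm ht K φ
  exact printed_of_cp p B c hB hN _ h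

end Pool.Agent.NC
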