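import Mathlib
import Pool.Agent.PT.UF
import Pool.Agent.NC.Defs
import Pool.Agent.NC.Lang
import Pool.Agent.NC.Nodes
import Pool.Agent.NC.Closure

/-!
# Systems of formulas with polylogarithmic recursion depth are in NC
-/

set_option autoImplicit false

open Function (update)
open Pool.Agent.PT

namespace Pool.Agent.NC

/-! ### Polynomial bounds -/

theorem Tm.exists_bound : ∀ t : Tm Unit, ∃ T, PB T ∧ ∀ (x : List Unit) (e : ℕ → ℕ) (K : ℕ),
    x.length ≤ K → (∀ i, e i ≤ K) → t.eval x e ≤ T K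
  | .var i => ⟨fun N => N, PB.id, fun _ _ _ _ he => he i⟩
  | .const c => ⟨fun _ => c, PB.const c, fun _ _ _ _ _ => le_rfl⟩
  | .len => ⟨fun N => N, PB.id, fun _ _ _ hx _ => hx⟩
  | .sym a t => ⟨fun _ => 1, PB.const 1, fun x e K _ _ => by
      simp only [Tm.eval]
      split_ifs <;> simp⟩
  | .add s t => by
    obtain ⟨S, hS, hS'⟩ := Tm.exists_bound s
    obtain ⟨T, hT, hT'⟩ := Tm.exists_bound t
    exact ⟨_, hS.add hT, fun x e K hx he => by
      simp only [Tm.eval]
      exact Nat.add_le_add (hS' x e K hx he) (hT' x e K hx he)⟩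
  | .sub s t => by
    obtain ⟨S, hS, hS'⟩ := Tm.exists_bound s
    exact ⟨_, hS, fun x e K hx he => by
      simp only [Tm.eval]
      exact (Nat.sub_le _ _).trans (hS' x e K hx he)⟩
  | .sum b t => by
    obtain ⟨S, hS, hS'⟩ := Tm.exists_bound b
    obtain ⟨T, hT, hT'⟩ := Tm.exists_bound t
    refine ⟨fun N => S N * T (N + S N), hS.mul (hT.comp (PB.id.add hS)), fun x e K hx he => ?_⟩
    simp only [Tm.eval]
    have h1 := hS' x e K hx he
    calc ∑ i ∈ Finset.range (b.eval x e), t.eval x (cons i e)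
        ≤ ∑ _i ∈ Finset.range (b.eval x e), T (K + S K) := by
          refine Finset.sum_le_sum fun i hi => hT' x _ _ (by omega) fun j => ?_
          rw [Finset.mem_range] at hi
          cases j with
          | zero => simp only [cons_zero]; omega
          | succ j =>
            simp only [cons_succ]
            have := he j
            omega
      _ = b.eval x e * T (K + S K) := by simp
      _ ≤ S K * T (K + S K) := Nat.mul_le_mul_right _ h1
  | .lett s t => by
    obtain ⟨S, hS, hS'⟩ := Tm.exists_bound s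
    obtain ⟨T, hT, hT'⟩ := Tm.exists_bound t
    refine ⟨fun N => T (N + S N), hT.comp (PB.id.add hS), fun x e K hx he => ?_⟩
    simp only [Tm.eval]
    have h1 := hS' x e K hx he
    refine hT' x _ _ (by omega) fun j => ?_
    cases j with
    | zero => simp only [cons_zero]; omega
    | succ j =>
      simp only [cons_succ]
      have := he j
      omega
  | .ren σ t => by
    obtain ⟨T, hT, hT'⟩ := Tm.exists_bound t
    exact ⟨T, hT, fun x e K hx he => by
      simp only [Tm.eval]
      exact hT' x _ K hx fun i => he _⟩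

theorem tev_bound (t : Tm Unit) : ∃ T, PB T ∧ ∀ (N : ℕ) (e : ℕ → ℕ) (K : ℕ),
    N ≤ K → (∀ i, e i ≤ K) → tev N t e ≤ T K := by
  obtain ⟨T, hT, hT'⟩ := Tm.exists_bound t
  exact ⟨T, hT, fun N e K hN he => hT' _ e K (by simpa using hN) he⟩

/-- All bounds of quantifiers reachable from `e` are at most `K`. -/
def QB (N K : ℕ) : Fm → (ℕ → ℕ) → Prop
  | .tst _, _ => True
  | .inp _, _ => True
  | .rel _ _, _ => True
  | .not φ, e => QB N K φ e
  | .and φ ψ, e => QB N K φ e ∧ QB N K ψ e
  | .ex b φ, e => tev N b e ≤ K ∧ ∀ v, v < tev N b e → QB N K φ (cons v e)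
  | .par b φ, e => tev N b e ≤ K ∧ ∀ v, v < tev N b e → QB N K φ (cons v e)

theorem QB.mono {N K K' : ℕ} (h : K ≤ K') : ∀ (φ : Fm) (e : ℕ → ℕ), QB N K φ e → QB N K' φ e
  | .tst _, _, _ => trivial
  | .inp _, _, _ => trivial
  | .rel _ _, _, _ => trivial
  | .not φ, e, h' => QB.mono h φ e h'
  | .and φ ψ, e, h' => ⟨QB.mono h φ e h'.1, QB.mono h ψ e h'.2⟩
  | .ex _ φ, _, h' => ⟨h'.1.trans h, fun v hv => QB.mono h φ _ (h'.2 v hv)⟩
  | .par _ φ, _, h' => ⟨h'.1.trans h, fun v hv => QB.mono h φ _ (h'.2 v hv)⟩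

theorem exists_QB : ∀ φ : Fm, ∃ T, PB T ∧ ∀ (N K : ℕ) (e : ℕ → ℕ), N ≤ K → (∀ j, e j ≤ K) →
    QB N (T K) φ e
  | .tst _ => ⟨_, PB.const 0, fun _ _ _ _ _ => trivial⟩
  | .inp _ => ⟨_, PB.const 0, fun _ _ _ _ _ => trivial⟩
  | .rel _ _ => ⟨_, PB.const 0, fun _ _ _ _ _ => trivial⟩
  | .not φ => exists_QB φ
  | .and φ ψ => by
    obtain ⟨S, hS, hS'⟩ := exists_QB φ
    obtain ⟨T, hT, hT'⟩ := exists_QB ψ
    exact ⟨_, hS.add hT, fun N K e hN he => ⟨QB.mono (Nat.le_add_right _ _) _ _ (hS' N K e hN he),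
      QB.mono (Nat.le_add_left _ _) _ _ (hT' N K e hN he)⟩⟩
  | .ex b φ => by
    obtain ⟨S, hS, hS'⟩ := tev_bound b
    obtain ⟨T, hT, hT'⟩ := exists_QB φ
    refine ⟨_, hS.add (hT.comp (PB.id.add hS)), fun N K e hN he => ⟨?_, fun v hv => ?_⟩⟩
    · exact (hS' N e K hN he).trans (Nat.le_add_right _ _)
    · have h1 := hS' N e K hN he
      refine QB.mono (Nat.le_add_left _ _) _ _ (hT' N (K + S K) _ (by omega) fun j => ?_)
      cases j with
      | zero => simp only [cons_zero]; omega
      | succ j =>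
        simp only [cons_succ]
        have := he j
        omega
  | .par b φ => by
    obtain ⟨S, hS, hS'⟩ := tev_bound b
    obtain ⟨T, hT, hT'⟩ := exists_QB φ
    refine ⟨_, hS.add (hT.comp (PB.id.add hS)), fun N K e hN he => ⟨?_, fun v hv => ?_⟩⟩
    · exact (hS' N e K hN he).trans (Nat.le_add_right _ _)
    · have h1 := hS' N e K hN he
      refine QB.mono (Nat.le_add_left _ _) _ _ (hT' N (K + S K) _ (by omega) fun j => ?_)
      cases j with
      | zero => simp only [cons_zero]; omega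
      | succ j =>
        simp only [cons_succ]
        have := he j
        omega

/-! ### Polylogarithmic bounds -/

theorem polyLog_iff {T : ℕ → ℕ} : PolyLog T ↔ ∃ k, ∀ N, T N ≤ (Nat.log 2 N + 2) ^ k := by
  constructor
  · rintro ⟨k, hk⟩
    refine ⟨k + 1, fun N => (hk N).trans ?_⟩
    have h1 : (Nat.log 2 N + 1) ^ k ≤ (Nat.log 2 N + 2) ^ k := Nat.pow_le_pow_left (by omega) k
    have h2 : k ≤ (Nat.log 2 N + 2) ^ k := (Nat.lt_pow_self (by omega)).le
    calc (Nat.log 2 N + 1) ^ k + k ≤ (Nat.log 2 N + 2) ^ k * 2 := by omega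
      _ ≤ (Nat.log 2 N + 2) ^ k * (Nat.log 2 N + 2) := Nat.mul_le_mul_left _ (by omega)
      _ = (Nat.log 2 N + 2) ^ (k + 1) := (pow_succ _ _).symm
  · rintro ⟨k, hk⟩
    refine ⟨2 * k + 2 ^ k, fun N => (hk N).trans ?_⟩
    rcases Nat.eq_zero_or_pos (Nat.log 2 N) with h | h
    · rw [h]
      simp only [zero_add, one_pow]
      omega
    · have h1 : Nat.log 2 N + 2 ≤ (Nat.log 2 N + 1) ^ 2 := by nlinarith
      calc (Nat.log 2 N + 2) ^ k ≤ ((Nat.log 2 N + 1) ^ 2) ^ k := Nat.pow_le_pow_left h1 k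
        _ = (Nat.log 2 N + 1) ^ (2 * k) := (pow_mul _ _ _).symm
        _ ≤ (Nat.log 2 N + 1) ^ (2 * k + 2 ^ k) :=
          Nat.pow_le_pow_right (by omega) (Nat.le_add_right _ _)
        _ ≤ _ := Nat.le_add_right _ _

theorem PolyLog.mul {S T : ℕ → ℕ} (hS : PolyLog S) (hT : PolyLog T) :
    PolyLog fun N => S N * T N := by
  rw [polyLog_iff] at *
  obtain ⟨k, hk⟩ := hS
  obtain ⟨l, hl⟩ := hT
  exact ⟨k + l, fun N => (Nat.mul_le_mul (hk N) (hl N)).trans (pow_add _ _ _).ge⟩

theorem PolyLog.add {S T : ℕ → ℕ} (hS : PolyLog S) (hT : PolyLog T) :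
    PolyLog fun N => S N + T N := by
  rw [polyLog_iff] at *
  obtain ⟨k, hk⟩ := hS
  obtain ⟨l, hl⟩ := hT
  refine ⟨k + l + 1, fun N => (Nat.add_le_add (hk N) (hl N)).trans ?_⟩
  have h1 : (Nat.log 2 N + 2) ^ k ≤ (Nat.log 2 N + 2) ^ (k + l) :=
    Nat.pow_le_pow_right (by omega) (by omega)
  have h2 : (Nat.log 2 N + 2) ^ l ≤ (Nat.log 2 N + 2) ^ (k + l) :=
    Nat.pow_le_pow_right (by omega) (by omega)
  calc _ ≤ (Nat.log 2 N + 2) ^ (k + l) * 2 := by omega
    _ ≤ (Nat.log 2 N + 2) ^ (k + l) * (Nat.log 2 N + 2) := Nat.mul_le_mul_left _ (by omega)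
    _ = _ := (pow_succ _ _).symm

theorem PolyLog.const (c : ℕ) : PolyLog fun _ => c := ⟨c, fun _ => Nat.le_add_left _ _⟩

theorem PolyLog.mono {S T : ℕ → ℕ} (hT : PolyLog T) (h : ∀ N, S N ≤ T N) : PolyLog S := by
  obtain ⟨k, hk⟩ := hT
  exact ⟨k, fun N => (h N).trans (hk N)⟩

theorem PolyLog.log_self : PolyLog fun N => Nat.log 2 N :=
  ⟨1, fun N => by simp only [pow_one]; omega⟩

theorem log_add_two (N : ℕ) : Nat.log 2 (N + 2) ≤ Nat.log 2 N + 2 := by
  rcases Nat.lt_or_ge N 2 with h | h
  · interval_cases N <;> decide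
  · have h1 : N + 2 ≤ N * 2 := by omega
    calc Nat.log 2 (N + 2) ≤ Nat.log 2 (N * 2) := Nat.log_mono_right h1
      _ = Nat.log 2 N + 1 := Nat.log_mul_base (by omega) (by omega)
      _ ≤ _ := by omega

theorem log_pow_le (a c : ℕ) : Nat.log 2 (a ^ c) ≤ c * (Nat.log 2 a + 1) := by
  have h1 : a < 2 ^ (Nat.log 2 a + 1) := Nat.lt_pow_succ_log_self (by omega) a
  have h2 : a ^ c ≤ 2 ^ ((Nat.log 2 a + 1) * c) := by
    rw [pow_mul]
    exact Nat.pow_le_pow_left h1.le c
  calc Nat.log 2 (a ^ c) ≤ Nat.log 2 (2 ^ ((Nat.log 2 a + 1) * c)) := Nat.log_mono_right h2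
    _ = (Nat.log 2 a + 1) * c := Nat.log_pow (by omega) _
    _ = _ := Nat.mul_comm _ _

theorem PolyLog.log_of_PB {B : ℕ → ℕ} (hB : PB B) : PolyLog fun N => Nat.log 2 (B N) := by
  obtain ⟨_, c, hc⟩ := hB
  refine PolyLog.mono (T := fun N => c * (Nat.log 2 N + 3))
    ((PolyLog.const c).mul (PolyLog.log_self.add (PolyLog.const 3))) fun N => ?_
  calc Nat.log 2 (B N) ≤ Nat.log 2 ((N + 2) ^ c) := Nat.log_mono_right (hc N)
    _ ≤ c * (Nat.log 2 (N + 2) + 1) := log_pow_le _ _
    _ ≤ c * (Nat.log 2 N + 3) := Nat.mul_le_mul_left _ (by have := log_add_two N; omega)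

/-! ### Compilation -/

/-- The default node. -/
abbrev dN : Node := Node.cst (.const 0)

/-- Shifting the variables by the three auxiliary registers. -/
def sh (t : Tm Unit) : Tm Unit := Tm.ren (fun j => j + 3) t

/-- Registers: two auxiliary registers, the stage and an environment. -/
def Rg (lo len st : ℕ) (e : ℕ → ℕ) : ℕ → ℕ := cons lo (cons len (cons st e))

theorem tev_sh (N : ℕ) (t : Tm Unit) (lo len st : ℕ) (e : ℕ → ℕ) :
    tev N (sh t) (Rg lo len st e) = tev N t e := rfl

/-- Unchanged registers. -/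
def sameR : ℕ → Tm Unit := fun j => .var j

/-- Registers at the start of a quantifier. -/
def startR (b : Tm Unit) : ℕ → Tm Unit
  | 0 => .const 0
  | 1 => sh b
  | j + 2 => .var (j + 2)

/-- A term for the half of register 1. -/
noncomputable def halfT : Tm Unit := (UF.div (Γ := Unit) (UF.var 1) (UF.const 2)).choose

theorem tev_halfT (N : ℕ) (r : ℕ → ℕ) : tev N halfT r = r 1 / 2 :=
  (UF.div (Γ := Unit) (UF.var 1) (UF.const 2)).choose_spec _ r

/-- Registers of the left half. -/
noncomputable def leftR : ℕ → Tm Unit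
  | 0 => .var 0
  | 1 => halfT
  | j + 2 => .var (j + 2)

/-- Registers of the right half. -/
noncomputable def rightR : ℕ → Tm Unit
  | 0 => .add (.var 0) halfT
  | 1 => .sub (.var 1) halfT
  | j + 2 => .var (j + 2)

/-- Registers for the body of a quantifier. -/
def bodyR : ℕ → Tm Unit
  | 0 => .const 0
  | 1 => .const 0
  | 2 => .var 2
  | 3 => .var 0
  | j + 4 => .var (j + 3)

/-- Registers for the call of a relation. -/
def callR (w : ℕ) (tB : Tm Unit) (ts : ℕ → Tm Unit) : ℕ → Tm Unit
  | 0 => .const 0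
  | 1 => .const 0
  | 2 => .sub (.var 2) (.const 1)
  | j + 3 => if j < w then .sub (sh (ts j)) (.sub (sh (ts j)) (sh tB)) else .const 0

/-- Number of nodes. -/
def sz : Fm → ℕ
  | .tst _ => 1
  | .inp _ => 1
  | .rel _ _ => 1
  | .not φ => 1 + sz φ
  | .and φ ψ => 1 + sz φ + sz ψ
  | .ex _ φ => 3 + sz φ
  | .par _ φ => 6 + sz φ

section comp

variable (root : ℕ → ℕ) (w : ℕ) (tB : Tm Unit)

/-- Compilation of formulas. -/
noncomputable def comp : Fm → ℕ → List Node
  | .tst P, _ => [.cst (sh P)]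
  | .inp t, _ => [.inp (sh t)]
  | .rel i ts, _ => [.ite (.var 2) (root i) (callR w tB ts) 1 sameR]
  | .not φ, q => .not (q + 1) sameR :: comp φ (q + 1)
  | .and φ ψ, q => .and (q + 1) sameR (q + 1 + sz φ) sameR ::
      (comp φ (q + 1) ++ comp ψ (q + 1 + sz φ))
  | .ex b φ, q => .ite (sh b) (q + 1) (startR b) 1 sameR ::
      .ite (.sub (.var 1) (.const 1)) (q + 2) sameR (q + 3) bodyR ::
      .or (q + 1) leftR (q + 1) rightR :: comp φ (q + 3)
  | .par b φ, q => .ite (sh b) (q + 1) (startR b) 1 sameR ::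
      .ite (.sub (.var 1) (.const 1)) (q + 2) sameR (q + 6) bodyR ::
      .or (q + 3) sameR (q + 4) sameR ::
      .and (q + 1) leftR (q + 5) rightR ::
      .and (q + 5) leftR (q + 1) rightR ::
      .not (q + 1) sameR :: comp φ (q + 6)

theorem length_comp : ∀ (φ : Fm) (q : ℕ), (comp root w tB φ q).length = sz φ
  | .tst _, _ => rfl
  | .inp _, _ => rfl
  | .rel _ _, _ => rfl
  | .not φ, q => by simp [comp, sz, length_comp φ]; omega
  | .and φ ψ, q => by simp [comp, sz, length_comp φ, length_comp ψ]; omega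
  | .ex _ φ, q => by simp [comp, sz, length_comp φ]; omega
  | .par _ φ, q => by simp [comp, sz, length_comp φ]; omega

/-- The formula is compiled at position `q` of the program. -/
def At (prog : List Node) : Fm → ℕ → Prop
  | .tst P, q => prog.getD q dN = .cst (sh P)
  | .inp t, q => prog.getD q dN = .inp (sh t)
  | .rel i ts, q => prog.getD q dN = .ite (.var 2) (root i) (callR w tB ts) 1 sameR
  | .not φ, q => prog.getD q dN = .not (q + 1) sameR ∧ At prog φ (q + 1)
  | .and φ ψ, q => prog.getD q dN = .and (q + 1) sameR (q + 1 + sz φ) sameR ∧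
      At prog φ (q + 1) ∧ At prog ψ (q + 1 + sz φ)
  | .ex b φ, q => prog.getD q dN = .ite (sh b) (q + 1) (startR b) 1 sameR ∧
      prog.getD (q + 1) dN = .ite (.sub (.var 1) (.const 1)) (q + 2) sameR (q + 3) bodyR ∧
      prog.getD (q + 2) dN = .or (q + 1) leftR (q + 1) rightR ∧ At prog φ (q + 3)
  | .par b φ, q => prog.getD q dN = .ite (sh b) (q + 1) (startR b) 1 sameR ∧
      prog.getD (q + 1) dN = .ite (.sub (.var 1) (.const 1)) (q + 2) sameR (q + 6) bodyR ∧
      prog.getD (q + 2) dN = .or (q + 3) sameR (q + 4) sameR ∧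
      prog.getD (q + 3) dN = .and (q + 1) leftR (q + 5) rightR ∧
      prog.getD (q + 4) dN = .and (q + 5) leftR (q + 1) rightR ∧
      prog.getD (q + 5) dN = .not (q + 1) sameR ∧ At prog φ (q + 6)

theorem getD_mid (l : List Node) (n : Node) (l' : List Node) (q : ℕ) (hq : l.length = q) :
    (l ++ n :: l').getD q dN = n := by
  subst hq
  simp [List.getD]

theorem at_comp : ∀ (φ : Fm) (q : ℕ) (l l' : List Node), l.length = q →
    At root w tB (l ++ (comp root w tB φ q ++ l')) φ q
  | .tst P, q, l, l', hq => getD_mid _ _ _ _ hq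
  | .inp t, q, l, l', hq => getD_mid _ _ _ _ hq
  | .rel i ts, q, l, l', hq => getD_mid _ _ _ _ hq
  | .not φ, q, l, l', hq => by
    refine ⟨getD_mid _ _ _ _ hq, ?_⟩
    have := at_comp φ (q + 1) (l ++ [.not (q + 1) sameR]) l' (by simp [hq])
    simpa [comp] using this
  | .and φ ψ, q, l, l', hq => by
    refine ⟨getD_mid _ _ _ _ hq, ?_, ?_⟩
    · have := at_comp φ (q + 1) (l ++ [.and (q + 1) sameR (q + 1 + sz φ) sameR])
        (comp root w tB ψ (q + 1 + sz φ) ++ l') (by simp [hq])
      simpa [comp] using this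
    · have := at_comp ψ (q + 1 + sz φ) (l ++ ([.and (q + 1) sameR (q + 1 + sz φ) sameR] ++
        comp root w tB φ (q + 1))) l' (by simp [hq, length_comp]; omega)
      simpa [comp] using this
  | .ex b φ, q, l, l', hq => by
    refine ⟨getD_mid _ _ _ _ hq, ?_, ?_, ?_⟩
    · have := getD_mid (l ++ [.ite (sh b) (q + 1) (startR b) 1 sameR])
        (.ite (.sub (.var 1) (.const 1)) (q + 2) sameR (q + 3) bodyR)
        (.or (q + 1) leftR (q + 1) rightR :: (comp root w tB φ (q + 3) ++ l')) (q + 1)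
        (by simp [hq])
      simpa [comp] using this
    · have := getD_mid (l ++ [.ite (sh b) (q + 1) (startR b) 1 sameR,
        .ite (.sub (.var 1) (.const 1)) (q + 2) sameR (q + 3) bodyR])
        (.or (q + 1) leftR (q + 1) rightR) (comp root w tB φ (q + 3) ++ l') (q + 2)
        (by simp [hq])
      simpa [comp] using this
    · have := at_comp φ (q + 3) (l ++ [.ite (sh b) (q + 1) (startR b) 1 sameR,
        .ite (.sub (.var 1) (.const 1)) (q + 2) sameR (q + 3) bodyR,
        .or (q + 1) leftR (q + 1) rightR]) l' (by simp [hq])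
      simpa [comp] using this
  | .par b φ, q, l, l', hq => by
    refine ⟨getD_mid _ _ _ _ hq, ?_, ?_, ?_, ?_, ?_, ?_⟩
    · have := getD_mid (l ++ [.ite (sh b) (q + 1) (startR b) 1 sameR])
        (.ite (.sub (.var 1) (.const 1)) (q + 2) sameR (q + 6) bodyR)
        (.or (q + 3) sameR (q + 4) sameR ::
      .and (q + 1) leftR (q + 5) rightR ::
      .and (q + 5) leftR (q + 1) rightR ::
      .not (q + 1) sameR :: (comp root w tB φ (q + 6) ++ l')) (q + 1)
        (by simp [hq])
      simpa [comp] using this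
    · have := getD_mid (l ++ [.ite (sh b) (q + 1) (startR b) 1 sameR,
        .ite (.sub (.var 1) (.const 1)) (q + 2) sameR (q + 6) bodyR])
        (.or (q + 3) sameR (q + 4) sameR)
        (.and (q + 1) leftR (q + 5) rightR ::
      .and (q + 5) leftR (q + 1) rightR ::
      .not (q + 1) sameR :: (comp root w tB φ (q + 6) ++ l')) (q + 2)
        (by simp [hq])
      simpa [comp] using this
    · have := getD_mid (l ++ [.ite (sh b) (q + 1) (startR b) 1 sameR,
        .ite (.sub (.var 1) (.const 1)) (q + 2) sameR (q + 6) bodyR,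
        .or (q + 3) sameR (q + 4) sameR])
        (.and (q + 1) leftR (q + 5) rightR)
        (.and (q + 5) leftR (q + 1) rightR ::
      .not (q + 1) sameR :: (comp root w tB φ (q + 6) ++ l')) (q + 3)
        (by simp [hq])
      simpa [comp] using this
    · have := getD_mid (l ++ [.ite (sh b) (q + 1) (startR b) 1 sameR,
        .ite (.sub (.var 1) (.const 1)) (q + 2) sameR (q + 6) bodyR,
        .or (q + 3) sameR (q + 4) sameR, .and (q + 1) leftR (q + 5) rightR])
        (.and (q + 5) leftR (q + 1) rightR)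
        (.not (q + 1) sameR :: (comp root w tB φ (q + 6) ++ l')) (q + 4)
        (by simp [hq])
      simpa [comp] using this
    · have := getD_mid (l ++ [.ite (sh b) (q + 1) (startR b) 1 sameR,
        .ite (.sub (.var 1) (.const 1)) (q + 2) sameR (q + 6) bodyR,
        .or (q + 3) sameR (q + 4) sameR, .and (q + 1) leftR (q + 5) rightR,
        .and (q + 5) leftR (q + 1) rightR])
        (.not (q + 1) sameR) (comp root w tB φ (q + 6) ++ l') (q + 5)
        (by simp [hq])
      simpa [comp] using this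
    · have := at_comp φ (q + 6) (l ++ [.ite (sh b) (q + 1) (startR b) 1 sameR,
        .ite (.sub (.var 1) (.const 1)) (q + 2) sameR (q + 6) bodyR,
        .or (q + 3) sameR (q + 4) sameR, .and (q + 1) leftR (q + 5) rightR,
        .and (q + 5) leftR (q + 1) rightR, .not (q + 1) sameR]) l' (by simp [hq])
      simpa [comp] using this

end comp

/-! ### Semantics -/

/-- Quantifier depth. -/
def qd : Fm → ℕ
  | .tst _ => 0
  | .inp _ => 0
  | .rel _ _ => 0
  | .not φ => qd φ
  | .and φ ψ => max (qd φ) (qd ψ)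
  | .ex _ φ => qd φ + 1
  | .par _ φ => qd φ + 1

/-- Weight of a formula. -/
def wt : Fm → ℕ
  | .tst _ => 1
  | .inp _ => 1
  | .rel _ _ => 1
  | .not φ => wt φ + 1
  | .and φ ψ => wt φ + wt ψ + 1
  | .ex _ φ => wt φ + 1
  | .par _ φ => wt φ + 1

/-- Fuel needed for a formula, with `l` the length of the numbers. -/
def fuel (l : ℕ) (φ : Fm) : ℕ := wt φ * (4 * l + 2)

section sem

variable {prog : List Node} {w' B' : ℕ} {x : List Bool}

theorem clamp_eq {r : ℕ → ℕ} (h1 : ∀ j, r j ≤ B') (h2 : ∀ j, w' ≤ j → r j = 0) :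
    clamp w' B' r = r := by
  funext j
  unfold clamp
  split_ifs with h
  · exact min_eq_left (h1 j)
  · exact (h2 j (not_lt.1 h)).symm

/-- Good environments. -/
structure Ev (w' B' k : ℕ) (e : ℕ → ℕ) : Prop where
  le : ∀ j, e j ≤ B'
  zero : ∀ j, k ≤ j → e j = 0
  wid : k + 3 ≤ w'

theorem Ev.cons {k v : ℕ} {e : ℕ → ℕ} (h : Ev w' B' k e) (hv : v ≤ B') (hw : k + 4 ≤ w') :
    Ev w' B' (k + 1) (cons v e) := by
  refine ⟨fun j => ?_, fun j hj => ?_, by omega⟩
  · cases j with
    | zero => exact hv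
    | succ j => exact h.le j
  · cases j with
    | zero => omega
    | succ j => exact h.zero j (by omega)

theorem clamp_Rg {k lo len st : ℕ} {e : ℕ → ℕ} (he : Ev w' B' k e) (h0 : lo ≤ B') (h1 : len ≤ B')
    (h2 : st ≤ B') : clamp w' B' (Rg lo len st e) = Rg lo len st e := by
  refine clamp_eq (fun j => ?_) fun j hj => ?_
  · rcases j with _ | _ | _ | j
    · exact h0
    · exact h1
    · exact h2
    · exact he.le j
  · have := he.wid
    rcases j with _ | _ | _ | j
    · omega
    · omega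
    · omega
    · exact he.zero j (by omega)

theorem regs_same {N k lo len st : ℕ} {e : ℕ → ℕ} (he : Ev w' B' k e) (h0 : lo ≤ B')
    (h1 : len ≤ B') (h2 : st ≤ B') : regs N w' B' sameR (Rg lo len st e) = Rg lo len st e :=
  clamp_Rg he h0 h1 h2

theorem regs_start {N k lo len st : ℕ} {e : ℕ → ℕ} {b : Tm Unit} (he : Ev w' B' k e)
    (h1 : tev N b e ≤ B') (h2 : st ≤ B') :
    regs N w' B' (startR b) (Rg lo len st e) = Rg 0 (tev N b e) st e := by
  refine Eq.trans ?_ (clamp_Rg he (Nat.zero_le _) h1 h2)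
  unfold regs
  congr 1
  funext j
  rcases j with _ | _ | j <;> rfl

theorem regs_left {N k lo len st : ℕ} {e : ℕ → ℕ} (he : Ev w' B' k e) (h0 : lo ≤ B')
    (h1 : len ≤ B') (h2 : st ≤ B') :
    regs N w' B' leftR (Rg lo len st e) = Rg lo (len / 2) st e := by
  refine Eq.trans ?_ (clamp_Rg he h0 ((Nat.div_le_self _ _).trans h1) h2)
  unfold regs
  congr 1
  funext j
  rcases j with _ | _ | j
  · rfl
  · exact tev_halfT N _
  · rfl

theorem regs_right {N k lo len st : ℕ} {e : ℕ → ℕ} (he : Ev w' B' k e) (h0 : lo + len ≤ B')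
    (h2 : st ≤ B') :
    regs N w' B' rightR (Rg lo len st e) = Rg (lo + len / 2) (len - len / 2) st e := by
  refine Eq.trans ?_ (clamp_Rg he (by omega) (by omega) h2)
  unfold regs
  congr 1
  funext j
  rcases j with _ | _ | j
  · exact congrArg (lo + ·) (tev_halfT N _)
  · exact congrArg (len - ·) (tev_halfT N _)
  · rfl

theorem regs_body {N k lo len st : ℕ} {e : ℕ → ℕ} (he : Ev w' B' k e) (h0 : lo ≤ B')
    (h2 : st ≤ B') (hw : k + 4 ≤ w') :
    regs N w' B' bodyR (Rg lo len st e) = Rg 0 0 st (cons lo e) := by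
  refine Eq.trans ?_ (clamp_Rg (he.cons h0 hw) (Nat.zero_le _) (Nat.zero_le _) h2)
  unfold regs
  congr 1
  funext j
  rcases j with _ | _ | _ | _ | j <;> rfl

theorem regs_call {N w B lo len st : ℕ} {e : ℕ → ℕ} {tB : Tm Unit} {ts : ℕ → Tm Unit}
    (htB : ∀ e, tev N tB e = B) (hB : B ≤ B') (hw : w + 3 ≤ w') (h2 : st ≤ B') :
    regs N w' B' (callR w tB ts) (Rg lo len st e) =
      Rg 0 0 (st - 1) (clamp w B fun j => tev N (ts j) e) := by
  have he : Ev w' B' w (clamp w B fun j => tev N (ts j) e) := by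
    refine ⟨fun j => ?_, fun j hj => ?_, hw⟩
    · unfold clamp
      split_ifs
      · exact (min_le_right _ _).trans hB
      · exact Nat.zero_le _
    · exact if_neg (by omega)
  refine Eq.trans ?_ (clamp_Rg he (Nat.zero_le _) (Nat.zero_le _) (by omega))
  unfold regs
  congr 1
  funext j
  rcases j with _ | _ | _ | j
  · rfl
  · rfl
  · rfl
  · change tev N (callR w tB ts (j + 3)) _ = clamp w B (fun j => tev N (ts j) e) j
    by_cases h : j < w
    · have h3 : callR w tB ts (j + 3) = .sub (sh (ts j)) (.sub (sh (ts j)) (sh tB)) := if_pos h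
      have h4 : clamp w B (fun j => tev N (ts j) e) j = min (tev N (ts j) e) B := if_pos h
      rw [h3, h4]
      change tev N (ts j) e - (tev N (ts j) e - tev N tB e) = _
      rw [htB]
      omega
    · have h3 : callR w tB ts (j + 3) = .const 0 := if_neg h
      have h4 : clamp w B (fun j => tev N (ts j) e) j = 0 := if_neg h
      rw [h3, h4]
      rfl

theorem nval_cst {s q : ℕ} {r : ℕ → ℕ} {P : Tm Unit} (h : prog.getD q dN = .cst P) :
    nval prog w' B' x (s + 1) q r = decide (tev x.length P r ≠ 0) := by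
  rw [nval]
  simp only [dN] at h
  rw [h]

theorem nval_inp {s q : ℕ} {r : ℕ → ℕ} {t : Tm Unit} (h : prog.getD q dN = .inp t) :
    nval prog w' B' x (s + 1) q r = x.getD (tev x.length t r) false := by
  rw [nval]
  simp only [dN] at h
  rw [h]

theorem nval_not {s q q1 : ℕ} {r : ℕ → ℕ} {ts : ℕ → Tm Unit} (h : prog.getD q dN = .not q1 ts) :
    nval prog w' B' x (s + 1) q r = !(nval prog w' B' x s q1 (regs x.length w' B' ts r)) := by
  rw [nval]
  simp only [dN] at h
  rw [h]

theorem nval_and {s q q1 q2 : ℕ} {r : ℕ → ℕ} {ts ts' : ℕ → Tm Unit}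
    (h : prog.getD q dN = .and q1 ts q2 ts') :
    nval prog w' B' x (s + 1) q r = (nval prog w' B' x s q1 (regs x.length w' B' ts r) &&
      nval prog w' B' x s q2 (regs x.length w' B' ts' r)) := by
  rw [nval]
  simp only [dN] at h
  rw [h]

theorem nval_or {s q q1 q2 : ℕ} {r : ℕ → ℕ} {ts ts' : ℕ → Tm Unit}
    (h : prog.getD q dN = .or q1 ts q2 ts') :
    nval prog w' B' x (s + 1) q r = (nval prog w' B' x s q1 (regs x.length w' B' ts r) ||
      nval prog w' B' x s q2 (regs x.length w' B' ts' r)) := by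
  rw [nval]
  simp only [dN] at h
  rw [h]

theorem nval_ite {s q q1 q2 : ℕ} {r : ℕ → ℕ} {P : Tm Unit} {ts ts' : ℕ → Tm Unit}
    (h : prog.getD q dN = .ite P q1 ts q2 ts') :
    nval prog w' B' x (s + 1) q r = if tev x.length P r ≠ 0 then
      nval prog w' B' x s q1 (regs x.length w' B' ts r) else
      nval prog w' B' x s q2 (regs x.length w' B' ts' r) := by
  rw [nval]
  simp only [dN] at h
  rw [h]

theorem nval_one (h1 : prog.getD 1 dN = .cst (.const 0)) (s : ℕ) (r : ℕ → ℕ) :
    nval prog w' B' x s 1 r = false := by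
  cases s with
  | zero => rfl
  | succ s =>
    rw [nval_cst h1]
    exact decide_eq_false (fun h => h rfl)

/-- The splitting of existential quantifiers. -/
theorem ex_split {q q3 k st c tot : ℕ} {e : ℕ → ℕ} {P : ℕ → Prop} (he : Ev w' B' k e)
    (hw : k + 4 ≤ w') (hst : st ≤ B') (htot : tot ≤ B')
    (h1 : prog.getD q dN = .ite (.sub (.var 1) (.const 1)) (q + 1) sameR q3 bodyR)
    (h2 : prog.getD (q + 1) dN = .or q leftR q rightR)
    (hb : ∀ v, v < tot → ∀ s, c ≤ s →
      (nval prog w' B' x s q3 (Rg 0 0 st (cons v e)) = true ↔ P v)) :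
    ∀ n len lo s, 1 ≤ len → len ≤ 2 ^ n → lo + len ≤ tot → 2 * n + 1 + c ≤ s →
      (nval prog w' B' x s q (Rg lo len st e) = true ↔ ∃ v, lo ≤ v ∧ v < lo + len ∧ P v) := by
  have one : ∀ lo s, lo + 1 ≤ tot → 1 + c ≤ s →
      (nval prog w' B' x s q (Rg lo 1 st e) = true ↔ ∃ v, lo ≤ v ∧ v < lo + 1 ∧ P v) := by
    intro lo s hlo hs
    obtain ⟨s, rfl⟩ : ∃ s', s = s' + 1 := ⟨s - 1, by omega⟩
    rw [nval_ite h1, if_neg (fun h => h rfl), regs_body he (by omega) hst hw,
      hb lo (by omega) s (by omega)]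
    constructor
    · exact fun h => ⟨lo, le_rfl, by omega, h⟩
    · rintro ⟨v, hv1, hv2, hv⟩
      obtain rfl : v = lo := by omega
      exact hv
  intro n
  induction n with
  | zero =>
    intro len lo s hl1 hl2 hl3 hs
    obtain rfl : len = 1 := by simp at hl2; omega
    exact one lo s hl3 (by omega)
  | succ n ih =>
    intro len lo s hl1 hl2 hl3 hs
    rcases Nat.lt_or_ge 1 len with hl | hl
    swap
    · obtain rfl : len = 1 := by omega
      exact one lo s hl3 (by omega)
    obtain ⟨s, rfl⟩ : ∃ s', s = s' + 2 := ⟨s - 2, by omega⟩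
    have hpow : 2 ^ (n + 1) = 2 ^ n * 2 := pow_succ _ _
    have htest : tev x.length (.sub (.var 1) (.const 1)) (Rg lo len st e) ≠ 0 := by
      change len - 1 ≠ 0
      omega
    rw [nval_ite h1, if_pos htest, regs_same he (by omega) (by omega) hst, nval_or h2,
      Bool.or_eq_true, regs_left he (by omega) (by omega) hst, regs_right he (by omega) hst,
      ih (len / 2) lo s (by omega) (by omega) (by omega) (by omega),
      ih (len - len / 2) (lo + len / 2) s (by omega) (by omega) (by omega) (by omega)]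
    constructor
    · rintro (⟨v, h3, h4, h5⟩ | ⟨v, h3, h4, h5⟩)
      · exact ⟨v, h3, by omega, h5⟩
      · exact ⟨v, by omega, by omega, h5⟩
    · rintro ⟨v, h3, h4, h5⟩
      rcases Nat.lt_or_ge v (lo + len / 2) with h | h
      · exact Or.inl ⟨v, h3, h, h5⟩
      · exact Or.inr ⟨v, h, by omega, h5⟩

open Classical in
/-- The splitting of parity quantifiers. -/
theorem par_split {q q3 k st c tot : ℕ} {e : ℕ → ℕ} {P : ℕ → Prop} (he : Ev w' B' k e)
    (hw : k + 4 ≤ w') (hst : st ≤ B') (htot : tot ≤ B')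
    (h1 : prog.getD q dN = .ite (.sub (.var 1) (.const 1)) (q + 1) sameR q3 bodyR)
    (h2 : prog.getD (q + 1) dN = .or (q + 2) sameR (q + 3) sameR)
    (h3 : prog.getD (q + 2) dN = .and q leftR (q + 4) rightR)
    (h4 : prog.getD (q + 3) dN = .and (q + 4) leftR q rightR)
    (h5 : prog.getD (q + 4) dN = .not q sameR)
    (hb : ∀ v, v < tot → ∀ s, c ≤ s →
      (nval prog w' B' x s q3 (Rg 0 0 st (cons v e)) = true ↔ P v)) :
    ∀ n len lo s, 1 ≤ len → len ≤ 2 ^ n → lo + len ≤ tot → 4 * n + 1 + c ≤ s →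
      (nval prog w' B' x s q (Rg lo len st e) = true ↔
        Odd ((Finset.Ico lo (lo + len)).filter P).card) := by
  have one : ∀ lo s, lo + 1 ≤ tot → 1 + c ≤ s →
      (nval prog w' B' x s q (Rg lo 1 st e) = true ↔
        Odd ((Finset.Ico lo (lo + 1)).filter P).card) := by
    intro lo s hlo hs
    obtain ⟨s, rfl⟩ : ∃ s', s = s' + 1 := ⟨s - 1, by omega⟩
    rw [nval_ite h1, if_neg (fun h => h rfl), regs_body he (by omega) hst hw,
      hb lo (by omega) s (by omega), Nat.Ico_succ_singleton, Finset.filter_singleton]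
    by_cases h : P lo <;> simp [h]
  intro n
  induction n with
  | zero =>
    intro len lo s hl1 hl2 hl3 hs
    obtain rfl : len = 1 := by simp at hl2; omega
    exact one lo s hl3 (by omega)
  | succ n ih =>
    intro len lo s hl1 hl2 hl3 hs
    rcases Nat.lt_or_ge 1 len with hl | hl
    swap
    · obtain rfl : len = 1 := by omega
      exact one lo s hl3 (by omega)
    obtain ⟨s, rfl⟩ : ∃ s', s = s' + 4 := ⟨s - 4, by omega⟩
    have hpow : 2 ^ (n + 1) = 2 ^ n * 2 := pow_succ _ _
    have htest : tev x.length (.sub (.var 1) (.const 1)) (Rg lo len st e) ≠ 0 := by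
      change len - 1 ≠ 0
      omega
    have hL : ∀ s', 4 * n + 1 + c ≤ s' →
        (nval prog w' B' x s' q (Rg lo (len / 2) st e) = true ↔
          Odd ((Finset.Ico lo (lo + len / 2)).filter P).card) := fun s' hs' =>
      ih (len / 2) lo s' (by omega) (by omega) (by omega) hs'
    have hR : ∀ s', 4 * n + 1 + c ≤ s' →
        (nval prog w' B' x s' q (Rg (lo + len / 2) (len - len / 2) st e) = true ↔
          Odd ((Finset.Ico (lo + len / 2) (lo + len)).filter P).card) := fun s' hs' => by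
      rw [ih (len - len / 2) (lo + len / 2) s' (by omega) (by omega) (by omega) hs',
        show lo + len / 2 + (len - len / 2) = lo + len by omega]
    have hun : (Finset.Ico lo (lo + len)).filter P =
        (Finset.Ico lo (lo + len / 2)).filter P ∪
          (Finset.Ico (lo + len / 2) (lo + len)).filter P := by
      rw [← Finset.filter_union, Finset.Ico_union_Ico_eq_Ico (by omega) (by omega)]
    have hdis : Disjoint ((Finset.Ico lo (lo + len / 2)).filter P)
        ((Finset.Ico (lo + len / 2) (lo + len)).filter P) :=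
      Finset.disjoint_filter_filter (Finset.Ico_disjoint_Ico_consecutive _ _ _)
    rw [hun, Finset.card_union_of_disjoint hdis]
    have hLs := hL (s + 1) (by omega)
    have hLs0 := hL s (by omega)
    have hRs := hR (s + 1) (by omega)
    have hRs0 := hR s (by omega)
    rw [nval_ite h1, if_pos htest, regs_same he (by omega) (by omega) hst, nval_or h2,
      regs_same he (by omega) (by omega) hst, nval_and h3, nval_and h4,
      regs_left he (by omega) (by omega) hst, regs_right he (by omega) hst,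
      nval_not h5, nval_not h5, regs_same he (by omega) (by omega) hst,
      regs_same he (by omega) (by omega) hst]
    rw [Bool.or_eq_true, Bool.and_eq_true, Bool.and_eq_true, Bool.not_eq_true', Bool.not_eq_true',
      ← Bool.not_eq_true, ← Bool.not_eq_true, hLs, hLs0, hRs, hRs0, Nat.odd_add]
    simp only [Nat.not_odd_iff_even]
    by_cases hA : Odd (((Finset.Ico lo (lo + len / 2)).filter P).card)
    · have hA' := hA
      rw [← Nat.not_even_iff_odd] at hA'
      simp [hA, hA']
    · have hA' := hA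
      rw [Nat.not_odd_iff_even] at hA'
      simp [hA, hA']

theorem fuel_pos (l : ℕ) (φ : Fm) : 1 ≤ fuel l φ := by
  have h : 1 ≤ wt φ := by cases φ <;> simp [wt]
  have := Nat.mul_le_mul h (show 1 ≤ 4 * l + 2 by omega)
  simpa [fuel] using this

/-- Values of the nodes of a formula, given the values of the calls. -/
theorem nval_formula {root : ℕ → ℕ} {w st l c : ℕ} {tB : Tm Unit} {F : Itp}
    (h1 : prog.getD 1 dN = .cst (.const 0)) (hst : st ≤ B') (hl : B' ≤ 2 ^ l)
    (hrel : ∀ (i : ℕ) (ts : ℕ → Tm Unit) (q k : ℕ) (e : ℕ → ℕ) (lo len s : ℕ),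
      prog.getD q dN = .ite (.var 2) (root i) (callR w tB ts) 1 sameR → Ev w' B' k e →
      lo ≤ B' → len ≤ B' → c + 1 ≤ s →
      (nval prog w' B' x s q (Rg lo len st e) = true ↔ F i fun j => tev x.length (ts j) e)) :
    ∀ (ψ : Fm) (q k : ℕ) (e : ℕ → ℕ) (lo len s : ℕ), At root w tB prog ψ q → Ev w' B' k e →
      k + qd ψ + 3 ≤ w' → lo ≤ B' → len ≤ B' → QB x.length B' ψ e → c + fuel l ψ ≤ s →
      (nval prog w' B' x s q (Rg lo len st e) = true ↔ ψ.Sat x F e) := by
  intro ψ
  induction ψ with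
  | tst P =>
    intro q k e lo len s hA he hw hlo hlen hQ hs
    have := fuel_pos l (.tst P)
    obtain ⟨s, rfl⟩ : ∃ s', s = s' + 1 := ⟨s - 1, by omega⟩
    rw [nval_cst hA, tev_sh, decide_eq_true_iff]
    rfl
  | inp t =>
    intro q k e lo len s hA he hw hlo hlen hQ hs
    have := fuel_pos l (.inp t)
    obtain ⟨s, rfl⟩ : ∃ s', s = s' + 1 := ⟨s - 1, by omega⟩
    rw [nval_inp hA, tev_sh]
    rfl
  | rel i ts =>
    intro q k e lo len s hA he hw hlo hlen hQ hs
    have := fuel_pos l (.rel i ts)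
    exact hrel i ts q k e lo len s hA he hlo hlen (by omega)
  | not φ ih =>
    intro q k e lo len s hA he hw hlo hlen hQ hs
    have hf : fuel l (.not φ) = fuel l φ + (4 * l + 2) := by
      simp only [fuel, wt]
      ring
    obtain ⟨s, rfl⟩ : ∃ s', s = s' + 1 := ⟨s - 1, by omega⟩
    rw [nval_not hA.1, regs_same he hlo hlen hst, Bool.not_eq_true', ← Bool.not_eq_true,
      ih (q + 1) k e lo len s hA.2 he hw hlo hlen hQ (by omega)]
    rfl
  | and φ ψ ih ih' =>
    intro q k e lo len s hA he hw hlo hlen hQ hs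
    have hf : fuel l (.and φ ψ) = fuel l φ + fuel l ψ + (4 * l + 2) := by
      simp only [fuel, wt]
      ring
    have hw1 : k + qd φ + 3 ≤ w' ∧ k + qd ψ + 3 ≤ w' := by
      simp only [qd] at hw
      have := le_max_left (qd φ) (qd ψ)
      have := le_max_right (qd φ) (qd ψ)
      omega
    obtain ⟨s, rfl⟩ : ∃ s', s = s' + 1 := ⟨s - 1, by omega⟩
    rw [nval_and hA.1, regs_same he hlo hlen hst, Bool.and_eq_true,
      ih (q + 1) k e lo len s hA.2.1 he hw1.1 hlo hlen hQ.1 (by omega),
      ih' (q + 1 + sz φ) k e lo len s hA.2.2 he hw1.2 hlo hlen hQ.2 (by omega)]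
    rfl
  | ex b φ ih =>
    intro q k e lo len s hA he hw hlo hlen hQ hs
    have hf : fuel l (.ex b φ) = fuel l φ + (4 * l + 2) := by
      simp only [fuel, wt]
      ring
    simp only [qd] at hw
    obtain ⟨s, rfl⟩ : ∃ s', s = s' + 1 := ⟨s - 1, by omega⟩
    rw [nval_ite hA.1, tev_sh]
    by_cases hb : tev x.length b e = 0
    · rw [if_neg (by simp [hb]), nval_one h1]
      constructor
      · intro h; exact absurd h (by simp)
      · rintro ⟨v, hv, _⟩
        omega
    · rw [if_pos hb, regs_start he hQ.1 hst,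
        ex_split (c := c + fuel l φ) (P := fun v => φ.Sat x F (cons v e)) he (by omega) hst hQ.1
          hA.2.1 hA.2.2.1 (fun v hv s' hs' => ih (q + 3) (k + 1) (cons v e) 0 0 s' hA.2.2.2
            (he.cons (by have := hQ.1; omega) (by omega)) (by omega) (Nat.zero_le _)
            (Nat.zero_le _) (hQ.2 v hv) hs') l (tev x.length b e) 0 s (by omega)
          (hQ.1.trans hl) (by omega) (by omega)]
      simp only [Nat.zero_le, true_and, Nat.zero_add]
      rfl
  | par b φ ih =>
    intro q k e lo len s hA he hw hlo hlen hQ hs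
    have hf : fuel l (.par b φ) = fuel l φ + (4 * l + 2) := by
      simp only [fuel, wt]
      ring
    simp only [qd] at hw
    obtain ⟨s, rfl⟩ : ∃ s', s = s' + 1 := ⟨s - 1, by omega⟩
    rw [nval_ite hA.1, tev_sh]
    by_cases hb : tev x.length b e = 0
    · rw [if_neg (by simp [hb]), nval_one h1]
      constructor
      · intro h; exact absurd h (by simp)
      · intro h
        simp only [Fm.Sat, hb, Finset.range_zero, Finset.filter_empty, Finset.card_empty] at h
        exact absurd h (by decide)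
    · rw [if_pos hb, regs_start he hQ.1 hst,
        par_split (c := c + fuel l φ) (P := fun v => φ.Sat x F (cons v e)) he (by omega) hst hQ.1
          hA.2.1 hA.2.2.1 hA.2.2.2.1 hA.2.2.2.2.1 hA.2.2.2.2.2.1
          (fun v hv s' hs' => ih (q + 6) (k + 1) (cons v e) 0 0 s' hA.2.2.2.2.2.2
            (he.cons (by have := hQ.1; omega) (by omega)) (by omega) (Nat.zero_le _)
            (Nat.zero_le _) (hQ.2 v hv) hs') l (tev x.length b e) 0 s (by omega)
          (hQ.1.trans hl) (by omega) (by omega)]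
      rw [Nat.zero_add, ← Finset.range_eq_Ico]
      rfl

/-- Values of the nodes of a system. -/
theorem nval_stage {root : ℕ → ℕ} {w B m l M : ℕ} {tB : Tm Unit} {φ : ℕ → Fm}
    {Φ : ℕ → List Bool → Itp → (ℕ → ℕ) → Prop}
    (hφ : ∀ i x F e, (φ i).Sat x F e ↔ Φ i x F e)
    (hm : ∀ i, m ≤ i → ∀ x F e, ¬ Φ i x F e)
    (hroot : ∀ i, m ≤ i → root i = 1)
    (hAt : ∀ i, i < m → At root w tB prog (φ i) (root i))
    (h1 : prog.getD 1 dN = .cst (.const 0))
    (htB : ∀ e, tev x.length tB e = B) (hB : B ≤ B')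
    (hw : ∀ i, i < m → w + qd (φ i) + 3 ≤ w') (hw0 : w + 3 ≤ w')
    (hQ : ∀ i, i < m → ∀ e : ℕ → ℕ, (∀ j, e j ≤ B) → QB x.length B' (φ i) e)
    (hl : B' ≤ 2 ^ l) (hM : ∀ i, i < m → fuel l (φ i) ≤ M) :
    ∀ st, st ≤ B' → ∀ (ψ : Fm) (q k : ℕ) (e : ℕ → ℕ) (lo len s : ℕ), At root w tB prog ψ q →
      Ev w' B' k e → k + qd ψ + 3 ≤ w' → lo ≤ B' → len ≤ B' → QB x.length B' ψ e →
      st * M + fuel l ψ ≤ s →
      (nval prog w' B' x s q (Rg lo len st e) = true ↔
        ψ.Sat x (fun j e' => stage Φ w B x st j (clamp w B e')) e) := by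
  intro st
  induction st with
  | zero =>
    intro hst
    refine nval_formula h1 hst hl fun i ts q k e lo len s hq he hlo hlen hs => ?_
    obtain ⟨s, rfl⟩ : ∃ s', s = s' + 1 := ⟨s - 1, by omega⟩
    have h0 : ¬ (tev x.length (.var 2) (Rg lo len 0 e) ≠ 0) := fun h => h rfl
    rw [nval_ite hq, if_neg h0, nval_one h1]
    constructor
    · intro h; exact absurd h (by simp)
    · exact fun h => h.elim
  | succ t iht =>
    intro hst
    refine nval_formula h1 hst hl fun i ts q k e lo len s hq he hlo hlen hs => ?_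
    obtain ⟨s, rfl⟩ : ∃ s', s = s' + 1 := ⟨s - 1, by omega⟩
    have h0 : tev x.length (.var 2) (Rg lo len (t + 1) e) ≠ 0 := Nat.succ_ne_zero t
    have hs' : t * M + M ≤ s := by
      have : (t + 1) * M = t * M + M := by ring
      omega
    rw [nval_ite hq, if_pos h0, regs_call htB hB hw0 hst]
    change _ ↔ Φ i x (fun j e' => stage Φ w B x t j (clamp w B e')) _
    rcases Nat.lt_or_ge i m with hi | hi
    · rw [← hφ]
      have hcl : ∀ (e' : ℕ → ℕ) (j : ℕ), clamp w B e' j ≤ B := by
        intro e' j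
        unfold clamp
        split_ifs
        · exact min_le_right _ _
        · exact Nat.zero_le _
      refine iht (by omega) (φ i) (root i) w _ 0 0 s (hAt i hi) ⟨?_, ?_, hw0⟩ (hw i hi)
        (Nat.zero_le _) (Nat.zero_le _) (hQ i hi _ (hcl _)) ?_
      · exact fun j => (hcl _ j).trans hB
      · intro j hj
        exact if_neg (by omega)
      · have := hM i hi
        omega
    · rw [hroot i hi, nval_one h1]
      constructor
      · intro h; exact absurd h (by simp)
      · exact fun h => (hm i hi _ _ _ h).elim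

end sem

/-! ### The program -/

/-- Positions of the formulas. -/
def pos (φ : ℕ → Fm) (i : ℕ) : ℕ := 2 + ∑ j ∈ Finset.range i, sz (φ j)

/-- Roots. -/
def rt (φ : ℕ → Fm) (m i : ℕ) : ℕ := if i < m then pos φ i else 1

/-- Registers at the start. -/
def initR (tT : Tm Unit) : ℕ → Tm Unit
  | 2 => .sub tT (.const 1)
  | _ => .const 0

/-- The program. -/
noncomputable def code (root : ℕ → ℕ) (w : ℕ) (tB tT : Tm Unit) (φ : ℕ → Fm) : ℕ → List Node
  | 0 => [.ite tT (root 0) (initR tT) 1 sameR, .cst (.const 0)]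
  | i + 1 => code root w tB tT φ i ++ comp root w tB (φ i) (pos φ i)

theorem length_code (root : ℕ → ℕ) (w : ℕ) (tB tT : Tm Unit) (φ : ℕ → Fm) :
    ∀ i, (code root w tB tT φ i).length = pos φ i
  | 0 => rfl
  | i + 1 => by
    rw [code, List.length_append, length_code root w tB tT φ i, length_comp, pos, pos,
      Finset.sum_range_succ]
    omega

theorem code_append (root : ℕ → ℕ) (w : ℕ) (tB tT : Tm Unit) (φ : ℕ → Fm) (i : ℕ) :
    ∀ j, i ≤ j → ∃ l, code root w tB tT φ j = code root w tB tT φ i ++ l := by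
  intro j hj
  induction j, hj using Nat.le_induction with
  | base => exact ⟨[], by simp⟩
  | succ j _ ih =>
    obtain ⟨l, hl⟩ := ih
    exact ⟨l ++ comp root w tB (φ j) (pos φ j), by rw [code, hl, List.append_assoc]⟩

theorem at_code (root : ℕ → ℕ) (w : ℕ) (tB tT : Tm Unit) (φ : ℕ → Fm) (m i : ℕ) (hi : i < m) :
    At root w tB (code root w tB tT φ m) (φ i) (pos φ i) := by
  obtain ⟨l, hl⟩ := code_append root w tB tT φ (i + 1) m hi
  rw [hl, code, List.append_assoc]
  exact at_comp root w tB (φ i) (pos φ i) _ _ (length_code root w tB tT φ i)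

theorem nc_of_system (m : ℕ) (Φ : ℕ → List Bool → Itp → (ℕ → ℕ) → Prop)
    (hΦ : ∀ i, i < m → FOD (Φ i)) (hm : ∀ i, m ≤ i → ∀ x F e, ¬ Φ i x F e) (w : ℕ) (B T : ℕ → ℕ)
    (hB : NF fun N _ => B N) (hT : NF fun N _ => T N) (hTl : PolyLog T) (L : Set (List Bool))
    (hL : ∀ x, x ∈ L ↔ stage Φ w (B x.length) x (T x.length) 0 (fun _ => 0)) : InNC L := by
  classical
  have hΦ' : ∀ i, FOD (Φ i) := fun i => by
    rcases Nat.lt_or_ge i m with h | h
    · exact hΦ i h
    · refine ⟨.tst (.const 0), fun x F e => ⟨fun h' => absurd rfl h', fun h' => ?_⟩⟩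
      exact (hm i h x F e h').elim
  choose φ hφ using hΦ'
  obtain ⟨tB, htB⟩ := hB
  obtain ⟨tT, htT⟩ := hT
  have htB' : ∀ N e, tev N tB e = B N := fun N e => by
    have := htB (List.replicate N ()) e
    simpa [tev] using this
  have htT' : ∀ N e, tev N tT e = T N := fun N e => by
    have := htT (List.replicate N ()) e
    simpa [tev] using this
  -- bounds
  obtain ⟨SB, hSB, hSB'⟩ := tev_bound tB
  obtain ⟨ST, hST, hST'⟩ := tev_bound tT
  choose TQ hTQ hTQ' using fun i => exists_QB (φ i)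
  have hBle : ∀ N, B N ≤ SB N := fun N => by
    rw [← htB' N fun _ => 0]
    exact hSB' N _ N le_rfl fun _ => Nat.zero_le _
  have hTle : ∀ N, T N ≤ ST N := fun N => by
    rw [← htT' N fun _ => 0]
    exact hST' N _ N le_rfl fun _ => Nat.zero_le _
  have hPBsum : ∀ n, PB fun N => ∑ i ∈ Finset.range n, TQ i (N + SB N) := by
    intro n
    induction n with
    | zero => simpa using PB.const 0
    | succ n ih =>
      simp only [Finset.sum_range_succ]
      exact ih.add ((hTQ n).comp (PB.id.add hSB))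
  obtain ⟨P, hP⟩ := ((hSB.add hST).add (hPBsum m)).toPoly
  have hP1 : ∀ N, B N ≤ P.eval N := fun N => by
    have h1 := hP N
    have h2 := hBle N
    change SB N + ST N + _ ≤ _ at h1
    omega
  have hP2 : ∀ N, T N ≤ P.eval N := fun N => by
    have h1 := hP N
    have h2 := hTle N
    change SB N + ST N + _ ≤ _ at h1
    omega
  have hP3 : ∀ N i, i < m → TQ i (N + SB N) ≤ P.eval N := fun N i hi => by
    have h1 := hP N
    change SB N + ST N + _ ≤ _ at h1
    have h2 : TQ i (N + SB N) ≤ ∑ i ∈ Finset.range m, TQ i (N + SB N) :=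
      Finset.single_le_sum (f := fun i => TQ i (N + SB N)) (fun _ _ => Nat.zero_le _)
        (Finset.mem_range.2 hi)
    omega
  -- parameters
  let w' : ℕ := w + 3 + ∑ i ∈ Finset.range m, qd (φ i)
  let lg : ℕ → ℕ := fun N => Nat.log 2 (P.eval N) + 1
  let C : ℕ := ∑ i ∈ Finset.range m, wt (φ i)
  let M : ℕ → ℕ := fun N => C * (4 * lg N + 2)
  have hNP : NF fun N _ => P.eval N := UF.poly P UF.len
  have hNlg : NF fun N _ => lg N := UF.add (NF.log hNP) (UF.const 1)
  have hNM : NF fun N _ => M N := (UF.const C).mul (((UF.const 4).mul hNlg).add (UF.const 2))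
  have hNT : NF fun N _ => T N := ⟨tT, htT⟩
  refine nc_of_nodes (code (rt φ m) w tB tT φ m) w' (fun N => P.eval N)
    (fun N => T N * M N + 1) hNP ((UF.mul hNT hNM).add (UF.const 1)) ?_ L fun x => ?_
  · refine (hTl.mul ((PolyLog.const C).mul (((PolyLog.const 4).mul ?_).add
      (PolyLog.const 2)))).add (PolyLog.const 1)
    exact (PolyLog.log_of_PB (PB.ofPoly P)).add (PolyLog.const 1)
  rw [hL x]
  set N := x.length with hN
  have hnode0 : (code (rt φ m) w tB tT φ m).getD 0 dN =
      .ite tT (rt φ m 0) (initR tT) 1 sameR := by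
    obtain ⟨l, hl⟩ := code_append (rt φ m) w tB tT φ 0 m (Nat.zero_le _)
    rw [hl]
    rfl
  have hnode1 : (code (rt φ m) w tB tT φ m).getD 1 dN = .cst (.const 0) := by
    obtain ⟨l, hl⟩ := code_append (rt φ m) w tB tT φ 0 m (Nat.zero_le _)
    rw [hl]
    rfl
  have hw0 : w + 3 ≤ w' := Nat.le_add_right _ _
  have hwi : ∀ i, i < m → w + qd (φ i) + 3 ≤ w' := fun i hi => by
    have h2 : qd (φ i) ≤ ∑ i ∈ Finset.range m, qd (φ i) :=
      Finset.single_le_sum (f := fun i => qd (φ i)) (fun _ _ => Nat.zero_le _)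
        (Finset.mem_range.2 hi)
    change _ ≤ w + 3 + _
    omega
  have hl : P.eval N ≤ 2 ^ lg N := (Nat.lt_pow_succ_log_self (by omega) _).le
  have hM : ∀ i, i < m → fuel (lg N) (φ i) ≤ M N := fun i hi =>
    Nat.mul_le_mul_right _ (Finset.single_le_sum (f := fun i => wt (φ i))
      (fun _ _ => Nat.zero_le _) (Finset.mem_range.2 hi))
  have hQ : ∀ i, i < m → ∀ e : ℕ → ℕ, (∀ j, e j ≤ B N) → QB N (P.eval N) (φ i) e :=
    fun i hi e he => QB.mono (hP3 N i hi) _ _ (hTQ' i N (N + SB N) e (Nat.le_add_right _ _)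
      fun j => (he j).trans ((hBle N).trans (Nat.le_add_left _ _)))
  have key := nval_stage (prog := code (rt φ m) w tB tT φ m) (w' := w') (B' := P.eval N) (x := x)
    (root := rt φ m) (w := w) (B := B N) (m := m) (l := lg N) (M := M N) (tB := tB) hφ hm
    (fun i hi => if_neg (by omega)) (fun i hi => by
      have : rt φ m i = pos φ i := if_pos hi
      rw [this]
      exact at_code (rt φ m) w tB tT φ m i hi) hnode1 (fun e => htB' N e) (hP1 N) hwi hw0 hQ hl hM
  rw [nval_ite hnode0]
  rw [show tev x.length tT (fun _ => 0) = T N from htT' _ _]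
  rcases hTN : T N with _ | t
  · rw [if_neg (fun h => h rfl), nval_one hnode1]
    constructor
    · exact fun h => h.elim
    · intro h; exact absurd h (by simp)
  · rw [if_pos (Nat.succ_ne_zero t)]
    have hreg : regs x.length w' (P.eval N) (initR tT) (fun _ => 0) =
        Rg 0 0 t (fun _ => 0) := by
      have hE : Ev w' (P.eval N) w (fun _ => 0) :=
        ⟨fun _ => Nat.zero_le _, fun _ _ => rfl, hw0⟩
      have ht : t ≤ P.eval N := by
        have := hP2 N
        omega
      refine Eq.trans ?_ (clamp_Rg hE (Nat.zero_le _) (Nat.zero_le _) ht)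
      unfold regs
      congr 1
      funext j
      rcases j with _ | _ | _ | j
      · rfl
      · rfl
      · change tev x.length tT _ - 1 = t
        rw [htT', ← hN, hTN]
        rfl
      · rfl
    rw [hreg]
    change Φ 0 x (fun j e' => stage Φ w (B N) x t j (clamp w (B N) e')) (fun _ => 0) ↔ _
    rcases Nat.eq_zero_or_pos m with h0 | h0
    · have : rt φ m 0 = 1 := if_neg (by omega)
      rw [this, nval_one hnode1]
      constructor
      · exact fun h => (hm 0 (by omega) _ _ _ h).elim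
      · intro h; exact absurd h (by simp)
    · rw [← hφ, ← key t (by have := hP2 N; omega) (φ 0) (rt φ m 0) w (fun _ => 0) 0 0 _ ?_
        ⟨fun _ => Nat.zero_le _, fun _ _ => rfl, hw0⟩ (hwi 0 h0) (Nat.zero_le _) (Nat.zero_le _)
        (hQ 0 h0 _ fun _ => Nat.zero_le _) ?_]
      · have : rt φ m 0 = pos φ 0 := if_pos h0
        rw [this]
        exact at_code (rt φ m) w tB tT φ m 0 h0
      · have h3 := hM 0 h0
        have h4 : (t + 1) * M N = t * M N + M N := by ring
        omega

end Pool.Agent.NC
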